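import Mathlib

/-!
# Determinants, the triangle criterion and affine frames (MP_f9af53_co)
-/

namespace Pool.Agent.HBL

/-- Twice the signed area of the triangle `P Q R`. -/
def D (P Q R : ℝ × ℝ) : ℝ := (Q.1 - P.1) * (R.2 - P.2) - (Q.2 - P.2) * (R.1 - P.1)

/-- `√5 / 2`. -/
noncomputable def g : ℝ := Real.sqrt 5 / 2

theorem g_sq : g ^ 2 = 5 / 4 := by
  unfold g
  rw [div_pow, Real.sq_sqrt (by norm_num)]; norm_num

theorem g_pos : 0 < g := by unfold g; positivity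

theorem g_lb : (1.118 : ℝ) < g := by
  have h1 := g_sq; have h2 := g_pos
  nlinarith

theorem g_ub : g < (1.1181 : ℝ) := by
  have h1 := g_sq; have h2 := g_pos
  nlinarith

/-- `K` contains a triangle with a homothetic copy, of ratio less than `1 + √5/2`, that
contains `K`. -/
def Good (K : Set (ℝ × ℝ)) : Prop :=
  ∃ V1 ∈ K, ∃ V2 ∈ K, ∃ V3 ∈ K, 0 < D V1 V2 V3 ∧ ∃ r : ℝ, 0 < r ∧ r < 1 + g ∧
    ∃ t : ℝ × ℝ, ∀ P ∈ K, ∃ u1 u2 u3 : ℝ, 0 ≤ u1 ∧ 0 ≤ u2 ∧ 0 ≤ u3 ∧ u1 + u2 + u3 = 1 ∧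
      P = r • (u1 • V1 + u2 • V2 + u3 • V3) + t

/-- The criterion: if the excesses of `K` over the three sides add up to less than `√5/2`
altitudes, the triangle is good. -/
theorem good_of_excess {K : Set (ℝ × ℝ)} {V1 V2 V3 : ℝ × ℝ} {e1 e2 e3 : ℝ}
    (h1 : V1 ∈ K) (h2 : V2 ∈ K) (h3 : V3 ∈ K) (hd : 0 < D V1 V2 V3)
    (E1 : ∀ P ∈ K, -e1 ≤ D P V2 V3) (E2 : ∀ P ∈ K, -e2 ≤ D V1 P V3)
    (E3 : ∀ P ∈ K, -e3 ≤ D V1 V2 P) (hs : e1 + e2 + e3 < g * D V1 V2 V3) : Good K := by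
  obtain ⟨d, hdd⟩ : ∃ d, d = D V1 V2 V3 := ⟨_, rfl⟩
  rw [← hdd] at hd hs
  have n1 : 0 ≤ e1 := by
    have := E1 V2 h2
    have e : D V2 V2 V3 = 0 := by unfold D; ring
    rw [e] at this; linarith
  have n2 : 0 ≤ e2 := by
    have := E2 V1 h1
    have e : D V1 V1 V3 = 0 := by unfold D; ring
    rw [e] at this; linarith
  have n3 : 0 ≤ e3 := by
    have := E3 V1 h1
    have e : D V1 V2 V1 = 0 := by unfold D; ring
    rw [e] at this; linarith
  have hrd : (1 + (e1 + e2 + e3) / d) = (d + e1 + e2 + e3) / d := by field_simp; ring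
  have hr0 : 0 < d + e1 + e2 + e3 := by linarith
  refine ⟨V1, h1, V2, h2, V3, h3, by rw [← hdd]; exact hd, 1 + (e1 + e2 + e3) / d, ?_, ?_,
    -((e1 / d) • V1 + (e2 / d) • V2 + (e3 / d) • V3), ?_⟩
  · have : 0 ≤ (e1 + e2 + e3) / d := by positivity
    linarith
  · have : (e1 + e2 + e3) / d < g := by rw [div_lt_iff₀ hd]; exact hs
    linarith
  · intro P hP
    have p1 := E1 P hP
    have p2 := E2 P hP
    have p3 := E3 P hP
    refine ⟨(D P V2 V3 + e1) / (d + e1 + e2 + e3), (D V1 P V3 + e2) / (d + e1 + e2 + e3),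
      (D V1 V2 P + e3) / (d + e1 + e2 + e3), ?_, ?_, ?_, ?_, ?_⟩
    · apply div_nonneg _ hr0.le; linarith
    · apply div_nonneg _ hr0.le; linarith
    · apply div_nonneg _ hr0.le; linarith
    · rw [← add_div, ← add_div, div_eq_one_iff_eq hr0.ne', hdd]
      unfold D; ring
    · rw [hrd]
      have hd0 := hd.ne'
      have hr0' := hr0.ne'
      have key1 : d * P.1 = D P V2 V3 * V1.1 + D V1 P V3 * V2.1 + D V1 V2 P * V3.1 := by
        rw [hdd]; unfold D; ring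
      have key2 : d * P.2 = D P V2 V3 * V1.2 + D V1 P V3 * V2.2 + D V1 V2 P * V3.2 := by
        rw [hdd]; unfold D; ring
      ext
      · simp only [Prod.fst_add, Prod.smul_fst, Prod.fst_neg, smul_eq_mul]
        field_simp
        linarith
      · simp only [Prod.snd_add, Prod.smul_snd, Prod.snd_neg, smul_eq_mul]
        field_simp
        linarith

/-- The affine map with `(0,0) ↦ O`, `(1,0) ↦ E`, `(0,1) ↦ N`. -/
def fr (O E N : ℝ × ℝ) (P : ℝ × ℝ) : ℝ × ℝ :=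
  (O.1 + P.1 * (E.1 - O.1) + P.2 * (N.1 - O.1), O.2 + P.1 * (E.2 - O.2) + P.2 * (N.2 - O.2))

theorem D_fr (O E N P Q R : ℝ × ℝ) :
    D (fr O E N P) (fr O E N Q) (fr O E N R) = D O E N * D P Q R := by
  unfold D fr; ring

theorem fr_surj {O E N : ℝ × ℝ} (h : D O E N ≠ 0) (P : ℝ × ℝ) :
    fr O E N (D O P N / D O E N, D O E P / D O E N) = P := by
  obtain ⟨d, hd⟩ : ∃ d, d = D O E N := ⟨_, rfl⟩
  have key1 : d * (P.1 - O.1) = D O P N * (E.1 - O.1) + D O E P * (N.1 - O.1) := by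
    rw [hd]; unfold D; ring
  have key2 : d * (P.2 - O.2) = D O P N * (E.2 - O.2) + D O E P * (N.2 - O.2) := by
    rw [hd]; unfold D; ring
  rw [← hd] at h ⊢
  ext
  · simp only [fr]
    field_simp
    linarith
  · simp only [fr]
    field_simp
    linarith

/-- Goodness is affinely invariant. -/
theorem Good.of_fr {O E N : ℝ × ℝ} (h : 0 < D O E N) {K : Set (ℝ × ℝ)}
    (hK : Good (fr O E N ⁻¹' K)) : Good K := by
  obtain ⟨V1, h1, V2, h2, V3, h3, hd, r, hr0, hr, t, H⟩ := hK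
  refine ⟨_, h1, _, h2, _, h3, ?_, r, hr0, hr,
    (O.1 - r * O.1 + (t.1 * (E.1 - O.1) + t.2 * (N.1 - O.1)),
      O.2 - r * O.2 + (t.1 * (E.2 - O.2) + t.2 * (N.2 - O.2))), ?_⟩
  · rw [D_fr]; positivity
  · intro P hP
    have hs := fr_surj h.ne' P
    obtain ⟨u1, u2, u3, n1, n2, n3, hu, he⟩ := H (D O P N / D O E N, D O E P / D O E N)
      (by simp only [Set.mem_preimage]; rw [hs]; exact hP)
    refine ⟨u1, u2, u3, n1, n2, n3, hu, ?_⟩
    rw [← hs, he]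
    have hu1 : u1 = 1 - u2 - u3 := by linarith
    subst hu1
    ext
    · simp only [fr, Prod.fst_add, Prod.smul_fst, Prod.snd_add, Prod.smul_snd, smul_eq_mul]
      ring
    · simp only [fr, Prod.fst_add, Prod.smul_fst, Prod.snd_add, Prod.smul_snd, smul_eq_mul]
      ring

end Pool.Agent.HBL
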