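import Pool.Agent.HBL.Plane

/-!
# Strict local maximality of the affine-regular pentagon
-/

namespace Pool.Agent.HBL

open Pointwise Pool.Agent.HBM3

theorem isBody_reg : IsBody (convexHull ℝ (Set.range regV)) := by
  refine ⟨convex_convexHull ℝ _,
    Set.Finite.isCompact_convexHull (𝕜 := ℝ) (Set.finite_range regV), ?_⟩
  have g1 := g_lb
  have g2 := g_ub
  obtain ⟨e, he⟩ := exists_frE reg_D
  have hPst : (interior Pst).Nonempty := by
    refine ⟨(1 / 2, 1 / 2), ?_⟩
    rw [mem_interior]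
    refine ⟨{x | ∀ j, 0 < Yf j x}, ?_, ?_, ?_⟩
    · intro x hx
      exact mem_Pst fun j => (hx j).le
    · have : {x | ∀ j, 0 < Yf j x} = ⋂ j, {x | 0 < Yf j x} := by ext x; simp
      rw [this]
      exact isOpen_iInter_of_finite fun j => isOpen_lt continuous_const (aff_Yf j).cont
    · intro j
      fin_cases j
      · simp [Yf, w, D]
      · simp [Yf, w, D]; linarith
      · simp [Yf, w, D]; nlinarith [g_sq]
      · simp [Yf, w, D]; linarith
      · simp [Yf, w, D]
  have h1 : convexHull ℝ (Set.range regV) = (e.trans T.symm.toAffineEquiv) '' Pst := by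
    have h2 : T '' convexHull ℝ (Set.range regV) = e '' Pst := by
      rw [T_reg]; exact Set.image_congr fun x _ => (he x).symm
    have h3 : (e.trans T.symm.toAffineEquiv) '' Pst = T.symm '' (e '' Pst) := by
      rw [Set.image_image]; rfl
    rw [h3, ← h2, Set.image_image]; simp
  rw [h1]
  have h4 : ((e.trans T.symm.toAffineEquiv) : (ℝ × ℝ) → Pl) '' Pst
      = (e.trans T.symm.toAffineEquiv).toHomeomorphOfFiniteDimensional '' Pst := rfl
  rw [h4, ← Homeomorph.image_interior]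
  exact hPst.image _

theorem IsAffineRegularPentagon.isBody {P : Set Pl} (h : IsAffineRegularPentagon P) :
    IsBody P := by
  obtain ⟨f, rfl⟩ := h
  obtain ⟨h1, h2, h3⟩ := isBody_reg
  refine ⟨?_, ?_, ?_⟩
  · exact h1.affine_image f.toAffineMap
  · exact h2.image f.continuous_of_finiteDimensional
  · have h4 : f '' convexHull ℝ (Set.range regV)
      = f.toHomeomorphOfFiniteDimensional '' convexHull ℝ (Set.range regV) := rfl
    rw [h4, ← Homeomorph.image_interior]
    exact h3.image _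

theorem homRatios_nonempty {C P : Set Pl} (hC : IsBody C) (hP : IsBody P) :
    (homRatios C P).Nonempty := by
  obtain ⟨-, c2, c3⟩ := hC
  obtain ⟨-, p2, p3⟩ := hP
  obtain ⟨c, hc⟩ := c3
  obtain ⟨p, hp⟩ := p3
  obtain ⟨r, hr, hrb⟩ := Metric.isOpen_iff.1 isOpen_interior c hc
  obtain ⟨s, hs, hsb⟩ := Metric.isOpen_iff.1 isOpen_interior p hp
  obtain ⟨A, hA0, hA⟩ := c2.isBounded.exists_pos_norm_le
  obtain ⟨B, hB0, hB⟩ := p2.isBounded.exists_pos_norm_le
  refine ⟨_, s / (2 * A), 2 * B / r, p, -((2 * B / r) • c), by positivity, by positivity, ?_, ?_,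
    rfl⟩
  · intro x hx
    obtain ⟨y, hy, t', ht', rfl⟩ := Set.mem_add.1 hx
    rw [Set.mem_singleton_iff] at ht'
    subst ht'
    obtain ⟨k, hk, rfl⟩ := hy
    apply interior_subset
    apply hsb
    rw [Metric.mem_ball, dist_eq_norm]
    simp only [add_sub_cancel_right]
    rw [norm_smul, Real.norm_eq_abs, abs_of_pos (by positivity)]
    have := hA k hk
    calc s / (2 * A) * ‖k‖ ≤ s / (2 * A) * A := by gcongr
      _ = s / 2 := by field_simp
      _ < s := by linarith
  · intro x hx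
    rw [Set.add_singleton]
    refine ⟨(2 * B / r) • (c + (r / (2 * B)) • x), ⟨c + (r / (2 * B)) • x, ?_, rfl⟩, ?_⟩
    · apply interior_subset
      apply hrb
      rw [Metric.mem_ball, dist_eq_norm, add_sub_cancel_left, norm_smul, Real.norm_eq_abs,
        abs_of_pos (by positivity)]
      have := hB x hx
      calc r / (2 * B) * ‖x‖ ≤ r / (2 * B) * B := by gcongr
        _ = r / 2 := by field_simp
        _ < r := by linarith
    · simp only [smul_add, smul_smul]
      have : 2 * B / r * (r / (2 * B)) = 1 := by field_simp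
      rw [this, one_smul]
      abel

theorem g_eq : (1 : ℝ) + g = 1 + Real.sqrt 5 / 2 := rfl

/-- From coordinates to the plane. -/
theorem Good.plane {C : Set Pl} (hC : IsBody C) (h : Good (T '' C)) :
    ∃ Q : Set Pl, IsNGon 3 Q ∧ Q ⊆ C ∧ ∃ r : ℝ, 0 < r ∧ r < 1 + Real.sqrt 5 / 2 ∧
      ∃ t : Pl, C ⊆ r • Q + {t} := by
  classical
  obtain ⟨hconv, hcomp, hint⟩ := hC
  obtain ⟨_, ⟨v1, hv1, rfl⟩, _, ⟨v2, hv2, rfl⟩, _, ⟨v3, hv3, rfl⟩, -, r, hr0, hr, t, H⟩ := h
  have hcov : C ⊆ r • convexHull ℝ ({v1, v2, v3} : Set Pl) + {T.symm t} := by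
    intro x hx
    obtain ⟨u1, u2, u3, n1, n2, n3, hu, he⟩ := H (T x) ⟨x, hx, rfl⟩
    rw [Set.add_singleton]
    refine ⟨r • (u1 • v1 + u2 • v2 + u3 • v3), ⟨u1 • v1 + u2 • v2 + u3 • v3, ?_, rfl⟩, ?_⟩
    · exact mem_hull3 n1 n2 n3 hu
    · apply T.injective
      rw [he]
      simp
  refine ⟨convexHull ℝ ({v1, v2, v3} : Set Pl), ⟨{v1, v2, v3}, Finset.card_le_three, by simp, ?_⟩,
    ?_, r, hr0, hr, _, hcov⟩
  · obtain ⟨p, hp⟩ := hint
    have h5 := interior_mono hcov hp
    rw [Set.add_singleton] at h5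
    have h6 : (fun x : Pl => x + T.symm t) '' (r • convexHull ℝ ({v1, v2, v3} : Set Pl))
        = (Homeomorph.addRight (T.symm t)) '' (r • convexHull ℝ ({v1, v2, v3} : Set Pl)) := rfl
    rw [h6, ← (Homeomorph.addRight (T.symm t)).image_interior] at h5
    obtain ⟨q, hq, -⟩ := h5
    rw [interior_smul₀ hr0.ne'] at hq
    obtain ⟨q', hq', -⟩ := hq
    exact ⟨q', hq'⟩
  · refine convexHull_min ?_ hconv
    rintro v (rfl | rfl | rfl)
    · exact hv1
    · exact hv2
    · exact hv3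

theorem local_max {C P : Set Pl} (hC : IsBody C) (hP : IsAffineRegularPentagon P)
    (h : homDist C P < 1 + 1 / 10 ^ 15) :
    IsAffineRegularPentagon C ∨ ∃ Q : Set Pl, IsNGon 3 Q ∧ Q ⊆ C ∧ ∃ r : ℝ, 0 < r ∧
      r < 1 + Real.sqrt 5 / 2 ∧ ∃ t : Pl, C ⊆ r • Q + {t} := by
  obtain ⟨_, ⟨l1, l2, t1, t2, h1, h2, i1, i2, rfl⟩, hr⟩ :=
    exists_lt_of_csInf_lt (homRatios_nonempty hC hP.isBody) h
  obtain ⟨O, E, N, hD, hPe⟩ := (affreg_iff P).1 hP
  have hCc : IsCompact (T '' C) := by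
    have : Continuous T := T.toLinearMap.continuous_of_finiteDimensional
    exact hC.2.1.image this
  have hCv : Convex ℝ (T '' C) := hC.1.linear_image T.toLinearMap
  have hin : ∀ c ∈ T '' C, l1 • c + T t1 ∈ fr O E N '' Pst := by
    rintro _ ⟨c, hc, rfl⟩
    rw [← hPe, ← map_smul, ← map_add]
    exact ⟨_, i1 (Set.add_mem_add (Set.smul_mem_smul_set hc) rfl), rfl⟩
  have hout : ∀ q ∈ fr O E N '' Pst, ∃ c ∈ T '' C, q = l2 • c + T t2 := by
    intro q hq
    rw [← hPe] at hq
    obtain ⟨p, hp, rfl⟩ := hq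
    obtain ⟨y, hy, t', ht', rfl⟩ := Set.mem_add.1 (i2 hp)
    rw [Set.mem_singleton_iff] at ht'
    subst ht'
    obtain ⟨c, hc, rfl⟩ := hy
    exact ⟨T c, ⟨c, hc, rfl⟩, by simp⟩
  rcases sandwich hCc hCv hD h1 h2 hin hout hr with h3 | ⟨O', E', N', hD', he⟩
  · exact Or.inr (h3.plane hC)
  · exact Or.inl ((affreg_iff C).2 ⟨O', E', N', hD', he⟩)

/-- An affine-regular pentagon is a convex polygon with at most five vertices. -/
theorem IsAffineRegularPentagon.isNGon {P : Set Pl} (h : IsAffineRegularPentagon P) :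
    IsNGon 5 P := by
  classical
  have hb := h.isBody
  obtain ⟨f, rfl⟩ := h
  refine ⟨(Finset.univ : Finset (Fin 5)).image (fun k => f (regV k)), ?_, ?_, hb.2.2⟩
  · exact Finset.card_image_le.trans (by simp)
  · have h1 : f '' convexHull ℝ (Set.range regV) = convexHull ℝ (f '' Set.range regV) :=
      f.toAffineMap.image_convexHull _
    rw [h1]
    congr 1
    ext x
    simp

end Pool.Agent.HBL
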