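import Pool.Agent.HBL.Loc

/-!
# The five triangles together
-/

namespace Pool.Agent.HBL

/-- A circumscribed pentagon, close to the standard one, with touching points near the midpoints
of its sides, and the support points of `K` opposite to the sides. -/
structure Conf (K : Set (ℝ × ℝ)) (v : Fin 5 → ℝ × ℝ) (x y z : Fin 5 → ℝ) : Prop where
  ar : ∀ j, |D (v (j + 4)) (v j) (v (j + 1)) - 1| ≤ 1 / 10000
  area : |D (v 0) (v 1) (v 2) + D (v 3) (v 4) (v 0) + D (v 0) (v 2) (v 3) - (5 / 2 + g)| ≤ 1 / 10000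
  zz : ∀ j, |z j - 1 / 2| ≤ 1 / 10000
  xx : ∀ j, 0 ≤ x j ∧ x j ≤ 0.001
  yy : ∀ j, 0 ≤ y j ∧ y j ≤ 0.001
  mid : ∀ j, fr (v j) (v (j + 1)) (v (j + 4)) (z j, 0) ∈ K
  tip : ∀ j, fr (v j) (v (j + 1)) (v (j + 4)) (x j, y j) ∈ K
  side : ∀ j, ∀ P ∈ K, 0 ≤ D (v j) (v (j + 1)) P
  top : ∀ j, ∀ P ∈ K, D (v (j + 2)) (v (j + 3)) P ≤
    D (v (j + 2)) (v (j + 3)) (fr (v j) (v (j + 1)) (v (j + 4)) (x j, y j))

theorem gauss (v0 v1 v2 v3 v4 : ℝ × ℝ) :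
    (D v0 v1 v2 + D v3 v4 v0 + D v0 v2 v3)^2 - (D v0 v1 v2 + D v3 v4 v0 + D v0 v2 v3) *
      (D v4 v0 v1 + D v0 v1 v2 + D v1 v2 v3 + D v2 v3 v4 + D v3 v4 v0) +
      (D v4 v0 v1 * D v0 v1 v2 + D v0 v1 v2 * D v1 v2 v3 + D v1 v2 v3 * D v2 v3 v4
        + D v2 v3 v4 * D v3 v4 v0 + D v3 v4 v0 * D v4 v0 v1) = 0 := by
  unfold D
  ring

set_option maxHeartbeats 4000000 in
theorem Conf.comb {K : Set (ℝ × ℝ)} (hK : Convex ℝ K) {v : Fin 5 → ℝ × ℝ} {x y z : Fin 5 → ℝ}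
    (C : Conf K v x y z) :
    Good K ∨ ((∀ j, x j = 0 ∧ y j = 0) ∧
      ∃ m, ∀ j, D (v (j + 4)) (v j) (v (j + 1)) = m) := by
  obtain ⟨a0, e0⟩ : ∃ a, D (v 4) (v 0) (v 1) = a := ⟨_, rfl⟩
  obtain ⟨a1, e1⟩ : ∃ a, D (v 0) (v 1) (v 2) = a := ⟨_, rfl⟩
  obtain ⟨a2, e2⟩ : ∃ a, D (v 1) (v 2) (v 3) = a := ⟨_, rfl⟩
  obtain ⟨a3, e3⟩ : ∃ a, D (v 2) (v 3) (v 4) = a := ⟨_, rfl⟩
  obtain ⟨a4, e4⟩ : ∃ a, D (v 3) (v 4) (v 0) = a := ⟨_, rfl⟩
  obtain ⟨S, eS⟩ : ∃ S, S = D (v 0) (v 1) (v 2) + D (v 3) (v 4) (v 0) + D (v 0) (v 2) (v 3) :=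
    ⟨_, rfl⟩
  have h0 : |a0 - 1| ≤ 1 / 10000 := by rw [← e0]; exact C.ar 0
  have h1 : |a1 - 1| ≤ 1 / 10000 := by rw [← e1]; exact C.ar 1
  have h2 : |a2 - 1| ≤ 1 / 10000 := by rw [← e2]; exact C.ar 2
  have h3 : |a3 - 1| ≤ 1 / 10000 := by rw [← e3]; exact C.ar 3
  have h4 : |a4 - 1| ≤ 1 / 10000 := by rw [← e4]; exact C.ar 4
  have hS : |S - (5 / 2 + g)| ≤ 1 / 10000 := by rw [eS]; exact C.area
  have hG : S^2 - S * (a0 + a1 + a2 + a3 + a4) + (a0*a1 + a1*a2 + a2*a3 + a3*a4 + a4*a0) = 0 := by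
    rw [eS, ← e0, ← e1, ← e2, ← e3, ← e4]; exact gauss _ _ _ _ _
  have s0 : D (v 0) (v 2) (v 3) = S - a1 - a4 := by rw [eS, e1, e4]; ring
  have s1 : D (v 1) (v 3) (v 4) = S - a2 - a0 := by
    rw [eS, ← e2, ← e0]; unfold D; ring
  have s2 : D (v 2) (v 4) (v 0) = S - a3 - a1 := by
    rw [eS, ← e3, ← e1]; unfold D; ring
  have s3 : D (v 3) (v 0) (v 1) = S - a4 - a2 := by
    rw [eS, ← e4, ← e2]; unfold D; ring
  have s4 : D (v 4) (v 1) (v 2) = S - a0 - a3 := by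
    rw [eS, ← e0, ← e3]; unfold D; ring
  have T0 := T1 (v0 := v 0) (v1 := v 1) (v2 := v 2) (v3 := v 3) (v4 := v 4) hK
    e0 e1 e2 e3 e4 s0 h0 h1 h2 h3 h4 hS (C.zz 1) (C.zz 3) (C.xx 0) (C.yy 0) (C.xx 1) (C.yy 1)
    (C.xx 2) (C.yy 2) (C.xx 3) (C.yy 3) (C.xx 4) (C.yy 4) (C.mid 1) (C.mid 3) (C.tip 0)
    (C.tip 2) (C.tip 3) (C.side 2) (C.side 0) (C.side 4) (C.top 1) (C.top 4)
  have T1' := T1 (v0 := v 1) (v1 := v 2) (v2 := v 3) (v3 := v 4) (v4 := v 0) hK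
    e1 e2 e3 e4 e0 s1 h1 h2 h3 h4 h0 hS (C.zz 2) (C.zz 4) (C.xx 1) (C.yy 1) (C.xx 2) (C.yy 2)
    (C.xx 3) (C.yy 3) (C.xx 4) (C.yy 4) (C.xx 0) (C.yy 0) (C.mid 2) (C.mid 4) (C.tip 1)
    (C.tip 3) (C.tip 4) (C.side 3) (C.side 1) (C.side 0) (C.top 2) (C.top 0)
  have T2 := T1 (v0 := v 2) (v1 := v 3) (v2 := v 4) (v3 := v 0) (v4 := v 1) hK
    e2 e3 e4 e0 e1 s2 h2 h3 h4 h0 h1 hS (C.zz 3) (C.zz 0) (C.xx 2) (C.yy 2) (C.xx 3) (C.yy 3)
    (C.xx 4) (C.yy 4) (C.xx 0) (C.yy 0) (C.xx 1) (C.yy 1) (C.mid 3) (C.mid 0) (C.tip 2)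
    (C.tip 4) (C.tip 0) (C.side 4) (C.side 2) (C.side 1) (C.top 3) (C.top 1)
  have T3 := T1 (v0 := v 3) (v1 := v 4) (v2 := v 0) (v3 := v 1) (v4 := v 2) hK
    e3 e4 e0 e1 e2 s3 h3 h4 h0 h1 h2 hS (C.zz 4) (C.zz 1) (C.xx 3) (C.yy 3) (C.xx 4) (C.yy 4)
    (C.xx 0) (C.yy 0) (C.xx 1) (C.yy 1) (C.xx 2) (C.yy 2) (C.mid 4) (C.mid 1) (C.tip 3)
    (C.tip 0) (C.tip 1) (C.side 0) (C.side 3) (C.side 2) (C.top 4) (C.top 2)
  have T4 := T1 (v0 := v 4) (v1 := v 0) (v2 := v 1) (v3 := v 2) (v4 := v 3) hK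
    e4 e0 e1 e2 e3 s4 h4 h0 h1 h2 h3 hS (C.zz 0) (C.zz 2) (C.xx 4) (C.yy 4) (C.xx 0) (C.yy 0)
    (C.xx 1) (C.yy 1) (C.xx 2) (C.yy 2) (C.xx 3) (C.yy 3) (C.mid 0) (C.mid 2) (C.tip 4)
    (C.tip 1) (C.tip 2) (C.side 1) (C.side 4) (C.side 3) (C.top 0) (C.top 3)
  rcases T0 with h | T0
  · exact Or.inl h
  rcases T1' with h | T1'
  · exact Or.inl h
  rcases T2 with h | T2
  · exact Or.inl h
  rcases T3 with h | T3
  · exact Or.inl h
  rcases T4 with h | T4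
  · exact Or.inl h
  right
  obtain ⟨m, hm⟩ := Wsum_le h0 h1 h2 h3 h4 hS hG
  have n0 := sq_nonneg (a0 - m)
  have n1 := sq_nonneg (a1 - m)
  have n2 := sq_nonneg (a2 - m)
  have n3 := sq_nonneg (a3 - m)
  have n4 := sq_nonneg (a4 - m)
  have x0 := (C.xx 0).1
  have x1 := (C.xx 1).1
  have x2 := (C.xx 2).1
  have x3 := (C.xx 3).1
  have x4 := (C.xx 4).1
  have y0 := (C.yy 0).1
  have y1 := (C.yy 1).1
  have y2 := (C.yy 2).1
  have y3 := (C.yy 3).1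
  have y4 := (C.yy 4).1
  constructor
  · intro j
    fin_cases j
    · exact ⟨le_antisymm (by simp only [Fin.zero_eta, Fin.isValue]; linarith) x0,
        le_antisymm (by simp only [Fin.zero_eta, Fin.isValue]; linarith) y0⟩
    · exact ⟨le_antisymm (by simp only [Fin.mk_one, Fin.isValue]; linarith) x1,
        le_antisymm (by simp only [Fin.mk_one, Fin.isValue]; linarith) y1⟩
    · exact ⟨le_antisymm (by simp only [Fin.reduceFinMk, Fin.isValue]; linarith) x2,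
        le_antisymm (by simp only [Fin.reduceFinMk, Fin.isValue]; linarith) y2⟩
    · exact ⟨le_antisymm (by simp only [Fin.reduceFinMk, Fin.isValue]; linarith) x3,
        le_antisymm (by simp only [Fin.reduceFinMk, Fin.isValue]; linarith) y3⟩
    · exact ⟨le_antisymm (by simp only [Fin.reduceFinMk, Fin.isValue]; linarith) x4,
        le_antisymm (by simp only [Fin.reduceFinMk, Fin.isValue]; linarith) y4⟩
  · have z0 : a0 = m := by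
      have : (a0 - m)^2 = 0 := le_antisymm (by linarith) n0
      have := pow_eq_zero_iff (two_ne_zero) |>.1 this
      linarith
    have z1 : a1 = m := by
      have : (a1 - m)^2 = 0 := le_antisymm (by linarith) n1
      have := pow_eq_zero_iff (two_ne_zero) |>.1 this
      linarith
    have z2 : a2 = m := by
      have : (a2 - m)^2 = 0 := le_antisymm (by linarith) n2
      have := pow_eq_zero_iff (two_ne_zero) |>.1 this
      linarith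
    have z3 : a3 = m := by
      have : (a3 - m)^2 = 0 := le_antisymm (by linarith) n3
      have := pow_eq_zero_iff (two_ne_zero) |>.1 this
      linarith
    have z4 : a4 = m := by
      have : (a4 - m)^2 = 0 := le_antisymm (by linarith) n4
      have := pow_eq_zero_iff (two_ne_zero) |>.1 this
      linarith
    refine ⟨m, fun j => ?_⟩
    fin_cases j
    · exact e0.trans z0
    · exact e1.trans z1
    · exact e2.trans z2
    · exact e3.trans z3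
    · exact e4.trans z4

end Pool.Agent.HBL
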