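import Pool.Agent.HBM3.Defs

/-!
# Affine-regular pentagons and the distance to the nearest triangle
-/

namespace Pool.Agent.HBL

open Pool.Agent.HBM3

/-- The vertices of a regular pentagon inscribed in the unit circle. -/
noncomputable def regV (k : Fin 5) : Pl :=
  !₂[Real.cos (2 * Real.pi * (k : ℕ) / 5), Real.sin (2 * Real.pi * (k : ℕ) / 5)]

/-- An affine-regular pentagon: the image of a regular pentagon (with its interior) under a
bijective affine map of the plane. -/
def IsAffineRegularPentagon (P : Set Pl) : Prop :=
  ∃ f : Pl ≃ᵃ[ℝ] Pl, P = f '' convexHull ℝ (Set.range regV)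

/-- The homothety Banach-Mazur distance of `C` to the nearest triangle. -/
noncomputable def triDist (C : Set Pl) : ℝ := sInf {y | ∃ Q, IsNGon 3 Q ∧ y = homDist C Q}

end Pool.Agent.HBL
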