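import Pool.Agent.HBL.Ref

/-!
# The theorem for bodies close to the standard pentagon
-/

namespace Pool.Agent.HBL

theorem fr_comb (O E N P Q : ℝ × ℝ) {p q : ℝ} (h : p + q = 1) :
    fr O E N (p • P + q • Q) = p • fr O E N P + q • fr O E N Q := by
  have hq' : q = 1 - p := by linarith
  subst hq'
  ext
  · simp only [fr, Prod.fst_add, Prod.smul_fst, Prod.snd_add, Prod.smul_snd, smul_eq_mul]; ring
  · simp only [fr, Prod.fst_add, Prod.smul_fst, Prod.snd_add, Prod.smul_snd, smul_eq_mul]; ring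

theorem convex_fr {O E N : ℝ × ℝ} {K : Set (ℝ × ℝ)} (hK : Convex ℝ K) :
    Convex ℝ (fr O E N ⁻¹' K) := by
  intro P hP Q hQ p q hp hq hpq
  have h := hK hP hQ hp hq hpq
  simp only [Set.mem_preimage]
  rw [fr_comb _ _ _ _ _ hpq]
  exact h

/-- The standard pentagon. -/
noncomputable def Pst : Set (ℝ × ℝ) := convexHull ℝ (Set.range w)

theorem mem3 {S : Set (ℝ × ℝ)} (hS : Convex ℝ S) {A B C : ℝ × ℝ} (hA : A ∈ S) (hB : B ∈ S)
    (hC : C ∈ S) {a b c : ℝ} (ha : 0 ≤ a) (hb : 0 ≤ b) (hc : 0 ≤ c) (h : a + b + c = 1) :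
    a • A + b • B + c • C ∈ S := by
  have := hS.sum_mem (t := Finset.univ) (w := ![a, b, c]) (z := ![A, B, C])
    (by intro i _; fin_cases i <;> simpa) (by simp [Fin.sum_univ_three, h])
    (by intro i _; fin_cases i <;> simpa)
  simpa [Fin.sum_univ_three] using this

theorem mem_Pst {P : ℝ × ℝ} (h : ∀ j, 0 ≤ Yf j P) : P ∈ Pst := by
  have g1 := g_lb
  have g2 := g_ub
  have hg := g_sq
  have h0 := h 0
  have h1 := h 1
  have h2 := h 2
  have h3 := h 3
  have h4 := h 4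
  have e0 : Yf 0 P = P.2 := by simp [Yf, w, D]
  have e1 : Yf 1 P = 1 + (g - 1 / 2) * P.2 - P.1 := by simp [Yf, w, D]; ring
  have e2 : Yf 2 P = (g + 1 / 2) - (g - 1 / 2) * (P.1 + P.2) := by
    simp [Yf, w, D]; linear_combination hg
  have e3 : Yf 3 P = 1 + (g - 1 / 2) * P.1 - P.2 := by
    simp [Yf, w, D]; ring
  have e4 : Yf 4 P = P.1 := by simp [Yf, w, D]
  rw [e0] at h0
  rw [e1] at h1
  rw [e2] at h2
  rw [e3] at h3
  rw [e4] at h4
  have mw : ∀ j, w j ∈ Pst := fun j => subset_convexHull ℝ _ ⟨j, rfl⟩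
  have hc : Convex ℝ Pst := convex_convexHull ℝ _
  have w0 : w 0 = (0, 0) := rfl
  have w1 : w 1 = (1, 0) := rfl
  have w2 : w 2 = (g + 1 / 2, 1) := rfl
  have w3 : w 3 = (1, g + 1 / 2) := rfl
  have w4 : w 4 = (0, 1) := rfl
  rcases le_total ((g + 1 / 2) * P.2) P.1 with hA | hA
  · have := mem3 hc (mw 0) (mw 1) (mw 2) (a := 1 + (g - 1 / 2) * P.2 - P.1)
      (b := P.1 - (g + 1 / 2) * P.2) (c := P.2) h1 (by linarith) h0 (by ring)
    convert this using 1
    rw [w0, w1, w2]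
    ext
    · simp only [Prod.fst_add, Prod.smul_fst, smul_eq_mul]; ring
    · simp only [Prod.snd_add, Prod.smul_snd, smul_eq_mul]; ring
  rcases le_total ((g + 1 / 2) * P.1) P.2 with hB | hB
  · have := mem3 hc (mw 0) (mw 3) (mw 4) (a := 1 + (g - 1 / 2) * P.1 - P.2)
      (b := P.1) (c := P.2 - (g + 1 / 2) * P.1) h3 h4 (by linarith) (by ring)
    convert this using 1
    rw [w0, w3, w4]
    ext
    · simp only [Prod.fst_add, Prod.smul_fst, smul_eq_mul]; ring
    · simp only [Prod.snd_add, Prod.smul_snd, smul_eq_mul]; ring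
  · have hi : (g - 1 / 2) * (g + 1 / 2) = 1 := by linear_combination hg
    have hp : 0 ≤ g - 1 / 2 := by linarith
    have := mem3 hc (mw 0) (mw 2) (mw 3)
      (a := (g - 1 / 2) * ((g + 1 / 2) - (g - 1 / 2) * (P.1 + P.2)))
      (b := (g - 1 / 2) * ((g + 1 / 2) * P.1 - P.2))
      (c := (g - 1 / 2) * ((g + 1 / 2) * P.2 - P.1)) (mul_nonneg hp h2)
      (mul_nonneg hp (by linarith)) (mul_nonneg hp (by linarith))
      (by linear_combination (2 - (P.1 + P.2) + (P.1 + P.2)) * hg - hg)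
    convert this using 1
    rw [w0, w2, w3]
    ext
    · simp only [Prod.fst_add, Prod.smul_fst, smul_eq_mul]
      linear_combination (-(g * P.1) + 1 / 2 * P.1 - P.1) * hg
    · simp only [Prod.snd_add, Prod.smul_snd, smul_eq_mul]
      linear_combination (-(g * P.2) + 1 / 2 * P.2 - P.2) * hg

theorem idx5 (j i : Fin 5) : j = i ∨ j = i + 4 ∨ j = i + 1 ∨ j = i + 3 ∨ j = i + 2 := by
  revert j i; decide

theorem Yf_nonneg_w (j i : Fin 5) : 0 ≤ Yf j (w i) := by
  have g1 := g_lb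
  obtain ⟨a0, a1, a2, a3, a4⟩ := Yf_w i
  rcases idx5 j i with h | h | h | h | h <;> rw [h]
  · rw [a0]
  · rw [a1]
  · rw [a2]; norm_num
  · rw [a3]; norm_num
  · rw [a4]; linarith

theorem Yf_nonneg_Pst {P : ℝ × ℝ} (h : P ∈ Pst) (j : Fin 5) : 0 ≤ Yf j P := by
  have hc : Convex ℝ {P | 0 ≤ Yf j P} := by
    intro P hP Q hQ p q hp hq hpq
    have hq' : p = 1 - q := by linarith
    simp only [Set.mem_ofPred_eq] at hP hQ ⊢
    rw [hq', (aff_Yf j).comb, ← hq']
    positivity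
  have : Pst ⊆ {P | 0 ≤ Yf j P} := by
    apply convexHull_min _ hc
    rintro _ ⟨i, rfl⟩
    exact Yf_nonneg_w j i
  exact this h

theorem Conf.ident {K : Set (ℝ × ℝ)} (hK : Convex ℝ K) {v : Fin 5 → ℝ × ℝ} {x y z : Fin 5 → ℝ}
    (C : Conf K v x y z) (h0 : ∀ j, x j = 0 ∧ y j = 0) {m : ℝ}
    (hm : ∀ j, D (v (j + 4)) (v j) (v (j + 1)) = m) :
    0 < D (v 0) (v 1) (v 4) ∧ K = fr (v 0) (v 1) (v 4) '' Pst := by
  have g1 := g_lb
  have g2 := g_ub
  have hg := g_sq
  have hvK : ∀ j, v j ∈ K := by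
    intro j
    have h := C.tip j
    rw [(h0 j).1, (h0 j).2, fr_00] at h
    exact h
  obtain ⟨S, eS⟩ : ∃ S, S = D (v 0) (v 1) (v 2) + D (v 3) (v 4) (v 0) + D (v 0) (v 2) (v 3) :=
    ⟨_, rfl⟩
  have e0 : D (v 4) (v 0) (v 1) = m := hm 0
  have e1 : D (v 0) (v 1) (v 2) = m := hm 1
  have e2 : D (v 1) (v 2) (v 3) = m := hm 2
  have e3 : D (v 2) (v 3) (v 4) = m := hm 3
  have e4 : D (v 3) (v 4) (v 0) = m := hm 4
  have hm1 := C.ar 0
  rw [hm 0, abs_le] at hm1
  have hS := C.area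
  rw [← eS, abs_le] at hS
  have hG := gauss (v 0) (v 1) (v 2) (v 3) (v 4)
  rw [← eS, e0, e1, e2, e3, e4] at hG
  have hSm : S - 2 * m = (g + 1 / 2) * m := by
    have hf : (S - 5 / 2 * m - g * m) * (S - 5 / 2 * m + g * m) = 0 := by
      linear_combination hG - m ^ 2 * hg
    rcases mul_eq_zero.1 hf with h | h
    · linarith
    · exfalso
      have : 0.9 * g ≤ m * g := mul_le_mul_of_nonneg_right (by linarith) (by linarith)
      linarith
  have s2 : D (v 2) (v 4) (v 0) = S - m - m := by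
    have : D (v 2) (v 4) (v 0) = D (v 0) (v 1) (v 2) + D (v 3) (v 4) (v 0) + D (v 0) (v 2) (v 3)
      - D (v 2) (v 3) (v 4) - D (v 0) (v 1) (v 2) := by unfold D; ring
    rw [this, ← eS, e3, e1]
  have s3 : D (v 3) (v 0) (v 1) = S - m - m := by
    have : D (v 3) (v 0) (v 1) = D (v 0) (v 1) (v 2) + D (v 3) (v 4) (v 0) + D (v 0) (v 2) (v 3)
      - D (v 3) (v 4) (v 0) - D (v 1) (v 2) (v 3) := by unfold D; ring
    rw [this, ← eS, e4, e2]
  have hmp : 0 < m := by linarith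
  have hO : D (v 0) (v 1) (v 4) = m := by rw [← e0]; unfold D; ring
  have hOp : 0 < D (v 0) (v 1) (v 4) := by rw [hO]; exact hmp
  refine ⟨hOp, ?_⟩
  have hmn : m ≠ 0 := hmp.ne'
  have hvw : ∀ j, v j = fr (v 0) (v 1) (v 4) (w j) := by
    intro j
    fin_cases j
    · exact (fr_00 _ _ _).symm
    · exact (fr_10 _ _ _).symm
    · have h := fr_surj hOp.ne' (v 2)
      have i1 : D (v 0) (v 2) (v 4) = (g + 1 / 2) * m := by
        rw [← hSm]
        have : D (v 0) (v 2) (v 4) = D (v 2) (v 4) (v 0) := by unfold D; ring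
        rw [this, s2]; ring
      rw [i1, e1, hO, mul_div_cancel_right₀ _ hmn, div_self hmn] at h
      exact h.symm
    · have h := fr_surj hOp.ne' (v 3)
      have i1 : D (v 0) (v 3) (v 4) = m := by
        rw [← e4]; unfold D; ring
      have i2 : D (v 0) (v 1) (v 3) = (g + 1 / 2) * m := by
        rw [← hSm]
        have : D (v 0) (v 1) (v 3) = D (v 3) (v 0) (v 1) := by unfold D; ring
        rw [this, s3]; ring
      rw [i1, i2, hO, mul_div_cancel_right₀ _ hmn, div_self hmn] at h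
      exact h.symm
    · exact (fr_01 _ _ _).symm
  apply Set.Subset.antisymm
  · intro P hP
    refine ⟨(D (v 0) P (v 4) / D (v 0) (v 1) (v 4), D (v 0) (v 1) P / D (v 0) (v 1) (v 4)), ?_,
      fr_surj hOp.ne' P⟩
    apply mem_Pst
    intro j
    have h := C.side j P hP
    have hs := fr_surj hOp.ne' P
    rw [← hs, hvw j, hvw (j + 1), D_fr] at h
    have h' := nonneg_of_mul_nonneg_right h hOp
    exact h'
  · rintro _ ⟨P, hP, rfl⟩
    have hsub : Pst ⊆ fr (v 0) (v 1) (v 4) ⁻¹' K := by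
      apply convexHull_min _ (convex_fr hK)
      rintro _ ⟨i, rfl⟩
      simp only [Set.mem_preimage]
      rw [← hvw]; exact hvK i
    exact hsub hP

/-- **The theorem near the standard pentagon.** -/
theorem main_std {K : Set (ℝ × ℝ)} (hc : IsCompact K) (hK : Convex ℝ K) (hw : ∀ j, w j ∈ K)
    (hη : ∀ j, ∀ P ∈ K, -(1 / 10 ^ 14) ≤ Yf j P) :
    Good K ∨ ∃ O E N, 0 < D O E N ∧ K = fr O E N '' Pst := by
  obtain ⟨v, x, y, z, C⟩ := ref_conf hc hK hw (δ := 1 / 10000000) (by norm_num) le_rfl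
    (fun j P hP => by have := hη j P hP; norm_num at this ⊢; exact this)
  rcases C.comb hK with h | ⟨h0, m, hm⟩
  · exact Or.inl h
  · obtain ⟨h1, h2⟩ := C.ident hK h0 hm
    exact Or.inr ⟨_, _, _, h1, h2⟩

end Pool.Agent.HBL
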