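import Pool.Agent.HBL.T2

/-!
# The pentagon inequality near the regular pentagon
-/

namespace Pool.Agent.HBL

theorem C1_le {u0 u1 u2 u3 u4 : ℝ} (h : u4 = -(u0 + u1 + u2 + u3)) :
    u0*u1 + u1*u2 + u2*u3 + u3*u4 + u4*u0 ≤ 31/100*(u0^2 + u1^2 + u2^2 + u3^2 + u4^2) := by
  have e : 31/100*(u0^2 + u1^2 + u2^2 + u3^2 + u4^2) - (u0*u1 + u1*u2 + u2*u3 + u3*u4 + u4*u0) =
      (81/50)*(u0 + (31/162)*u1 + (1/2)*u2 + (131/162)*u3)^2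
      + (9083/16200)*(u1 + (-5589/9083)*u2 + (9061/9083)*u3)^2
      + (616/227075)*(u2 + (-69/224)*u3)^2 + (11/4480)*u3^2 := by
    subst h; ring
  have : 0 ≤ (81/50 : ℝ)*(u0 + (31/162)*u1 + (1/2)*u2 + (131/162)*u3)^2
      + (9083/16200)*(u1 + (-5589/9083)*u2 + (9061/9083)*u3)^2
      + (616/227075)*(u2 + (-69/224)*u3)^2 + (11/4480)*u3^2 := by positivity
  linarith

theorem tri {x y z : ℝ} (hx : |x| ≤ 1 / 4000) :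
    |x * y * z| ≤ 1 / 8000 * (y ^ 2 + z ^ 2) := by
  rw [abs_mul, abs_mul]
  have h1 : |y| * |z| ≤ (y ^ 2 + z ^ 2) / 2 := by
    have := sq_nonneg (|y| - |z|)
    have e1 := sq_abs y
    have e2 := sq_abs z
    nlinarith
  have h2 : 0 ≤ |y| * |z| := by positivity
  have : |x| * |y| * |z| ≤ 1 / 4000 * ((y ^ 2 + z ^ 2) / 2) := by
    rw [mul_assoc]
    exact mul_le_mul hx h1 h2 (by norm_num)
  linarith

set_option maxHeartbeats 4000000 in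
theorem Wsum_aux {m d u0 u1 u2 u3 u4 S : ℝ} (h4 : u4 = -(u0 + u1 + u2 + u3))
    (hS : S = (g + 5/2) * m - d)
    (hE : d^2 - 2*g*m*d + (u0*u1 + u1*u2 + u2*u3 + u3*u4 + u4*u0) = 0) :
    W (m+u0) (m+u1) (m+u2) (m+u3) (m+u4) S + W (m+u1) (m+u2) (m+u3) (m+u4) (m+u0) S
    + W (m+u2) (m+u3) (m+u4) (m+u0) (m+u1) S + W (m+u3) (m+u4) (m+u0) (m+u1) (m+u2) S
    + W (m+u4) (m+u0) (m+u1) (m+u2) (m+u3) S =
    m * ((5/4 - 3/2*g)*(u0^2 + u1^2 + u2^2 + u3^2 + u4^2)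
      + (3*g + 5/2)*(u0*u1 + u1*u2 + u2*u3 + u3*u4 + u4*u0)
      + 2*g*(u0*u2 + u1*u3 + u2*u4 + u3*u0 + u4*u1))
    + (5/4 + g/2)*m*d^2 - d*((g/2 - 1/4)*(u0^2 + u1^2 + u2^2 + u3^2 + u4^2)
      - g*(u0*u1 + u1*u2 + u2*u3 + u3*u4 + u4*u0))
    + 2*(1+g)*(u0*u1*u2 + u1*u2*u3 + u2*u3*u4 + u3*u4*u0 + u4*u0*u1)
    - (3/2 - g)*(u0*u2*u3 + u1*u3*u4 + u2*u4*u0 + u3*u0*u1 + u4*u1*u2)
    - (g/2 - 1/4)*((u0*u0*u0 + u1*u1*u1 + u2*u2*u2 + u3*u3*u3 + u4*u4*u4)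
      + (u2*u0*u0 + u3*u1*u1 + u4*u2*u2 + u0*u3*u3 + u1*u4*u4)
      + (u3*u0*u0 + u4*u1*u1 + u0*u2*u2 + u1*u3*u3 + u2*u4*u4)) := by
  have hg := g_sq
  subst h4 hS
  unfold W kap
  linear_combination (-(1+g)*(3/2-g)*(5*m) - (g/2 + 5/4)*m) * hE
    + (10*g^2*m^3 + 2*g^2*m*u0^2 + 2*g^2*m*u0*u1 + 2*g^2*m*u0*u2 + 2*g^2*m*u0*u3 + 2*g^2*m*u1^2 +
      2*g^2*m*u1*u2 + 2*g^2*m*u1*u3 + 2*g^2*m*u2^2 + 2*g^2*m*u2*u3 + 2*g^2*m*u3^2 + (-15)*g*m^3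
      + (-5)*g*m^2*d + (-9)*g*m*u0^2 + (-5)*g*m*u0*u1 + (-9)*g*m*u0*u2 + (-13)*g*m*u0*u3 +
      (-5)*g*m*u1^2 + (-1)*g*m*u1*u2 + (-9)*g*m*u1*u3 + (-5)*g*m*u2^2 + (-5)*g*m*u2*u3 +
      (-9)*g*m*u3^2 + (-2)*g*d*u0^2 + (-2)*g*d*u0*u1 + (-2)*g*d*u0*u2 + (-2)*g*d*u0*u3 +
      (-2)*g*d*u1^2 + (-2)*g*d*u1*u2 + (-2)*g*d*u1*u3 + (-2)*g*d*u2^2 + (-2)*g*d*u2*u3 +
      (-2)*g*d*u3^2 + 2*g*u0^2*u1 + 1*g*u0^2*u2 + 2*g*u0^2*u3 + 2*g*u0*u1^2 + 2*g*u0*u1*u2 +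
      4*g*u0*u1*u3 + 1*g*u0*u2^2 + 4*g*u0*u2*u3 + 2*g*u0*u3^2 + 1*g*u1^2*u2 + 1*g*u1^2*u3 +
      1*g*u1*u2^2 + 2*g*u1*u2*u3 + 1*g*u1*u3^2 + 2*g*u2^2*u3 + 2*g*u2*u3^2 + (-5)*m^3 + 9*m^2*d
      + 12*m*u0^2 + 3*m*u0*u1 + 12*m*u0*u2 + 21*m*u0*u3 + 3*m*u1^2 + (-6)*m*u1*u2 + 12*m*u1*u3 +
      3*m*u2^2 + 3*m*u2*u3 + 12*m*u3^2 + 4*d*u0^2 + 4*d*u0*u1 + 4*d*u0*u2 + 4*d*u0*u3 + 4*d*u1^2
      + 4*d*u1*u2 + 4*d*u1*u3 + 4*d*u2^2 + 4*d*u2*u3 + 4*d*u3^2 + (-4)*u0^2*u1 + (-2)*u0^2*u2 +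
      (-4)*u0^2*u3 + (-4)*u0*u1^2 + (-4)*u0*u1*u2 + (-8)*u0*u1*u3 + (-2)*u0*u2^2 + (-8)*u0*u2*u3
      + (-4)*u0*u3^2 + (-2)*u1^2*u2 + (-2)*u1^2*u3 + (-2)*u1*u2^2 + (-4)*u1*u2*u3 + (-2)*u1*u3^2
      + (-4)*u2^2*u3 + (-4)*u2*u3^2) * hg

theorem cT {c cb T B : ℝ} (h0 : 0 ≤ c) (h1 : c ≤ cb) (hT : |T| ≤ B) : |c * T| ≤ cb * B := by
  rw [abs_mul, abs_of_nonneg h0]
  exact mul_le_mul h1 hT (abs_nonneg _) (h0.trans h1)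

theorem Wsum_bd {m d u0 u1 u2 u3 u4 : ℝ} (h4 : u4 = -(u0 + u1 + u2 + u3))
    (hm : 0.9999 ≤ m ∧ m ≤ 1.0001) (hd : |d| ≤ 1 / 2000)
    (b0 : |u0| ≤ 1 / 4000) (b1 : |u1| ≤ 1 / 4000) (b2 : |u2| ≤ 1 / 4000)
    (b3 : |u3| ≤ 1 / 4000) (b4 : |u4| ≤ 1 / 4000)
    (hE : d^2 - 2*g*m*d + (u0*u1 + u1*u2 + u2*u3 + u3*u4 + u4*u0) = 0) :
    m * ((5/4 - 3/2*g)*(u0^2 + u1^2 + u2^2 + u3^2 + u4^2)
      + (3*g + 5/2)*(u0*u1 + u1*u2 + u2*u3 + u3*u4 + u4*u0)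
      + 2*g*(u0*u2 + u1*u3 + u2*u4 + u3*u0 + u4*u1))
    + (5/4 + g/2)*m*d^2 - d*((g/2 - 1/4)*(u0^2 + u1^2 + u2^2 + u3^2 + u4^2)
      - g*(u0*u1 + u1*u2 + u2*u3 + u3*u4 + u4*u0))
    + 2*(1+g)*(u0*u1*u2 + u1*u2*u3 + u2*u3*u4 + u3*u4*u0 + u4*u0*u1)
    - (3/2 - g)*(u0*u2*u3 + u1*u3*u4 + u2*u4*u0 + u3*u0*u1 + u4*u1*u2)
    - (g/2 - 1/4)*((u0*u0*u0 + u1*u1*u1 + u2*u2*u2 + u3*u3*u3 + u4*u4*u4)
      + (u2*u0*u0 + u3*u1*u1 + u4*u2*u2 + u0*u3*u3 + u1*u4*u4)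
      + (u3*u0*u0 + u4*u1*u1 + u0*u2*u2 + u1*u3*u3 + u2*u4*u4))
    ≤ -(1/4) * (u0^2 + u1^2 + u2^2 + u3^2 + u4^2) := by
  have g1 := g_lb
  have g2 := g_ub
  obtain ⟨hm1, hm2⟩ := hm
  obtain ⟨C0, hC0⟩ : ∃ C0, C0 = u0^2 + u1^2 + u2^2 + u3^2 + u4^2 := ⟨_, rfl⟩
  obtain ⟨C1, hC1⟩ : ∃ C1, C1 = u0*u1 + u1*u2 + u2*u3 + u3*u4 + u4*u0 := ⟨_, rfl⟩
  obtain ⟨C2, hC2⟩ : ∃ C2, C2 = u0*u2 + u1*u3 + u2*u4 + u3*u0 + u4*u1 := ⟨_, rfl⟩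
  have n0 : 0 ≤ C0 := by rw [hC0]; positivity
  have r1 : C1 ≤ 31/100 * C0 := by rw [hC0, hC1]; exact C1_le h4
  have r2 : C2 = -C0/2 - C1 := by rw [hC0, hC1, hC2, h4]; ring
  have q1 := sq_nonneg (u0 + u1)
  have q2 := sq_nonneg (u1 + u2)
  have q3 := sq_nonneg (u2 + u3)
  have q4 := sq_nonneg (u3 + u4)
  have q5 := sq_nonneg (u4 + u0)
  have r3 : -C0 ≤ C1 := by rw [hC0, hC1]; linarith
  have aC1 : |C1| ≤ C0 := abs_le.2 ⟨r3, by linarith⟩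
  have t1 := tri (y := u1) (z := u2) b0
  have t2 := tri (y := u2) (z := u3) b1
  have t3 := tri (y := u3) (z := u4) b2
  have t4 := tri (y := u4) (z := u0) b3
  have t5 := tri (y := u0) (z := u1) b4
  have TB : |u0*u1*u2 + u1*u2*u3 + u2*u3*u4 + u3*u4*u0 + u4*u0*u1| ≤ 1/4000 * C0 := by
    rw [abs_le] at *
    rw [hC0]
    constructor <;> linarith
  have s1 := tri (y := u2) (z := u3) b0
  have s2 := tri (y := u3) (z := u4) b1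
  have s3 := tri (y := u4) (z := u0) b2
  have s4 := tri (y := u0) (z := u1) b3
  have s5 := tri (y := u1) (z := u2) b4
  have TA : |u0*u2*u3 + u1*u3*u4 + u2*u4*u0 + u3*u0*u1 + u4*u1*u2| ≤ 1/4000 * C0 := by
    rw [abs_le] at *
    rw [hC0]
    constructor <;> linarith
  have w1 := tri (y := u0) (z := u0) b0
  have w2 := tri (y := u1) (z := u1) b1
  have w3 := tri (y := u2) (z := u2) b2
  have w4 := tri (y := u3) (z := u3) b3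
  have w5 := tri (y := u4) (z := u4) b4
  have T3 : |u0*u0*u0 + u1*u1*u1 + u2*u2*u2 + u3*u3*u3 + u4*u4*u4| ≤ 1/4000 * C0 := by
    rw [abs_le] at *
    rw [hC0]
    constructor <;> linarith
  have v1 := tri (y := u0) (z := u0) b2
  have v2 := tri (y := u1) (z := u1) b3
  have v3 := tri (y := u2) (z := u2) b4
  have v4 := tri (y := u3) (z := u3) b0
  have v5 := tri (y := u4) (z := u4) b1
  have T4 : |u2*u0*u0 + u3*u1*u1 + u4*u2*u2 + u0*u3*u3 + u1*u4*u4| ≤ 1/4000 * C0 := by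
    rw [abs_le] at *
    rw [hC0]
    constructor <;> linarith
  have y1 := tri (y := u0) (z := u0) b3
  have y2 := tri (y := u1) (z := u1) b4
  have y3 := tri (y := u2) (z := u2) b0
  have y4 := tri (y := u3) (z := u3) b1
  have y5 := tri (y := u4) (z := u4) b2
  have T5 : |u3*u0*u0 + u4*u1*u1 + u0*u2*u2 + u1*u3*u3 + u2*u4*u4| ≤ 1/4000 * C0 := by
    rw [abs_le] at *
    rw [hC0]
    constructor <;> linarith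
  have T6 : |(u0*u0*u0 + u1*u1*u1 + u2*u2*u2 + u3*u3*u3 + u4*u4*u4)
      + (u2*u0*u0 + u3*u1*u1 + u4*u2*u2 + u0*u3*u3 + u1*u4*u4)
      + (u3*u0*u0 + u4*u1*u1 + u0*u2*u2 + u1*u3*u3 + u2*u4*u4)| ≤ 3/4000 * C0 := by
    rw [abs_le] at T3 T4 T5 ⊢
    constructor <;> linarith
  clear t1 t2 t3 t4 t5 s1 s2 s3 s4 s5 w1 w2 w3 w4 w5 v1 v2 v3 v4 v5 y1 y2 y3 y4 y5 T3 T4 T5
    q1 q2 q3 q4 q5
  rw [← hC0, ← hC1, ← hC2]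
  rw [← hC1] at hE
  -- the bound for `d`
  have hd' := abs_le.1 hd
  have gm : 1.117 ≤ g * m := ml _ g1.le hm1 (by norm_num) (by norm_num) (by norm_num)
  have hdd : |d| ≤ C0 / 2 := by
    have e : d * (2 * (g * m) - d) = C1 := by linarith
    have h2 : 2 ≤ 2 * (g * m) - d := by linarith
    have h3 : |d| * (2 * (g * m) - d) = |C1| := by
      rw [← e, abs_mul, abs_of_nonneg (by linarith : 0 ≤ 2 * (g * m) - d)]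
    have h4' : |d| * 2 ≤ |d| * (2 * (g * m) - d) :=
      mul_le_mul_of_nonneg_left h2 (abs_nonneg _)
    linarith
  have hd2 : d ^ 2 ≤ C0 / 4000 := by
    have : |d| * |d| ≤ 1 / 2000 * (C0 / 2) := mul_le_mul hd hdd (abs_nonneg _) (by norm_num)
    have e : |d| * |d| = d ^ 2 := by rw [← sq, sq_abs]
    linarith
  have p1 : (5/4 + g/2) * m * d ^ 2 ≤ 2 * (C0 / 4000) := by
    have : (5/4 + g/2) * m ≤ 2 := mu _ (by linarith : 5/4 + g/2 ≤ 1.81) hm2 (by linarith)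
      (by linarith) (by norm_num)
    exact mul_le_mul this hd2 (sq_nonneg _) (by norm_num)
  have aD : |(g/2 - 1/4) * C0 - g * C1| ≤ 2 * C0 := by
    have h1 : |(g/2 - 1/4) * C0| ≤ 0.4 * C0 :=
      cT (by linarith) (by linarith) (by rw [abs_of_nonneg n0])
    have h2 : |g * C1| ≤ 1.2 * C0 := cT (by linarith) (by linarith) aC1
    calc _ ≤ |(g/2 - 1/4) * C0| + |g * C1| := abs_sub _ _
      _ ≤ _ := by linarith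
  have p2 : |d * ((g/2 - 1/4) * C0 - g * C1)| ≤ 1 / 2000 * (2 * C0) := by
    rw [abs_mul]
    exact mul_le_mul hd aD (abs_nonneg _) (by norm_num)
  have p3 := cT (c := 2 * (1 + g)) (cb := 5) (by linarith) (by linarith) TB
  have p4 := cT (c := 3 / 2 - g) (cb := 1) (by linarith) (by linarith) TA
  have p5 := cT (c := g/2 - 1/4) (cb := 1) (by linarith) (by linarith) T6
  have main : (5/4 - 3/2*g) * C0 + (3*g + 5/2) * C1 + 2*g*C2 ≤ -(0.42 * C0) := by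
    have e : (5/4 - 3/2*g) * C0 + (3*g + 5/2) * C1 + 2*g*C2
        = (5/4 - 5/2*g) * C0 + (g + 5/2) * C1 := by rw [r2]; ring
    rw [e]
    have h1 : (g + 5/2) * C1 ≤ (g + 5/2) * (31/100 * C0) :=
      mul_le_mul_of_nonneg_left r1 (by linarith)
    have h2 : 1.118 * C0 ≤ g * C0 := mul_le_mul_of_nonneg_right g1.le n0
    linarith
  have p6 : m * ((5/4 - 3/2*g) * C0 + (3*g + 5/2) * C1 + 2*g*C2) ≤ -(0.41 * C0) := by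
    have h1 := mul_le_mul_of_nonneg_left main (by linarith : 0 ≤ m)
    have h2 : 0.9999 * C0 ≤ m * C0 := mul_le_mul_of_nonneg_right hm1 n0
    linarith
  rw [abs_le] at p2 p3 p4 p5
  linarith

/-- The weighted pentagon inequality near the regular pentagon. -/
theorem Wsum_le {a0 a1 a2 a3 a4 S : ℝ}
    (ha0 : |a0 - 1| ≤ 1 / 10000) (ha1 : |a1 - 1| ≤ 1 / 10000) (ha2 : |a2 - 1| ≤ 1 / 10000)
    (ha3 : |a3 - 1| ≤ 1 / 10000) (ha4 : |a4 - 1| ≤ 1 / 10000)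
    (hS : |S - (5 / 2 + g)| ≤ 1 / 10000)
    (hG : S^2 - S * (a0 + a1 + a2 + a3 + a4) + (a0*a1 + a1*a2 + a2*a3 + a3*a4 + a4*a0) = 0) :
    ∃ m : ℝ, W a0 a1 a2 a3 a4 S + W a1 a2 a3 a4 a0 S + W a2 a3 a4 a0 a1 S + W a3 a4 a0 a1 a2 S
      + W a4 a0 a1 a2 a3 S ≤ -(1/4) * ((a0 - m)^2 + (a1 - m)^2 + (a2 - m)^2 + (a3 - m)^2
        + (a4 - m)^2) := by
  have hg := g_sq
  have g1 := g_lb
  have g2 := g_ub
  rw [abs_le] at ha0 ha1 ha2 ha3 ha4 hS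
  obtain ⟨m, hm⟩ : ∃ m, m = (a0 + a1 + a2 + a3 + a4) / 5 := ⟨_, rfl⟩
  refine ⟨m, ?_⟩
  have h4 : a4 - m = -((a0 - m) + (a1 - m) + (a2 - m) + (a3 - m)) := by rw [hm]; ring
  obtain ⟨d, hd⟩ : ∃ d, d = (g + 5/2) * m - S := ⟨_, rfl⟩
  have hE : d^2 - 2*g*m*d + ((a0 - m)*(a1 - m) + (a1 - m)*(a2 - m) + (a2 - m)*(a3 - m)
      + (a3 - m)*(a4 - m) + (a4 - m)*(a0 - m)) = 0 := by
    rw [hd, hm]
    linear_combination hG + (-((a0 + a1 + a2 + a3 + a4) / 5)^2) * hg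
  have e := Wsum_aux (m := m) (d := d) (S := S) h4 (by rw [hd]; ring) hE
  have c : ∀ x : ℝ, m + (x - m) = x := fun x => by ring
  rw [c, c, c, c, c] at e
  rw [e]
  have m1 : -(1/10000) ≤ m - 1 := by rw [hm]; linarith
  have m2 : m - 1 ≤ 1/10000 := by rw [hm]; linarith
  have hdb : |d| ≤ 1 / 2000 := by
    rw [abs_le]
    have h1 : |(g + 5/2) * (m - 1)| ≤ 3.62 * (1/10000) :=
      cT (by linarith) (by linarith) (abs_le.2 ⟨m1, m2⟩)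
    rw [abs_le] at h1
    have e1 : d = (g + 5/2) * (m - 1) + (5/2 + g - S) := by rw [hd]; ring
    rw [e1]
    constructor <;> linarith
  exact Wsum_bd h4 ⟨by linarith, by linarith⟩ hdb (abs_le.2 ⟨by linarith, by linarith⟩)
    (abs_le.2 ⟨by linarith, by linarith⟩) (abs_le.2 ⟨by linarith, by linarith⟩)
    (abs_le.2 ⟨by linarith, by linarith⟩) (abs_le.2 ⟨by linarith, by linarith⟩) hE

end Pool.Agent.HBL
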