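import Pool.Agent.HBL.Sand

/-!
# The standard pentagon is at distance at least `1 + √5/2` from every triangle
-/

namespace Pool.Agent.HBL

/-- `p` lies in the homothetic copy `r (conv {A, B, C}) + t`. -/
def Cov (r : ℝ) (t A B C p : ℝ × ℝ) : Prop :=
  ∃ u1 u2 u3 : ℝ, 0 ≤ u1 ∧ 0 ≤ u2 ∧ 0 ≤ u3 ∧ u1 + u2 + u3 = 1 ∧
    p = r • (u1 • A + u2 • B + u3 • C) + t

theorem cover_ineq {A B C p1 p2 p3 t : ℝ × ℝ} {r : ℝ} (hr : 0 ≤ r) (hd : 0 ≤ D A B C)
    (h1 : Cov r t A B C p1) (h2 : Cov r t A B C p2) (h3 : Cov r t A B C p3) :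
    -D p1 B C - D A p2 C - D A B p3 ≤ (r - 1) * D A B C := by
  obtain ⟨u1, u2, u3, a1, a2, a3, a4, rfl⟩ := h1
  obtain ⟨v1, v2, v3, b1, b2, b3, b4, rfl⟩ := h2
  obtain ⟨w1, w2, w3, c1, c2, c3, c4, rfl⟩ := h3
  have hu : u1 = 1 - u2 - u3 := by linarith
  have hv : v2 = 1 - v1 - v3 := by linarith
  have hw : w3 = 1 - w1 - w2 := by linarith
  have e : D (r • (u1 • A + u2 • B + u3 • C) + t) B C + D A (r • (v1 • A + v2 • B + v3 • C) + t) C
      + D A B (r • (w1 • A + w2 • B + w3 • C) + t)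
      = r * (u1 + v2 + w3) * D A B C - (r - 1) * D A B C := by
    rw [hu, hv, hw]
    simp only [D, Prod.fst_add, Prod.smul_fst, Prod.snd_add, Prod.smul_snd, smul_eq_mul]
    ring
  have : 0 ≤ r * (u1 + v2 + w3) * D A B C := by positivity
  linarith

theorem D_Fr (m : Fin 5) (P Q R : ℝ × ℝ) : D (Fr m P) (Fr m Q) (Fr m R) = D P Q R := by
  unfold Fr
  rw [D_fr, w_area, one_mul]

theorem w_Fr (m : Fin 5) : w m = Fr m (0, 0) ∧ w (m + 1) = Fr m (1, 0) ∧
    w (m + 4) = Fr m (0, 1) ∧ w (m + 2) = Fr m (g + 1 / 2, 1) ∧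
    w (m + 3) = Fr m (1, g + 1 / 2) := by
  refine ⟨(fr_00 _ _ _).symm, (fr_10 _ _ _).symm, (fr_01 _ _ _).symm, ?_, ?_⟩
  · have h := Fr_inv m (w (m + 2))
    have h1 : Yf m (w (m + 2)) = 1 := by
      have := (Yf_w (m + 2)).2.2.2.1
      rwa [i23] at this
    have h2 : Yf (m + 4) (w (m + 2)) = g + 1 / 2 := by
      have := (Yf_w (m + 2)).2.2.2.2
      have e : m + 2 + 2 = m + 4 := by
        clear * - 
        revert m; decide
      rwa [e] at this
    rw [h1, h2] at h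
    exact h.symm
  · have h := Fr_inv m (w (m + 3))
    have h1 : Yf m (w (m + 3)) = g + 1 / 2 := by
      have := (Yf_w (m + 3)).2.2.2.2
      rwa [i32] at this
    have h2 : Yf (m + 4) (w (m + 3)) = 1 := by
      have := (Yf_w (m + 3)).2.2.1
      rwa [i31] at this
    rw [h1, h2] at h
    exact h.symm

/-- The quadratic inequality behind the lower bound. -/
theorem quad (m : ℝ) : m + (1 + g) * (g + 1 / 2) - (1 + g) * (g - 1 / 2) * m ^ 2 ≤ g + 5 / 2 := by
  have hg := g_sq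
  have g1 := g_lb
  have e : g + 5 / 2 - (m + (1 + g) * (g + 1 / 2) - (1 + g) * (g - 1 / 2) * m ^ 2)
      = (1 + g) * (g - 1 / 2) * (m - (3 / 2 - g)) ^ 2 := by
    linear_combination (m * (2 - 2 * g) - g ^ 2 + 5 / 2 * g - 5 / 2) * hg
  have : 0 ≤ (1 + g) * (g - 1 / 2) * (m - (3 / 2 - g)) ^ 2 := by
    have : 0 ≤ 1 + g := by linarith
    have : 0 ≤ g - 1 / 2 := by linarith
    positivity
  linarith

/-- Three vertices on three sides. -/
theorem caseA {s u p r d : ℝ} (hs0 : 0 ≤ s) (hs1 : s ≤ 1) (hu0 : 0 ≤ u) (hp0 : 0 ≤ p)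
    (hp1 : p ≤ 1)
    (hd : d = (g + 1 / 2) - (g + 1 / 2) * u - (g - 1 / 2) * s + u * (1 - p) + (g - 1 / 2) * (u * s)
      + (g - 1 / 2) * (s * (1 - p)))
    (h1 : g + 5 / 2 - s - (1 - s) ≤ r * d) (h2 : g + 5 / 2 - s - u ≤ r * d)
    (h3 : g + 5 / 2 - p - (1 - s) ≤ r * d) (h4 : g + 5 / 2 - p - u ≤ r * d) :
    (1 + g) * d ≤ r * d := by
  have hg := g_sq
  have g1 := g_lb
  have g2 := g_ub
  -- it is enough to bound `(1+g) d + min s p + min (1-s) u`
  suffices h : ∃ m1 m2, (m1 = s ∨ m1 = p) ∧ (m2 = 1 - s ∨ m2 = u) ∧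
      (1 + g) * d + m1 + m2 ≤ g + 5 / 2 by
    obtain ⟨m1, m2, e1, e2, h⟩ := h
    rcases e1 with rfl | rfl <;> rcases e2 with rfl | rfl <;> linarith
  obtain ⟨m1, hm1, hm1s, hm1p⟩ : ∃ m1, (m1 = s ∨ m1 = p) ∧ m1 ≤ s ∧ m1 ≤ p := by
    rcases le_total s p with h | h
    · exact ⟨s, Or.inl rfl, le_rfl, h⟩
    · exact ⟨p, Or.inr rfl, h, le_rfl⟩
  have hm0 : 0 ≤ m1 := by rcases hm1 with rfl | rfl <;> assumption
  -- the value at `u = 0`
  have v0 : (1 + g) * ((g + 1 / 2) - (g - 1 / 2) * (s * p)) + m1 ≤ g + 5 / 2 := by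
    have hq := quad m1
    have h5 : m1 ^ 2 ≤ s * p := by
      rw [sq]; exact mul_le_mul hm1s hm1p hm0 hs0
    have h6 : 0 ≤ (1 + g) * (g - 1 / 2) := by
      apply mul_nonneg <;> linarith
    have h7 := mul_le_mul_of_nonneg_left h5 h6
    linarith
  -- the value at `u = 1 - s`
  have v1 : (1 + g) * (s + (1 - s) * (1 - p) + (g - 1 / 2) * s * ((1 - s) + (1 - p)))
      + m1 + (1 - s) ≤ g + 5 / 2 := by
    have hq := quad (1 - s)
    -- monotone in `1 - p`, using `m1 ≤ p`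
    have h5 : 0 ≤ p * ((1 + g) * ((1 - s) + (g - 1 / 2) * s) - 1) := by
      apply mul_nonneg hp0
      have : (g - 1 / 2) ≤ (1 - s) + (g - 1 / 2) * s := by
        have : 0 ≤ (1 - s) * (1 - (g - 1 / 2)) := mul_nonneg (by linarith) (by linarith)
        linarith
      have h6 : (1 + g) * (g - 1 / 2) ≤ (1 + g) * ((1 - s) + (g - 1 / 2) * s) :=
        mul_le_mul_of_nonneg_left this (by linarith)
      have h7 : 1 ≤ (1 + g) * (g - 1 / 2) := by nlinarith
      linarith
    have e : (1 + g) * (s + (1 - s) * (1 - p) + (g - 1 / 2) * s * ((1 - s) + (1 - p)))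
      + p + (1 - s) = ((1 - s) + (1 + g) * (g + 1 / 2) - (1 + g) * (g - 1 / 2) * (1 - s) ^ 2)
        - p * ((1 + g) * ((1 - s) + (g - 1 / 2) * s) - 1) := by ring
    linarith
  rcases le_total u (1 - s) with h | h
  · refine ⟨m1, u, hm1, Or.inr rfl, ?_⟩
    -- convex combination of the two values
    rcases eq_or_lt_of_le hs1 with h0 | h0
    · have hu' : u = 0 := by linarith
      have : d = (g + 1 / 2) - (g - 1 / 2) * (s * p) := by rw [hd, hu']; ring
      rw [this, hu']; linarith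
    · have hq : 0 < 1 - s := by linarith
      have e : (1 - s) * ((1 + g) * d + m1 + u) =
          (1 - s - u) * ((1 + g) * ((g + 1 / 2) - (g - 1 / 2) * (s * p)) + m1)
          + u * ((1 + g) * (s + (1 - s) * (1 - p) + (g - 1 / 2) * s * ((1 - s) + (1 - p)))
            + m1 + (1 - s)) := by
        rw [hd]; ring
      have h5 := mul_le_mul_of_nonneg_left v0 (by linarith : 0 ≤ 1 - s - u)
      have h6 := mul_le_mul_of_nonneg_left v1 hu0
      have h7 : (1 - s) * ((1 + g) * d + m1 + u) ≤ (1 - s) * (g + 5 / 2) := by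
        rw [e]; linarith
      exact le_of_mul_le_mul_left h7 hq
  · refine ⟨m1, 1 - s, hm1, Or.inl rfl, ?_⟩
    have e : d = (s + (1 - s) * (1 - p) + (g - 1 / 2) * s * ((1 - s) + (1 - p)))
        - (u - (1 - s)) * (p + (g - 1 / 2) * (1 - s)) := by
      rw [hd]; ring
    have h5 : 0 ≤ (u - (1 - s)) * (p + (g - 1 / 2) * (1 - s)) := by
      apply mul_nonneg (by linarith)
      have : 0 ≤ (g - 1 / 2) * (1 - s) := mul_nonneg (by linarith) (by linarith)
      linarith
    have h6 : (1 + g) * d ≤ (1 + g) * (s + (1 - s) * (1 - p)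
        + (g - 1 / 2) * s * ((1 - s) + (1 - p))) :=
      mul_le_mul_of_nonneg_left (by linarith) (by linarith)
    linarith

/-- Coordinates of a point on the side `m + 1`. -/
theorem coordA {m : Fin 5} {A : ℝ × ℝ} (hA : A ∈ Pst) (sA : Yf (m + 1) A = 0) :
    ∃ s : ℝ, 0 ≤ s ∧ s ≤ 1 ∧ A = Fr m (1 + (g - 1 / 2) * s, s) := by
  have hg := g_sq
  have h := Fr_inv m A
  have h1 := Yf_succ m A
  have h2 := Yf_two m A
  have h3 := Yf_nonneg_Pst hA (m + 2)
  have h4 := Yf_nonneg_Pst hA m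
  rw [sA] at h1
  have e : Yf (m + 4) A = 1 + (g - 1 / 2) * Yf m A := by linarith
  rw [e] at h h2
  refine ⟨Yf m A, h4, ?_, h.symm⟩
  have e2 : Yf (m + 2) A = 1 - Yf m A := by rw [h2]; linear_combination (-Yf m A) * hg
  linarith

set_option maxHeartbeats 4000000 in
theorem lowA {m : Fin 5} {A B C : ℝ × ℝ} (hA : A ∈ Pst) (hB : B ∈ Pst) (hC : C ∈ Pst)
    (sA : Yf (m + 1) A = 0) (sB : Yf (m + 3) B = 0) (sC : Yf (m + 4) C = 0) {r : ℝ} {t : ℝ × ℝ}
    (hr : 0 ≤ r) (cov : ∀ P ∈ Pst, Cov r t A B C P) (hne : D A B C ≠ 0) : 1 + g ≤ r := by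
  have hg := g_sq
  have g1 := g_lb
  have g2 := g_ub
  have hwP : ∀ j, w j ∈ Pst := fun j => subset_convexHull ℝ _ ⟨j, rfl⟩
  obtain ⟨w0, w1, w4, w2, w3⟩ := w_Fr m
  obtain ⟨s, hs0, hs1, eA⟩ := coordA hA sA
  -- coordinates of `B`
  obtain ⟨u, hu0, hu1, eB⟩ : ∃ u : ℝ, 0 ≤ u ∧ u ≤ 1 ∧
      B = Fr m (1 - u, 1 + (g - 1 / 2) * (1 - u)) := by
    have h := Fr_inv m B
    have h1 := Yf_three m B
    have h2 := Yf_two m B
    have h3 := Yf_nonneg_Pst hB (m + 2)
    have h4 := Yf_nonneg_Pst hB (m + 4)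
    rw [sB] at h1
    have e : Yf m B = 1 + (g - 1 / 2) * Yf (m + 4) B := by linarith
    rw [e] at h h2
    refine ⟨1 - Yf (m + 4) B, ?_, by linarith, ?_⟩
    · have e2 : Yf (m + 2) B = 1 - Yf (m + 4) B := by
        rw [h2]; linear_combination (-Yf (m + 4) B) * hg
      linarith
    · rw [sub_sub_cancel]; exact h.symm
  -- coordinates of `C`
  obtain ⟨p, hp0, hp1, eC⟩ : ∃ p : ℝ, 0 ≤ p ∧ p ≤ 1 ∧ C = Fr m (0, p) := by
    have h := Fr_inv m C
    have h1 := Yf_three m C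
    have h3 := Yf_nonneg_Pst hC (m + 3)
    have h4 := Yf_nonneg_Pst hC m
    rw [sC] at h h1
    exact ⟨Yf m C, h4, by linarith, h.symm⟩
  have hd : D A B C = (g + 1 / 2) - (g + 1 / 2) * u - (g - 1 / 2) * s + u * (1 - p)
      + (g - 1 / 2) * (u * s) + (g - 1 / 2) * (s * (1 - p)) := by
    rw [eA, eB, eC, D_Fr]; unfold D; simp only
    linear_combination (-(s * u) + s) * hg
  have hd0 : 0 ≤ D A B C := by
    have e : D A B C = (1 - u) * ((g + 1 / 2) - (g - 1 / 2) * s) + (1 - p) * (u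
        + (g - 1 / 2) * s) := by rw [hd]; ring
    rw [e]
    have h1 : 0 ≤ (g - 1 / 2) * s := mul_nonneg (by linarith) hs0
    have h2 : (g - 1 / 2) * s ≤ (g - 1 / 2) * 1 := mul_le_mul_of_nonneg_left hs1 (by linarith)
    apply add_nonneg <;> apply mul_nonneg <;> linarith
  have hdp : 0 < D A B C := lt_of_le_of_ne hd0 (Ne.symm hne)
  have key := caseA (r := r) hs0 hs1 hu0 hp0 hp1 hd
    (by
      have h := cover_ineq hr hd0 (cov _ (hwP (m + 4))) (cov _ (hwP m)) (cov _ (hwP (m + 3)))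
      have e : -D (w (m + 4)) B C - D A (w m) C - D A B (w (m + 3)) + D A B C
          = g + 5 / 2 - s - (1 - s) := by
        rw [w4, w0, w3, eA, eB, eC, D_Fr, D_Fr, D_Fr, D_Fr]; unfold D; simp only
        linear_combination s * hg
      linarith)
    (by
      have h := cover_ineq hr hd0 (cov _ (hwP (m + 4))) (cov _ (hwP m)) (cov _ (hwP (m + 2)))
      have e : -D (w (m + 4)) B C - D A (w m) C - D A B (w (m + 2)) + D A B C
          = g + 5 / 2 - s - u := by
        rw [w4, w0, w2, eA, eB, eC, D_Fr, D_Fr, D_Fr, D_Fr]; unfold D; simp only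
        linear_combination (-u + 1) * hg
      linarith)
    (by
      have h := cover_ineq hr hd0 (cov _ (hwP (m + 4))) (cov _ (hwP (m + 1)))
        (cov _ (hwP (m + 3)))
      have e : -D (w (m + 4)) B C - D A (w (m + 1)) C - D A B (w (m + 3)) + D A B C
          = g + 5 / 2 - p - (1 - s) := by
        rw [w4, w1, w3, eA, eB, eC, D_Fr, D_Fr, D_Fr, D_Fr]; unfold D; simp only
        linear_combination s * hg
      linarith)
    (by
      have h := cover_ineq hr hd0 (cov _ (hwP (m + 4))) (cov _ (hwP (m + 1)))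
        (cov _ (hwP (m + 2)))
      have e : -D (w (m + 4)) B C - D A (w (m + 1)) C - D A B (w (m + 2)) + D A B C
          = g + 5 / 2 - p - u := by
        rw [w4, w1, w2, eA, eB, eC, D_Fr, D_Fr, D_Fr, D_Fr]; unfold D; simp only
        linear_combination (-u + 1) * hg
      linarith)
  exact le_of_mul_le_mul_right key hdp

theorem Pst_max {f : ℝ × ℝ → ℝ} (hf : Aff f) {c : ℝ} (m : Fin 5) (h0 : f (w m) ≤ c)
    (h1 : f (w (m + 1)) ≤ c) (h2 : f (w (m + 2)) ≤ c) (h3 : f (w (m + 3)) ≤ c)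
    (h4 : f (w (m + 4)) ≤ c) : ∀ E ∈ Pst, f E ≤ c := by
  have hc : Convex ℝ {P | f P ≤ c} := by
    intro P hP Q hQ p q hp hq hpq
    have hq' : p = 1 - q := by linarith
    simp only [Set.mem_ofPred_eq] at hP hQ ⊢
    rw [hq', hf.comb, ← hq']
    have e1 := mul_le_mul_of_nonneg_left hP hp
    have e2 := mul_le_mul_of_nonneg_left hQ hq
    have e3 : p * c + q * c = c := by rw [← add_mul, hpq, one_mul]
    linarith
  have : Pst ⊆ {P | f P ≤ c} := by
    apply convexHull_min _ hc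
    rintro _ ⟨i, rfl⟩
    rcases idx5 i m with h | h | h | h | h <;> rw [h] <;> assumption
  exact this

set_option maxHeartbeats 4000000 in
theorem lowB {m : Fin 5} {A E : ℝ × ℝ} (hA : A ∈ Pst) (hE : E ∈ Pst)
    (sA : Yf (m + 1) A = 0) {r : ℝ} {t : ℝ × ℝ}
    (hr : 0 ≤ r) (cov : ∀ P ∈ Pst, Cov r t A E (w (m + 4)) P)
    (hne : D A E (w (m + 4)) ≠ 0) : 1 + g ≤ r := by
  have hg := g_sq
  have g1 := g_lb
  have g2 := g_ub
  have hwP : ∀ j, w j ∈ Pst := fun j => subset_convexHull ℝ _ ⟨j, rfl⟩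
  obtain ⟨w0, w1, w4, w2, w3⟩ := w_Fr m
  obtain ⟨s, hs0, hs1, eA⟩ := coordA hA sA
  have hgs0 : 0 ≤ g * s := mul_nonneg (by linarith) hs0
  have hgs1 : g * s ≤ g := by
    have := mul_le_mul_of_nonneg_left hs1 (by linarith : 0 ≤ g); linarith
  have eE := (Fr_inv m E).symm
  have aE : Aff fun P => D A P (w (m + 4)) := by
    have := aff_D (w (m + 4)) A
    obtain ⟨a, b, c, H⟩ := this
    refine ⟨a, b, c, fun P => ?_⟩
    rw [← H]; unfold D; ring
  rcases lt_or_gt_of_ne hne with hlt | hgt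
  · -- `E` below: triangle `A, w4, E`
    have e0 : D A (w (m + 4)) E = -D A E (w (m + 4)) := by unfold D; ring
    have hd : 0 < D A (w (m + 4)) E := by rw [e0]; linarith
    have cov' : ∀ P ∈ Pst, Cov r t A (w (m + 4)) E P := by
      intro P hP
      obtain ⟨u1, u2, u3, a1, a2, a3, a4, he⟩ := cov P hP
      refine ⟨u1, u3, u2, a1, a3, a2, by linarith, ?_⟩
      rw [he]; congr 2; abel
    have h := cover_ineq hr hd.le (cov' _ (hwP m)) (cov' _ (hwP (m + 1))) (cov' _ (hwP (m + 3)))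
    have e : -D (w m) (w (m + 4)) E - D A (w (m + 1)) E - D A (w (m + 4)) (w (m + 3))
        + D A (w (m + 4)) E = g + 5 / 2 - (1 - s) - Yf m E := by
      rw [w4, w0, w3, w1, eA, D_Fr, eE, D_Fr, D_Fr, D_Fr, ← eE]; unfold D; simp only
      linear_combination s * hg
    have hb : (1 + g) * D A (w (m + 4)) E + (1 - s) + Yf m E ≤ g + 5 / 2 := by
      have hf : Aff fun P => (-(1 + g)) * D A P (w (m + 4)) + Yf m P + (1 - s) :=
        ((aE.smul _).add (aff_Yf m)).add (aff_const _)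
      have := Pst_max hf (c := g + 5 / 2) m ?_ ?_ ?_ ?_ ?_ E hE
      · rw [e0]; linarith
      · have i1 : D A (w m) (w (m + 4)) = -(1 + (g - 1 / 2) * s) := by
          rw [w4, w0, eA, D_Fr]; unfold D; simp only; ring
        have i2 : Yf m (w m) = 0 := (Yf_w m).1
        simp only [i1, i2]
        nlinarith
      · have i1 : D A (w (m + 1)) (w (m + 4)) = -(s * (g + 1 / 2)) := by
          rw [w4, w1, eA, D_Fr]; unfold D; simp only; ring
        have i2 : Yf m (w (m + 1)) = 0 := by rw [w1, Fr_Y]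
        simp only [i1, i2]
        nlinarith
      · have i1 : D A (w (m + 2)) (w (m + 4)) = (1 - s) * (g + 1 / 2) := by
          rw [w4, w2, eA, D_Fr]; unfold D; simp only; ring
        have i2 : Yf m (w (m + 2)) = 1 := by rw [w2, Fr_Y]
        simp only [i1, i2]
        nlinarith [mul_nonneg (by linarith : 0 ≤ 1 - s) (by linarith : 0 ≤ g + 1 / 2),
          mul_nonneg (by linarith : 0 ≤ 1 + g)
            (mul_nonneg (by linarith : 0 ≤ 1 - s) (by linarith : 0 ≤ g + 1 / 2))]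
      · have i1 : D A (w (m + 3)) (w (m + 4)) = (1 - s) + (g - 1 / 2) * (1 + (g - 1 / 2) * s) := by
          rw [w4, w3, eA, D_Fr]; unfold D; simp only; ring
        have i2 : Yf m (w (m + 3)) = g + 1 / 2 := by rw [w3, Fr_Y]
        simp only [i1, i2]
        have j1 : 0 ≤ (1 - s) + (g - 1 / 2) * (1 + (g - 1 / 2) * s) := by
          have : 0 ≤ (g - 1 / 2) * s := mul_nonneg (by linarith) hs0
          have : 0 ≤ (g - 1 / 2) * (1 + (g - 1 / 2) * s) := mul_nonneg (by linarith) (by linarith)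
          linarith
        have j2 := mul_nonneg (by linarith : 0 ≤ 1 + g) j1
        linarith
      · have i1 : D A (w (m + 4)) (w (m + 4)) = 0 := by unfold D; ring
        have i2 : Yf m (w (m + 4)) = 1 := by rw [w4, Fr_Y]
        simp only [i1, i2]
        linarith
    have h5 : (1 + g) * D A (w (m + 4)) E ≤ r * D A (w (m + 4)) E := by linarith
    exact le_of_mul_le_mul_right h5 hd
  · -- `E` above: triangle `A, E, w4`
    have h := cover_ineq hr hgt.le (cov _ (hwP (m + 3))) (cov _ (hwP m)) (cov _ (hwP (m + 2)))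
    have e : -D (w (m + 3)) E (w (m + 4)) - D A (w m) (w (m + 4)) - D A E (w (m + 2))
        + D A E (w (m + 4)) = g + 5 / 2 - s - Yf (m + 2) E := by
      rw [Yf_two, w4, w0, w3, w2, eA, D_Fr, eE, D_Fr, D_Fr, D_Fr, ← eE]; unfold D; simp only
      ring
    have hb : (1 + g) * D A E (w (m + 4)) + s + Yf (m + 2) E ≤ g + 5 / 2 := by
      have hf : Aff fun P => (1 + g) * D A P (w (m + 4)) + Yf (m + 2) P + s :=
        ((aE.smul _).add (aff_Yf (m + 2))).add (aff_const _)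
      have := Pst_max hf (c := g + 5 / 2) m ?_ ?_ ?_ ?_ ?_ E hE
      · linarith
      · have i1 : D A (w m) (w (m + 4)) = -(1 + (g - 1 / 2) * s) := by
          rw [w4, w0, eA, D_Fr]; unfold D; simp only; ring
        have i2 : Yf (m + 2) (w m) = g + 1 / 2 := (Yf_w m).2.2.2.2
        simp only [i1, i2]
        nlinarith
      · have i1 : D A (w (m + 1)) (w (m + 4)) = -(s * (g + 1 / 2)) := by
          rw [w4, w1, eA, D_Fr]; unfold D; simp only; ring
        have i2 : Yf (m + 2) (w (m + 1)) = 1 := by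
          rw [Yf_two, w1, Fr_Y, Fr_X]; simp only; ring
        simp only [i1, i2]
        nlinarith
      · have i1 : D A (w (m + 2)) (w (m + 4)) = (1 - s) * (g + 1 / 2) := by
          rw [w4, w2, eA, D_Fr]; unfold D; simp only; ring
        have i2 : Yf (m + 2) (w (m + 2)) = 0 := (Yf_w (m + 2)).1
        simp only [i1, i2]
        nlinarith
      · have i1 : D A (w (m + 3)) (w (m + 4)) = (1 - s) + (g - 1 / 2) * (1 + (g - 1 / 2) * s) := by
          rw [w4, w3, eA, D_Fr]; unfold D; simp only; ring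
        have i2 : Yf (m + 2) (w (m + 3)) = 0 := by
          rw [Yf_two, w3, Fr_Y, Fr_X]; simp only; linear_combination (-1 : ℝ) * hg
        simp only [i1, i2]
        have j : g + 5 / 2 - ((1 + g) * ((1 - s) + (g - 1 / 2) * (1 + (g - 1 / 2) * s)) + 0 + s)
            = (1 / 2) * (g * s) + (-1 / 2) * g + (-1 / 4) * s + 3 / 4 := by
          linear_combination (-(g * s) - 1 + s - s) * hg
        have j2 : 1.118 * s ≤ g * s := mul_le_mul_of_nonneg_right g1.le hs0
        linarith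
      · have i1 : D A (w (m + 4)) (w (m + 4)) = 0 := by unfold D; ring
        have i2 : Yf (m + 2) (w (m + 4)) = 1 := by
          rw [Yf_two, w4, Fr_Y, Fr_X]; simp only; ring
        simp only [i1, i2]
        linarith
    have h5 : (1 + g) * D A E (w (m + 4)) ≤ r * D A E (w (m + 4)) := by linarith
    exact le_of_mul_le_mul_right h5 hgt

end Pool.Agent.HBL
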