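import Pool.Agent.HBL.Low

/-!
# The lower bound for an arbitrary triangle
-/

namespace Pool.Agent.HBL

theorem low_contact {V : Fin 3 → ℝ × ℝ} (hV : ∀ i, V i ∈ Pst) {r : ℝ} {t : ℝ × ℝ} (hr : 0 ≤ r)
    (cov : ∀ P ∈ Pst, ∃ u : Fin 3 → ℝ, (∀ i, 0 ≤ u i) ∧ u 0 + u 1 + u 2 = 1 ∧
      P = r • (u 0 • V 0 + u 1 • V 1 + u 2 • V 2) + t)
    (hne : D (V 0) (V 1) (V 2) ≠ 0) {m : Fin 5} {i1 i2 i3 : Fin 3}
    (c1 : Yf (m + 1) (V i1) = 0) (c2 : Yf (m + 3) (V i2) = 0) (c3 : Yf (m + 4) (V i3) = 0) :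
    1 + g ≤ r := by
  have hg := g_sq
  have g1 := g_lb
  have g2 := g_ub
  have perm : ∀ a b c : Fin 3, a ≠ b → a ≠ c → b ≠ c →
      (∀ P ∈ Pst, Cov r t (V a) (V b) (V c) P) ∧ D (V a) (V b) (V c) ≠ 0 := by
    intro a b c h1 h2 h3
    constructor
    · intro P hP
      obtain ⟨u, u0, u1, he⟩ := cov P hP
      refine ⟨u a, u b, u c, u0 a, u0 b, u0 c, ?_, ?_⟩
      · rw [← u1]
        fin_cases a <;> fin_cases b <;> fin_cases c <;>
          first
          | exact absurd rfl h1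
          | exact absurd rfl h2
          | exact absurd rfl h3
          | (simp only [Fin.zero_eta, Fin.mk_one, Fin.reduceFinMk, Fin.isValue] <;> ring)
      · rw [he]
        congr 2
        fin_cases a <;> fin_cases b <;> fin_cases c <;>
          first
          | exact absurd rfl h1
          | exact absurd rfl h2
          | exact absurd rfl h3
          | (simp only [Fin.zero_eta, Fin.mk_one, Fin.reduceFinMk, Fin.isValue] <;> abel)
    · intro h0
      apply hne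
      fin_cases a <;> fin_cases b <;> fin_cases c <;>
        first
        | exact absurd rfl h1
        | exact absurd rfl h2
        | exact absurd rfl h3
        | (simp only [Fin.zero_eta, Fin.mk_one, Fin.reduceFinMk, Fin.isValue, D] at h0 ⊢; linarith)
  have n12 : i1 ≠ i2 := by
    rintro rfl
    obtain ⟨s, hs0, hs1, eA⟩ := coordA (hV i1) c1
    have h := Yf_three m (V i1)
    rw [c2, eA, Fr_X, Fr_Y] at h
    simp only at h
    have : (g - 1 / 2) * s ≤ (g - 1 / 2) * 1 := mul_le_mul_of_nonneg_left hs1 (by linarith)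
    nlinarith
  have n13 : i1 ≠ i3 := by
    rintro rfl
    obtain ⟨s, hs0, hs1, eA⟩ := coordA (hV i1) c1
    rw [eA, Fr_X] at c3
    simp only at c3
    have : 0 ≤ (g - 1 / 2) * s := mul_nonneg (by linarith) hs0
    linarith
  by_cases n23 : i2 = i3
  · subst n23
    have e : V i2 = w (m + 4) := by
      have h := Fr_inv m (V i2)
      have h1 := Yf_three m (V i2)
      rw [c3] at h h1
      rw [c2] at h1
      have h2 : Yf m (V i2) = 1 := by linarith
      rw [h2] at h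
      rw [← h]; exact (w_Fr m).2.2.1.symm
    obtain ⟨k, hk1, hk2⟩ : ∃ k : Fin 3, k ≠ i1 ∧ k ≠ i2 := by
      clear * - n12
      revert i1 i2
      decide
    obtain ⟨p1, p2⟩ := perm i1 k i2 hk1.symm n12 hk2
    rw [e] at p1 p2
    exact lowB (hV i1) (hV k) c1 hr p1 p2
  · obtain ⟨p1, p2⟩ := perm i1 i2 i3 n12 n13 n23
    exact lowA (hV i1) (hV i2) (hV i3) c1 c2 c3 hr p1 p2

theorem Yrel (k : Fin 5) (P : ℝ × ℝ) :
    (g + 1 / 2) * Yf k P + Yf (k + 2) P + Yf (k + 3) P = g + 3 / 2 := by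
  rw [Yf_two, Yf_three]; ring

theorem i22 (j : Fin 5) : j + 2 + 2 = j + 4 := by revert j; decide
theorem i33 (j : Fin 5) : j + 3 + 3 = j + 1 := by revert j; decide
theorem idx5' (i j : Fin 5) : i = j ∨ i = j + 1 ∨ i = j + 2 ∨ i = j + 3 ∨ i = j + 4 := by
  revert i j; decide

set_option maxHeartbeats 4000000 in
theorem low_std {V : Fin 3 → ℝ × ℝ} (hV : ∀ i, V i ∈ Pst) {r : ℝ} {t : ℝ × ℝ} (hr : 0 ≤ r)
    (cov : ∀ P ∈ Pst, ∃ u : Fin 3 → ℝ, (∀ i, 0 ≤ u i) ∧ u 0 + u 1 + u 2 = 1 ∧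
      P = r • (u 0 • V 0 + u 1 • V 1 + u 2 • V 2) + t)
    (hne : D (V 0) (V 1) (V 2) ≠ 0) : 1 + g ≤ r := by
  have hg := g_sq
  have g1 := g_lb
  have g2 := g_ub
  choose ι hι using fun k : Fin 5 => Finite.exists_min (fun i : Fin 3 => Yf k (V i))
  obtain ⟨y, hy⟩ : ∃ y : Fin 5 → ℝ, ∀ k, y k = Yf k (V (ι k)) := ⟨_, fun k => rfl⟩
  have hy0 : ∀ k, 0 ≤ y k := fun k => by rw [hy]; exact Yf_nonneg_Pst (hV _) k
  have hyle : ∀ k i, y k ≤ Yf k (V i) := fun k i => by rw [hy]; exact hι k i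
  obtain ⟨a, ha⟩ : ∃ a : Fin 5 → ℝ, ∀ k, a k = (g + 1 / 2) * y k + y (k + 2) + y (k + 3) :=
    ⟨_, fun k => rfl⟩
  obtain ⟨j, hj⟩ := Finite.exists_min a
  have haj0 : 0 ≤ a j := by
    rw [ha]
    have := hy0 j; have := hy0 (j + 2); have := hy0 (j + 3)
    have : 0 ≤ (g + 1 / 2) * y j := mul_nonneg (by linarith) (by assumption)
    linarith
  have hajlt : a j < g + 3 / 2 := by
    by_contra hcon
    have hcon' := not_lt.1 hcon
    apply hne
    have hall : ∀ i, V i = Fr j ((g + 1 / 2) * (g + 1 / 2 - y (j + 2)) - y j, y j) := by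
      intro i
      have h1 := Yrel j (V i)
      have k1 := hyle j i
      have k2 := hyle (j + 2) i
      have k3 := hyle (j + 3) i
      rw [ha] at hcon'
      have k4 : (g + 1 / 2) * y j ≤ (g + 1 / 2) * Yf j (V i) :=
        mul_le_mul_of_nonneg_left k1 (by linarith)
      have e1 : (g + 1 / 2) * y j = (g + 1 / 2) * Yf j (V i) := by linarith
      have e1' : y j = Yf j (V i) := mul_left_cancel₀ (by linarith) e1
      have e2 : y (j + 2) = Yf (j + 2) (V i) := by linarith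
      have h2 := Yf_two j (V i)
      rw [e1', e2, h2]
      have h3 := Fr_inv j (V i)
      conv_lhs => rw [← h3]
      congr 2
      linear_combination (-(Yf (j + 4) (V i) + Yf j (V i))) * hg
    rw [hall 0, hall 1, hall 2]; unfold D; ring
  obtain ⟨l, hl⟩ : ∃ l, l = (g + 3 / 2) / (g + 3 / 2 - a j) := ⟨_, rfl⟩
  have hden : 0 < g + 3 / 2 - a j := by linarith
  have hl1 : 1 ≤ l := by rw [hl, le_div_iff₀ hden]; linarith
  have hla : l * a j = (g + 3 / 2) * (l - 1) := by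
    have : l * (g + 3 / 2 - a j) = g + 3 / 2 := by
      rw [hl]; exact div_mul_cancel₀ _ hden.ne'
    linarith
  obtain ⟨Yτ, hYτ⟩ : ∃ Yτ, Yτ = l * (Yf j 0 - y j) := ⟨_, rfl⟩
  obtain ⟨Xτ, hXτ⟩ : ∃ Xτ, Xτ = (g + 1 / 2) * ((g + 1 / 2) - l * (Yf (j + 2) 0 - y (j + 2)))
      - Yτ := ⟨_, rfl⟩
  obtain ⟨τ, hτ⟩ : ∃ τ, τ = Fr j (Xτ, Yτ) := ⟨_, rfl⟩
  obtain ⟨κ, hκ⟩ : ∃ κ : Fin 5 → ℝ, ∀ k, κ k = Yf k τ - l * Yf k 0 := ⟨_, fun k => rfl⟩
  have κj : κ j = -(l * y j) := by rw [hκ, hτ, Fr_Y, hYτ]; ring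
  have κj2 : κ (j + 2) = -(l * y (j + 2)) := by
    rw [hκ, hτ, Yf_two, Fr_Y, Fr_X, hXτ]
    simp only
    linear_combination (-((g + 1 / 2) - l * (Yf (j + 2) 0 - y (j + 2)))) * hg
  have κrel : ∀ k, (g + 1 / 2) * κ k + κ (k + 2) + κ (k + 3) = (g + 3 / 2) * (1 - l) := by
    intro k
    rw [hκ, hκ, hκ]
    have h1 := Yrel k τ
    have h2 := Yrel k 0
    linear_combination h1 - l * h2
  have κj3 : κ (j + 3) = -(l * y (j + 3)) := by
    have h1 := κrel j
    rw [κj, κj2] at h1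
    have h2 := ha j
    rw [h2] at hla
    linear_combination h1 + hla
  have κj1 : κ (j + 1) + l * y (j + 1) = l * (a (j + 3) - a j) := by
    have h1 := κrel (j + 3)
    rw [i32, i33, κj3, κj] at h1
    have h2 := ha (j + 3)
    rw [i32, i33] at h2
    linear_combination h1 - l * h2 + hla
  have κj4 : κ (j + 4) + l * y (j + 4) = l * (a (j + 2) - a j) := by
    have h1 := κrel (j + 2)
    rw [i22, i23, κj2, κj] at h1
    have h2 := ha (j + 2)
    rw [i22, i23] at h2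
    linear_combination h1 - l * h2 + hla
  have κnn : ∀ k, 0 ≤ κ k + l * y k := by
    intro k
    rcases idx5' k j with h | h | h | h | h <;> rw [h]
    · rw [κj]; linarith
    · rw [κj1]; exact mul_nonneg (by linarith) (by have := hj (j + 3); linarith)
    · rw [κj2]; linarith
    · rw [κj3]; linarith
    · rw [κj4]; exact mul_nonneg (by linarith) (by have := hj (j + 2); linarith)
  -- the enlarged triangle
  obtain ⟨U, hU⟩ : ∃ U : Fin 3 → ℝ × ℝ, ∀ i, U i = l • V i + τ := ⟨_, fun i => rfl⟩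
  have hYU : ∀ k i, Yf k (U i) = l * Yf k (V i) + κ k := by
    intro k i
    rw [hU, (aff_Yf k).lin, hκ]
  have hUP : ∀ i, U i ∈ Pst := by
    intro i
    apply mem_Pst
    intro k
    rw [hYU]
    have h1 := κnn k
    have h2 : l * y k ≤ l * Yf k (V i) := mul_le_mul_of_nonneg_left (hyle k i) (by linarith)
    linarith
  have hl0 : 0 < l := by linarith
  have cov' : ∀ P ∈ Pst, ∃ u : Fin 3 → ℝ, (∀ i, 0 ≤ u i) ∧ u 0 + u 1 + u 2 = 1 ∧
      P = (r / l) • (u 0 • U 0 + u 1 • U 1 + u 2 • U 2) + (t - (r / l) • τ) := by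
    intro P hP
    obtain ⟨u, u0, u1, he⟩ := cov P hP
    refine ⟨u, u0, u1, ?_⟩
    rw [he, hU, hU, hU]
    have hq : r / l * l = r := by field_simp
    have hu : u 0 = 1 - u 1 - u 2 := by linarith
    ext
    · simp only [Prod.fst_add, Prod.fst_sub, Prod.smul_fst, smul_eq_mul]
      rw [hu]
      linear_combination (-((1 - u 1 - u 2) * (V 0).1 + u 1 * (V 1).1 + u 2 * (V 2).1)) * hq
    · simp only [Prod.snd_add, Prod.snd_sub, Prod.smul_snd, smul_eq_mul]
      rw [hu]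
      linear_combination (-((1 - u 1 - u 2) * (V 0).2 + u 1 * (V 1).2 + u 2 * (V 2).2)) * hq
  have hne' : D (U 0) (U 1) (U 2) ≠ 0 := by
    have e : D (U 0) (U 1) (U 2) = l ^ 2 * D (V 0) (V 1) (V 2) := by
      rw [hU, hU, hU]
      simp only [D, Prod.fst_add, Prod.smul_fst, Prod.snd_add, Prod.smul_snd, smul_eq_mul]
      ring
    rw [e]; exact mul_ne_zero (by positivity) hne
  have e1 : j + 4 + 1 = j := i41 j
  have e2 : j + 4 + 3 = j + 2 := by clear * -; revert j; decide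
  have e3 : j + 4 + 4 = j + 3 := i44 j
  have key := low_contact (m := j + 4) hUP (div_nonneg hr hl0.le) cov' hne' (i1 := ι j)
    (i2 := ι (j + 2)) (i3 := ι (j + 3))
    (by rw [e1, hYU, ← hy, κj]; ring) (by rw [e2, hYU, ← hy, κj2]; ring)
    (by rw [e3, hYU, ← hy, κj3]; ring)
  have : r / l ≤ r := div_le_self hr hl1
  linarith

end Pool.Agent.HBL
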