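import Pool.Agent.HBL.Close
import Pool.Agent.HBL.Low2

/-!
# The distance of an affine-regular pentagon to every triangle is at least `1 + √5/2`
-/

namespace Pool.Agent.HBL

open Pointwise Pool.Agent.HBM3

/-- A polygon with at most three vertices is the convex hull of three points. -/
theorem ngon3_points {Q : Set Pl} (hQ : IsNGon 3 Q) :
    ∃ q : Fin 3 → Pl, Q = convexHull ℝ (Set.range q) := by
  classical
  obtain ⟨S, hS, rfl, hint⟩ := hQ
  have hne : S.Nonempty := by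
    rcases S.eq_empty_or_nonempty with h | h
    · rw [h] at hint; simp at hint
    · exact h
  obtain ⟨s0, hs0⟩ := hne
  -- enumerate
  have h : ∃ q : Fin 3 → Pl, Set.range q = (S : Set Pl) := by
    obtain ⟨n, hn⟩ : ∃ n, n = S.card := ⟨_, rfl⟩
    have e := S.equivFin
    refine ⟨fun i => if h : (i : ℕ) < S.card then ((e.symm ⟨i, h⟩ : S) : Pl) else s0, ?_⟩
    ext x
    constructor
    · rintro ⟨i, rfl⟩
      by_cases h : (i : ℕ) < S.card
      · simp only [h, dite_true]; exact (e.symm ⟨i, h⟩).2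
      · simp only [h, dite_false]; exact hs0
    · intro hx
      refine ⟨⟨(e ⟨x, hx⟩ : ℕ), lt_of_lt_of_le (e ⟨x, hx⟩).2 hS⟩, ?_⟩
      simp
  obtain ⟨q, hq⟩ := h
  exact ⟨q, by rw [hq]⟩

theorem hull3_comb {q : Fin 3 → Pl} {x : Pl} (hx : x ∈ convexHull ℝ (Set.range q)) :
    ∃ u : Fin 3 → ℝ, (∀ i, 0 ≤ u i) ∧ u 0 + u 1 + u 2 = 1 ∧
      x = u 0 • q 0 + u 1 • q 1 + u 2 • q 2 := by
  have hc : Convex ℝ {x : Pl | ∃ u : Fin 3 → ℝ, (∀ i, 0 ≤ u i) ∧ u 0 + u 1 + u 2 = 1 ∧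
      x = u 0 • q 0 + u 1 • q 1 + u 2 • q 2} := by
    rintro x ⟨u, u0, u1, rfl⟩ y ⟨v, v0, v1, rfl⟩ a b ha hb hab
    refine ⟨fun i => a * u i + b * v i, fun i => ?_, ?_, ?_⟩
    · have := u0 i; have := v0 i; positivity
    · have : a * u 0 + b * v 0 + (a * u 1 + b * v 1) + (a * u 2 + b * v 2)
        = a * (u 0 + u 1 + u 2) + b * (v 0 + v 1 + v 2) := by ring
      rw [this, u1, v1]; linarith
    · simp only [smul_add, add_smul, smul_smul]
      abel
  have hsub : convexHull ℝ (Set.range q) ⊆ {x : Pl | ∃ u : Fin 3 → ℝ, (∀ i, 0 ≤ u i) ∧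
      u 0 + u 1 + u 2 = 1 ∧ x = u 0 • q 0 + u 1 • q 1 + u 2 • q 2} := by
    apply convexHull_min _ hc
    rintro _ ⟨i, rfl⟩
    fin_cases i
    · exact ⟨![1, 0, 0], by intro i; fin_cases i <;> simp, by simp, by simp⟩
    · exact ⟨![0, 1, 0], by intro i; fin_cases i <;> simp, by simp, by simp⟩
    · exact ⟨![0, 0, 1], by intro i; fin_cases i <;> simp, by simp, by simp⟩
  exact hsub hx

theorem isNGon_isBody {n : ℕ} {Q : Set Pl} (hQ : IsNGon n Q) : IsBody Q := by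
  obtain ⟨S, hS, rfl, hint⟩ := hQ
  exact ⟨convex_convexHull ℝ _,
    Set.Finite.isCompact_convexHull (𝕜 := ℝ) S.finite_toSet, hint⟩

/-- Every homothety ratio between an affine-regular pentagon and a triangle is at least
`1 + √5/2`. -/
theorem ratio_ge {P Q : Set Pl} (hP : IsAffineRegularPentagon P) (hQ : IsNGon 3 Q) {r : ℝ}
    (hr : r ∈ homRatios P Q) : 1 + Real.sqrt 5 / 2 ≤ r := by
  obtain ⟨l1, l2, t1, t2, h1, h2, i1, i2, rfl⟩ := hr
  obtain ⟨O, E, N, hD, hPe⟩ := (affreg_iff P).1 hP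
  obtain ⟨q, rfl⟩ := ngon3_points hQ
  -- the vertices in coordinates
  have hv : ∀ i, ∃ p ∈ P, q i = l2 • p + t2 := by
    intro i
    obtain ⟨y, hy, t', ht', he⟩ := Set.mem_add.1 (i2 (subset_convexHull ℝ _ ⟨i, rfl⟩))
    rw [Set.mem_singleton_iff] at ht'
    subst ht'
    obtain ⟨p, hp, rfl⟩ := hy
    exact ⟨p, hp, he.symm⟩
  choose p hp hq using hv
  have hV : ∀ i, ∃ v ∈ Pst, T (p i) = fr O E N v := by
    intro i
    have : T (p i) ∈ fr O E N '' Pst := by rw [← hPe]; exact ⟨_, hp i, rfl⟩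
    obtain ⟨v, hv, he⟩ := this
    exact ⟨v, hv, he.symm⟩
  choose V hVP hVe using hV
  obtain ⟨r, hr⟩ : ∃ r, r = l2 / l1 := ⟨_, rfl⟩
  rw [← hr]
  have hr0 : 0 ≤ r := by rw [hr]; positivity
  have hrl : r * l1 = l2 := by rw [hr]; field_simp
  obtain ⟨s, hs⟩ : ∃ s : ℝ × ℝ, s = (1 / l1) • (T t2 - T t1) := ⟨_, rfl⟩
  obtain ⟨τ, hτ⟩ : ∃ τ, fr O E N τ = r • O + s := ⟨_, fr_surj hD.ne' (r • O + s)⟩
  have cov : ∀ x ∈ Pst, ∃ u : Fin 3 → ℝ, (∀ i, 0 ≤ u i) ∧ u 0 + u 1 + u 2 = 1 ∧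
      x = r • (u 0 • V 0 + u 1 • V 1 + u 2 • V 2) + τ := by
    intro x hx
    have hxP : fr O E N x ∈ T '' P := by rw [hPe]; exact ⟨x, hx, rfl⟩
    obtain ⟨y, hy, hye⟩ := hxP
    have hyQ : l1 • y + t1 ∈ convexHull ℝ (Set.range q) :=
      i1 (Set.add_mem_add (Set.smul_mem_smul_set hy) rfl)
    obtain ⟨u, u0, u1, hu⟩ := hull3_comb hyQ
    refine ⟨u, u0, u1, fr_inj hD.ne' ?_⟩
    rw [fr_lin r _ τ s hτ]
    have e1 : fr O E N (u 0 • V 0 + u 1 • V 1 + u 2 • V 2)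
        = u 0 • T (p 0) + u 1 • T (p 1) + u 2 • T (p 2) := by
      rw [hVe, hVe, hVe]
      have hu' : u 0 = 1 - u 1 - u 2 := by linarith
      rw [hu']
      ext
      · simp only [fr, Prod.fst_add, Prod.smul_fst, Prod.snd_add, Prod.smul_snd, smul_eq_mul]; ring
      · simp only [fr, Prod.fst_add, Prod.smul_fst, Prod.snd_add, Prod.smul_snd, smul_eq_mul]; ring
    rw [e1, ← hye]
    have hl1 : l1 ≠ 0 := h1.ne'
    have e2 : l1 • T y + T t1 = l2 • (u 0 • T (p 0) + u 1 • T (p 1) + u 2 • T (p 2)) + T t2 := by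
      have := congrArg T hu
      rw [hq, hq, hq] at this
      simp only [map_add, map_smul] at this
      rw [this]
      have hu' : u 0 = 1 - u 1 - u 2 := by linarith
      rw [hu']
      ext
      · simp only [Prod.fst_add, Prod.smul_fst, smul_eq_mul]; ring
      · simp only [Prod.snd_add, Prod.smul_snd, smul_eq_mul]; ring
    have e3 : l1 • T y = l1 • (r • (u 0 • T (p 0) + u 1 • T (p 1) + u 2 • T (p 2)) + s) := by
      rw [hs, smul_add, smul_smul, smul_smul, mul_one_div_cancel hl1, one_smul, mul_comm l1 r, hrl]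
      have : l1 • T y = l2 • (u 0 • T (p 0) + u 1 • T (p 1) + u 2 • T (p 2)) + T t2 - T t1 := by
        rw [← e2]; abel
      rw [this]; abel
    exact smul_right_injective _ hl1 e3
  have hne : D (V 0) (V 1) (V 2) ≠ 0 := by
    intro h0
    have hw : ∀ j, w j ∈ Pst := fun j => subset_convexHull ℝ _ ⟨j, rfl⟩
    obtain ⟨a, -, a1, ha⟩ := cov _ (hw 0)
    obtain ⟨b, -, b1, hb⟩ := cov _ (hw 1)
    obtain ⟨c, -, c1, hc⟩ := cov _ (hw 4)
    have h := w_area 0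
    change D (w 0) (w 1) (w 4) = 1 at h
    rw [ha, hb, hc] at h
    have e : D (r • (a 0 • V 0 + a 1 • V 1 + a 2 • V 2) + τ)
        (r • (b 0 • V 0 + b 1 • V 1 + b 2 • V 2) + τ)
        (r • (c 0 • V 0 + c 1 • V 1 + c 2 • V 2) + τ)
        = r ^ 2 * ((b 1 - a 1) * (c 2 - a 2) - (b 2 - a 2) * (c 1 - a 1)) * D (V 0) (V 1) (V 2) := by
      have a1' : a 0 = 1 - a 1 - a 2 := by linarith
      have b1' : b 0 = 1 - b 1 - b 2 := by linarith
      have c1' : c 0 = 1 - c 1 - c 2 := by linarith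
      rw [a1', b1', c1']
      simp only [D, Prod.fst_add, Prod.smul_fst, Prod.snd_add, Prod.smul_snd, smul_eq_mul]
      ring
    rw [e, h0, mul_zero] at h
    exact zero_ne_one h
  exact low_std hVP hr0 cov hne

theorem pentagon_dist_ge {P Q : Set Pl} (hP : IsAffineRegularPentagon P) (hQ : IsNGon 3 Q) :
    1 + Real.sqrt 5 / 2 ≤ homDist P Q :=
  le_csInf (homRatios_nonempty hP.isBody (isNGon_isBody hQ)) fun _ h => ratio_ge hP hQ h

end Pool.Agent.HBL
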