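import Pool.Agent.HBL.Low3

/-!
# The affine-regular pentagon is a strict local maximum
-/

namespace Pool.Agent.HBL

open Pointwise Pool.Agent.HBM3

theorem triDist_le {C Q : Set Pl} (hQ : IsNGon 3 Q) : triDist C ≤ homDist C Q := by
  refine csInf_le ⟨0, ?_⟩ ⟨Q, hQ, rfl⟩
  rintro y ⟨R, -, rfl⟩
  exact homDist_nonneg C R

theorem triDist_pentagon {P : Set Pl} (hP : IsAffineRegularPentagon P) :
    triDist P = 1 + Real.sqrt 5 / 2 := by
  apply le_antisymm
  · obtain ⟨Q, hQ, hd⟩ := Pool.Agent.HBM5.ngon_dist hP.isNGon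
    exact (triDist_le hQ).trans hd
  · obtain ⟨Q, hQ, -⟩ := Pool.Agent.HBM5.ngon_dist hP.isNGon
    refine le_csInf ⟨homDist P Q, Q, hQ, rfl⟩ ?_
    rintro y ⟨R, hR, rfl⟩
    exact pentagon_dist_ge hP hR

theorem main {P C : Set Pl} (hP : IsAffineRegularPentagon P) (hC : IsBody C)
    (h : homDist C P < 1 + 1 / 10 ^ 15) :
    triDist C ≤ 1 + Real.sqrt 5 / 2 ∧
      (triDist C = 1 + Real.sqrt 5 / 2 ↔ IsAffineRegularPentagon C) := by
  rcases local_max hC hP h with h1 | ⟨Q, hQ, hQC, r, hr0, hr, t, ht⟩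
  · have := triDist_pentagon h1
    exact ⟨this.le, fun _ => h1, fun _ => this⟩
  · have hlt : triDist C < 1 + Real.sqrt 5 / 2 :=
      ((triDist_le hQ).trans (Pool.Agent.HBM5.homDist_le_of hr0 hQC ht)).trans_lt hr
    refine ⟨hlt.le, fun h2 => absurd h2 hlt.ne, fun h2 => triDist_pentagon h2⟩

end Pool.Agent.HBL
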