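import Pool.Agent.HBL.Sand
import Pool.Agent.HBL.Defs
import Pool.Agent.HBM5.Final

/-!
# Bodies close to an affine-regular pentagon
-/

namespace Pool.Agent.HBL

open Pointwise Pool.Agent.HBM3

/-- Coordinates. -/
noncomputable def T : Pl ≃ₗ[ℝ] (ℝ × ℝ) where
  toFun x := (x 0, x 1)
  invFun p := !₂[p.1, p.2]
  map_add' x y := by simp
  map_smul' r x := by simp
  left_inv x := by
    ext i; fin_cases i <;> simp
  right_inv p := by simp

theorem T_apply (x : Pl) : T x = (x 0, x 1) := rfl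

/-- `fr` as an affine map. -/
noncomputable def frM (O E N : ℝ × ℝ) : (ℝ × ℝ) →ᵃ[ℝ] (ℝ × ℝ) where
  toFun := fr O E N
  linear :=
    { toFun := fun x => (x.1 * (E.1 - O.1) + x.2 * (N.1 - O.1),
        x.1 * (E.2 - O.2) + x.2 * (N.2 - O.2))
      map_add' := fun x y => by ext <;> simp <;> ring
      map_smul' := fun r x => by ext <;> simp <;> ring }
  map_vadd' x v := by
    ext
    · simp [fr]; ring
    · simp [fr]; ring

theorem exists_frE {O E N : ℝ × ℝ} (h : D O E N ≠ 0) :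
    ∃ e : (ℝ × ℝ) ≃ᵃ[ℝ] (ℝ × ℝ), ∀ x, e x = fr O E N x := by
  have hb : Function.Bijective (frM O E N) :=
    ⟨fun x y hxy => fr_inj h hxy, fun P => ⟨_, fr_surj h P⟩⟩
  exact ⟨AffineEquiv.ofBijective hb, fun x => rfl⟩

theorem aff_eq_fr (h : (ℝ × ℝ) ≃ᵃ[ℝ] (ℝ × ℝ)) :
    ∃ O E N, D O E N ≠ 0 ∧ ∀ x, h x = fr O E N x := by
  have h1 : ∀ x, h x = h.linear x + h 0 := by
    intro x
    have := h.map_vadd (0 : ℝ × ℝ) x
    simpa using this
  have h2 : ∀ x : ℝ × ℝ, h.linear x = x.1 • h.linear (1, 0) + x.2 • h.linear (0, 1) := by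
    intro x
    rw [← map_smul, ← map_smul, ← map_add]
    congr 1
    ext <;> simp
  have hx : ∀ x, h x = fr (h 0) (h (1, 0)) (h (0, 1)) x := by
    intro x
    rw [h1 x, h2 x, h1 (1, 0), h1 (0, 1)]
    ext
    · simp [fr]; ring
    · simp [fr]; ring
  refine ⟨h 0, h (1, 0), h (0, 1), ?_, hx⟩
  intro hD
  obtain ⟨O, hO⟩ : ∃ O, O = h 0 := ⟨_, rfl⟩
  obtain ⟨E, hE⟩ : ∃ E, E = h (1, 0) := ⟨_, rfl⟩
  obtain ⟨N, hN⟩ : ∃ N, N = h (0, 1) := ⟨_, rfl⟩
  rw [← hO, ← hE, ← hN] at hx hD
  unfold D at hD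
  have i1 : h (N.2 - O.2, -(E.2 - O.2)) = h 0 := by
    rw [hx, hx]
    ext
    · simp [fr]; linarith
    · simp [fr]; ring
  have i2 : h (N.1 - O.1, -(E.1 - O.1)) = h 0 := by
    rw [hx, hx]
    ext
    · simp [fr]; ring
    · simp [fr]; linarith
  have j1 := h.injective i1
  have j2 := h.injective i2
  simp only [Prod.mk_eq_zero] at j1 j2
  have : E = O := by
    ext
    · linarith [j2.2]
    · linarith [j1.2]
  rw [hO, hE] at this
  have := h.injective this
  simp at this

theorem swap_Pst : (fun x : ℝ × ℝ => (x.2, x.1)) '' Pst = Pst := by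
  have hsub : ∀ x ∈ Pst, ((x.2, x.1) : ℝ × ℝ) ∈ Pst := by
    intro x hx
    apply mem_Pst
    have h := Yf_nonneg_Pst hx
    intro j
    have e0 : Yf 0 (x.2, x.1) = Yf 4 x := by simp [Yf, w, D]
    have e1 : Yf 1 (x.2, x.1) = Yf 3 x := by simp [Yf, w, D]; ring
    have e2 : Yf 2 (x.2, x.1) = Yf 2 x := by simp [Yf, w, D]; ring
    have e3 : Yf 3 (x.2, x.1) = Yf 1 x := by simp [Yf, w, D]; ring
    have e4 : Yf 4 (x.2, x.1) = Yf 0 x := by simp [Yf, w, D]
    fin_cases j
    · exact e0 ▸ h 4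
    · exact e1 ▸ h 3
    · exact e2 ▸ h 2
    · exact e3 ▸ h 1
    · exact e4 ▸ h 0
  apply Set.Subset.antisymm
  · rintro _ ⟨x, hx, rfl⟩
    exact hsub x hx
  · intro x hx
    exact ⟨(x.2, x.1), hsub x hx, rfl⟩

theorem orient {S : Set (ℝ × ℝ)} {O E N : ℝ × ℝ} (h : D O E N ≠ 0) (hS : S = fr O E N '' Pst) :
    ∃ O E N, 0 < D O E N ∧ S = fr O E N '' Pst := by
  rcases lt_or_gt_of_ne h with h1 | h1
  · refine ⟨O, N, E, ?_, ?_⟩
    · have : D O N E = -D O E N := by unfold D; ring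
      rw [this]; linarith
    · rw [hS]
      conv_rhs => rw [← swap_Pst, Set.image_image]
      apply Set.image_congr
      intro x _
      unfold fr
      ext <;> (simp only; ring)
  · exact ⟨O, E, N, h1, hS⟩

theorem cos2 : Real.cos (2 * Real.pi / 5) = (g - 1 / 2) / 2 := by
  have h : 2 * Real.pi / 5 = 2 * (Real.pi / 5) := by ring
  have hg := g_sq
  rw [h, Real.cos_two_mul, Real.cos_pi_div_five]
  have e : (1 + Real.sqrt 5) / 4 = (g + 1 / 2) / 2 := by unfold g; ring
  rw [e]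
  linear_combination (1 / 2) * hg

theorem cos4 : Real.cos (2 * Real.pi * 2 / 5) = -(g + 1 / 2) / 2 := by
  have h : 2 * Real.pi * 2 / 5 = 2 * (2 * Real.pi / 5) := by ring
  have hg := g_sq
  rw [h, Real.cos_two_mul, cos2]
  linear_combination (1 / 2) * hg

theorem sin4 : Real.sin (2 * Real.pi * 2 / 5) = (g - 1 / 2) * Real.sin (2 * Real.pi / 5) := by
  have h : 2 * Real.pi * 2 / 5 = 2 * (2 * Real.pi / 5) := by ring
  rw [h, Real.sin_two_mul, cos2]
  ring

theorem regV_T (k : Fin 5) : T (regV k) =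
    fr (T (regV 0)) (T (regV 1)) (T (regV 4)) (w k) := by
  have hg := g_sq
  have v0 : T (regV 0) = (1, 0) := by simp [T_apply, regV]
  have v1 : T (regV 1) = ((g - 1 / 2) / 2, Real.sin (2 * Real.pi / 5)) := by
    simp [T_apply, regV]; rw [cos2]; ring
  have v2 : T (regV 2) = (-(g + 1 / 2) / 2, (g - 1 / 2) * Real.sin (2 * Real.pi / 5)) := by
    simp only [T_apply, regV]
    simp
    rw [cos4, sin4]
    constructor <;> ring
  have v3 : T (regV 3) = (-(g + 1 / 2) / 2, -((g - 1 / 2) * Real.sin (2 * Real.pi / 5))) := by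
    have e : 2 * Real.pi * 3 / 5 = 2 * Real.pi - 2 * Real.pi * 2 / 5 := by ring
    simp only [T_apply, regV]
    simp
    rw [e, Real.cos_two_pi_sub, Real.sin_two_pi_sub, cos4, sin4]
    constructor <;> ring
  have v4 : T (regV 4) = ((g - 1 / 2) / 2, -Real.sin (2 * Real.pi / 5)) := by
    have e : 2 * Real.pi * 4 / 5 = 2 * Real.pi - 2 * Real.pi / 5 := by ring
    simp only [T_apply, regV]
    simp
    rw [e, Real.cos_two_pi_sub, Real.sin_two_pi_sub, cos2]
    constructor <;> ring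
  fin_cases k
  · exact (fr_00 _ _ _).symm
  · exact (fr_10 _ _ _).symm
  · change T (regV 2) = fr _ _ _ (g + 1 / 2, 1)
    rw [v0, v1, v2, v4]
    ext
    · simp [fr]; linear_combination (-1 / 2) * hg
    · simp [fr]; ring
  · change T (regV 3) = fr _ _ _ (1, g + 1 / 2)
    rw [v0, v1, v3, v4]
    ext
    · simp [fr]; linear_combination (-1 / 2) * hg
    · simp [fr]; ring
  · exact (fr_01 _ _ _).symm

theorem reg_D : D (T (regV 0)) (T (regV 1)) (T (regV 4)) ≠ 0 := by
  have g2 := g_ub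
  have v0 : T (regV 0) = (1, 0) := by simp [T_apply, regV]
  have v1 : T (regV 1) = ((g - 1 / 2) / 2, Real.sin (2 * Real.pi / 5)) := by
    simp [T_apply, regV]; rw [cos2]; ring
  have v4 : T (regV 4) = ((g - 1 / 2) / 2, -Real.sin (2 * Real.pi / 5)) := by
    have e : 2 * Real.pi * 4 / 5 = 2 * Real.pi - 2 * Real.pi / 5 := by ring
    simp only [T_apply, regV]
    simp
    rw [e, Real.cos_two_pi_sub, Real.sin_two_pi_sub, cos2]
    constructor <;> ring
  have hs : 0 < Real.sin (2 * Real.pi / 5) := by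
    apply Real.sin_pos_of_pos_of_lt_pi
    · positivity
    · linarith [Real.pi_pos]
  have e : D (T (regV 0)) (T (regV 1)) (T (regV 4)) =
      2 * Real.sin (2 * Real.pi / 5) * (1 - (g - 1 / 2) / 2) := by
    rw [v0, v1, v4]; unfold D; simp only; ring
  rw [e]
  have : 0 < 1 - (g - 1 / 2) / 2 := by linarith
  positivity

theorem T_reg : T '' convexHull ℝ (Set.range regV) =
    fr (T (regV 0)) (T (regV 1)) (T (regV 4)) '' Pst := by
  have h1 : T '' convexHull ℝ (Set.range regV) = convexHull ℝ (T '' Set.range regV) :=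
    (T : Pl →ₗ[ℝ] (ℝ × ℝ)).image_convexHull _
  have h2 : fr (T (regV 0)) (T (regV 1)) (T (regV 4)) '' Pst
      = convexHull ℝ (fr (T (regV 0)) (T (regV 1)) (T (regV 4)) '' Set.range w) :=
    (frM (T (regV 0)) (T (regV 1)) (T (regV 4))).image_convexHull _
  rw [h1, h2, ← Set.range_comp, ← Set.range_comp]
  congr 1
  apply congrArg
  funext k
  exact regV_T k

theorem affreg_iff (P : Set Pl) : IsAffineRegularPentagon P ↔
    ∃ O E N, 0 < D O E N ∧ T '' P = fr O E N '' Pst := by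
  obtain ⟨eR, heR⟩ := exists_frE reg_D
  have hR : T '' convexHull ℝ (Set.range regV) = eR '' Pst := by
    rw [T_reg]
    exact Set.image_congr fun x _ => (heR x).symm
  have hR' : convexHull ℝ (Set.range regV) = T.symm '' (eR '' Pst) := by
    rw [← hR, Set.image_image]; simp
  constructor
  · rintro ⟨f, rfl⟩
    obtain ⟨O, E, N, hD, hx⟩ := aff_eq_fr (((eR.trans T.symm.toAffineEquiv).trans f).trans
      T.toAffineEquiv)
    apply orient hD
    rw [hR', Set.image_image, Set.image_image, Set.image_image]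
    exact Set.image_congr fun x _ => hx x
  · rintro ⟨O, E, N, hD, hP⟩
    obtain ⟨e, he⟩ := exists_frE hD.ne'
    refine ⟨((T.toAffineEquiv.trans eR.symm).trans e).trans T.symm.toAffineEquiv, ?_⟩
    have hP' : P = T.symm '' (e '' Pst) := by
      have : e '' Pst = T '' P := by
        rw [hP]; exact Set.image_congr fun x _ => he x
      rw [this, Set.image_image]; simp
    rw [hP', hR', Set.image_image, Set.image_image, Set.image_image]
    apply Set.image_congr
    intro x _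
    simp

end Pool.Agent.HBL
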