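import Pool.Agent.HBL.Std

/-!
# A reference pentagon for a body close to the standard pentagon
-/

namespace Pool.Agent.HBL

/-- Coordinatewise closeness. -/
def Near (μ : ℝ) (P Q : ℝ × ℝ) : Prop := |P.1 - Q.1| ≤ μ ∧ |P.2 - Q.2| ≤ μ

/-- Points with coordinates in `[0, 1.62]`. -/
def Box (P : ℝ × ℝ) : Prop := (0 ≤ P.1 ∧ P.1 ≤ 1.62) ∧ (0 ≤ P.2 ∧ P.2 ≤ 1.62)

theorem prod_near {μ a b a' b' : ℝ} (hμ : 0 ≤ μ) (hμ1 : μ ≤ 1 / 100) (ha : |a - a'| ≤ 2 * μ)
    (hb : |b - b'| ≤ 2 * μ) (ha' : |a'| ≤ 1.62) (hb' : |b'| ≤ 1.62) :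
    |a * b - a' * b'| ≤ 8 * μ := by
  have e : a * b - a' * b' = (a - a') * (b - b') + (a - a') * b' + a' * (b - b') := by ring
  rw [e]
  have h1 : |(a - a') * (b - b')| ≤ 2 * μ * (2 * μ) := by
    rw [abs_mul]; exact mul_le_mul ha hb (abs_nonneg _) (by positivity)
  have h2 : |(a - a') * b'| ≤ 2 * μ * 1.62 := by
    rw [abs_mul]; exact mul_le_mul ha hb' (abs_nonneg _) (by positivity)
  have h3 : |a' * (b - b')| ≤ 1.62 * (2 * μ) := by
    rw [abs_mul]; exact mul_le_mul ha' hb (abs_nonneg _) (by positivity)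
  have h4 : μ * μ ≤ μ * (1 / 100) := mul_le_mul_of_nonneg_left hμ1 hμ
  have h5 := abs_add_le ((a - a') * (b - b') + (a - a') * b') (a' * (b - b'))
  have h6 := abs_add_le ((a - a') * (b - b')) ((a - a') * b')
  linarith

theorem D_near {μ : ℝ} (hμ : 0 ≤ μ) (hμ1 : μ ≤ 1 / 100) {P Q R P' Q' R' : ℝ × ℝ}
    (hP : Near μ P P') (hQ : Near μ Q Q') (hR : Near μ R R')
    (bP : Box P') (bQ : Box Q') (bR : Box R') :
    |D P Q R - D P' Q' R'| ≤ 16 * μ := by
  obtain ⟨p1, p2⟩ := hP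
  obtain ⟨q1, q2⟩ := hQ
  obtain ⟨r1, r2⟩ := hR
  obtain ⟨⟨P1, P2⟩, P3, P4⟩ := bP
  obtain ⟨⟨Q1, Q2⟩, Q3, Q4⟩ := bQ
  obtain ⟨⟨R1, R2⟩, R3, R4⟩ := bR
  rw [abs_le] at p1 p2 q1 q2 r1 r2
  have h1 := prod_near (a := Q.1 - P.1) (b := R.2 - P.2) (a' := Q'.1 - P'.1)
    (b' := R'.2 - P'.2) hμ hμ1 (abs_le.2 ⟨by linarith, by linarith⟩)
    (abs_le.2 ⟨by linarith, by linarith⟩) (abs_le.2 ⟨by linarith, by linarith⟩)
    (abs_le.2 ⟨by linarith, by linarith⟩)
  have h2 := prod_near (a := Q.2 - P.2) (b := R.1 - P.1) (a' := Q'.2 - P'.2)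
    (b' := R'.1 - P'.1) hμ hμ1 (abs_le.2 ⟨by linarith, by linarith⟩)
    (abs_le.2 ⟨by linarith, by linarith⟩) (abs_le.2 ⟨by linarith, by linarith⟩)
    (abs_le.2 ⟨by linarith, by linarith⟩)
  rw [abs_le] at h1 h2 ⊢
  unfold D
  constructor <;> linarith

theorem Fr_near (j : Fin 5) {e X Y X0 Y0 : ℝ} (he : 0 ≤ e) (hX : |X - X0| ≤ e)
    (hY : |Y - Y0| ≤ e) : Near (4 * e) (Fr j (X, Y)) (Fr j (X0, Y0)) := by
  obtain ⟨⟨a1, a2⟩, a3, a4⟩ := w_coord j
  obtain ⟨⟨b1, b2⟩, b3, b4⟩ := w_coord (j + 1)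
  obtain ⟨⟨c1, c2⟩, c3, c4⟩ := w_coord (j + 4)
  constructor
  · have e1 : (Fr j (X, Y)).1 - (Fr j (X0, Y0)).1 = (X - X0) * ((w (j + 1)).1 - (w j).1)
        + (Y - Y0) * ((w (j + 4)).1 - (w j).1) := by
      unfold Fr fr; simp only; ring
    rw [e1]
    have h1 : |(X - X0) * ((w (j + 1)).1 - (w j).1)| ≤ e * 1.62 := by
      rw [abs_mul]
      exact mul_le_mul hX (abs_le.2 ⟨by linarith, by linarith⟩) (abs_nonneg _) he
    have h2 : |(Y - Y0) * ((w (j + 4)).1 - (w j).1)| ≤ e * 1.62 := by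
      rw [abs_mul]
      exact mul_le_mul hY (abs_le.2 ⟨by linarith, by linarith⟩) (abs_nonneg _) he
    have h3 := abs_add_le ((X - X0) * ((w (j + 1)).1 - (w j).1))
      ((Y - Y0) * ((w (j + 4)).1 - (w j).1))
    linarith
  · have e1 : (Fr j (X, Y)).2 - (Fr j (X0, Y0)).2 = (X - X0) * ((w (j + 1)).2 - (w j).2)
        + (Y - Y0) * ((w (j + 4)).2 - (w j).2) := by
      unfold Fr fr; simp only; ring
    rw [e1]
    have h1 : |(X - X0) * ((w (j + 1)).2 - (w j).2)| ≤ e * 1.62 := by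
      rw [abs_mul]
      exact mul_le_mul hX (abs_le.2 ⟨by linarith, by linarith⟩) (abs_nonneg _) he
    have h2 : |(Y - Y0) * ((w (j + 4)).2 - (w j).2)| ≤ e * 1.62 := by
      rw [abs_mul]
      exact mul_le_mul hY (abs_le.2 ⟨by linarith, by linarith⟩) (abs_nonneg _) he
    have h3 := abs_add_le ((X - X0) * ((w (j + 1)).2 - (w j).2))
      ((Y - Y0) * ((w (j + 4)).2 - (w j).2))
    linarith

theorem box_w (j : Fin 5) : Box (w j) := w_coord j

theorem box_mid (j : Fin 5) : Box (Fr j (1 / 2, 0)) := by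
  obtain ⟨⟨a1, a2⟩, a3, a4⟩ := w_coord j
  obtain ⟨⟨b1, b2⟩, b3, b4⟩ := w_coord (j + 1)
  unfold Fr fr Box
  simp only
  refine ⟨⟨?_, ?_⟩, ?_, ?_⟩ <;> linarith

/-- The values of the functionals at the vertices. -/
theorem Yf_w (j : Fin 5) : Yf j (w j) = 0 ∧ Yf (j + 4) (w j) = 0 ∧ Yf (j + 1) (w j) = 1 ∧
    Yf (j + 3) (w j) = 1 ∧ Yf (j + 2) (w j) = g + 1 / 2 := by
  have h1 : Yf j (w j) = 0 := by unfold Yf D; ring
  have h2 : Yf (j + 4) (w j) = 0 := by unfold Yf; rw [i41]; unfold D; ring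
  refine ⟨h1, h2, ?_, ?_, ?_⟩
  · rw [Yf_succ, h1, h2]; ring
  · rw [Yf_three, h1, h2]; ring
  · rw [Yf_two, h1, h2]; ring

/-- The tip of `K` in the corner `j`. -/
theorem tip_near {δ ξ A1 A2 : ℝ} (hδ : 0 ≤ δ) (hδ1 : δ ≤ 1 / 100) (hξ : |ξ| ≤ δ)
    (h1 : -δ ^ 2 ≤ A1) (h2 : -δ ^ 2 ≤ A2)
    (h : 0 ≤ -((g - 1 / 2) * (A1 + A2)) + 2 * ξ * ((g - 1 / 2) * A2 - A1
      + (g - 1 / 2) / 2 * ((g - 1 / 2) * (A1 + A2)))) :
    |A1| ≤ 2 * δ ∧ |A2| ≤ 2 * δ := by
  have g1 := g_lb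
  have g2 := g_ub
  have dd : δ ^ 2 ≤ δ / 100 := by nlinarith
  have d0 : 0 ≤ δ ^ 2 := sq_nonneg _
  obtain ⟨c, hc⟩ : ∃ c, c = g - 1 / 2 := ⟨_, rfl⟩
  rw [← hc] at h
  have c1 : 0.618 ≤ c := by rw [hc]; linarith
  have c2 : c ≤ 0.6181 := by rw [hc]; linarith
  -- `|A i| ≤ A i + 2 δ²`
  have a1 : |A1| ≤ A1 + 2 * δ ^ 2 := by
    rcases le_total 0 A1 with h0 | h0
    · rw [abs_of_nonneg h0]; linarith
    · rw [abs_of_nonpos h0]; linarith
  have a2 : |A2| ≤ A2 + 2 * δ ^ 2 := by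
    rcases le_total 0 A2 with h0 | h0
    · rw [abs_of_nonneg h0]; linarith
    · rw [abs_of_nonpos h0]; linarith
  obtain ⟨s, hs⟩ : ∃ s, s = |A1| + |A2| := ⟨_, rfl⟩
  have s0 : 0 ≤ s := by rw [hs]; positivity
  have b : |c * A2 - A1 + c / 2 * (c * (A1 + A2))| ≤ 2 * s := by
    have h3 : |c * A2| ≤ 1 * |A2| := by
      rw [abs_mul]; apply mul_le_mul_of_nonneg_right _ (abs_nonneg _)
      rw [abs_le]; constructor <;> linarith
    have h4 : |A1 + A2| ≤ s := by rw [hs]; exact abs_add_le _ _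
    have h5 : |c / 2 * (c * (A1 + A2))| ≤ 1 * s := by
      have e : c / 2 * (c * (A1 + A2)) = (c / 2 * c) * (A1 + A2) := by ring
      rw [e, abs_mul]
      apply mul_le_mul _ h4 (abs_nonneg _) (by norm_num)
      rw [abs_le]; constructor <;> nlinarith
    have h6 := abs_add_le (c * A2 - A1) (c / 2 * (c * (A1 + A2)))
    have h7 := abs_sub (c * A2) A1
    linarith
  have h8 : 2 * ξ * (c * A2 - A1 + c / 2 * (c * (A1 + A2))) ≤ 0.02 * (2 * s) := by
    have h9 : |2 * ξ * (c * A2 - A1 + c / 2 * (c * (A1 + A2)))| ≤ 0.02 * (2 * s) := by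
      rw [abs_mul]
      apply mul_le_mul _ b (abs_nonneg _) (by norm_num)
      rw [abs_le] at hξ ⊢
      constructor <;> linarith
    exact (le_abs_self _).trans h9
  have h10 : 0.618 * (A1 + A2 + 2 * δ ^ 2) ≤ c * (A1 + A2 + 2 * δ ^ 2) :=
    mul_le_mul_of_nonneg_right c1 (by linarith)
  have h11 : c * (2 * δ ^ 2) ≤ 0.6181 * (2 * δ ^ 2) := mul_le_mul_of_nonneg_right c2 (by linarith)
  have h12 : s ≤ δ := by
    have : s ≤ A1 + A2 + 4 * δ ^ 2 := by rw [hs]; linarith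
    linarith
  have n1 := abs_nonneg A1
  have n2 := abs_nonneg A2
  constructor <;> linarith

theorem i32 (j : Fin 5) : j + 3 + 2 = j := by revert j; decide
theorem i31 (j : Fin 5) : j + 3 + 1 = j + 4 := by revert j; decide
theorem i23 (j : Fin 5) : j + 2 + 3 = j := by revert j; decide

set_option maxHeartbeats 4000000 in
theorem ref_conf {K : Set (ℝ × ℝ)} (hc : IsCompact K) (hK : Convex ℝ K) (hw : ∀ j, w j ∈ K)
    {δ : ℝ} (hδ0 : 0 < δ) (hδ : δ ≤ 1 / 10000000) (hη : ∀ j, ∀ P ∈ K, -δ ^ 2 ≤ Yf j P) :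
    ∃ (v : Fin 5 → ℝ × ℝ) (x y z : Fin 5 → ℝ), Conf K v x y z := by
  have g1 := g_lb
  have g2 := g_ub
  have hg := g_sq
  have dd : δ ^ 2 ≤ δ := by nlinarith
  have dd0 : 0 ≤ δ ^ 2 := sq_nonneg _
  obtain ⟨Xi, hXi⟩ : ∃ Xi : Fin 5 → ℝ × ℝ → ℝ, Xi = fun j P =>
    Yf (j + 4) P + (-((g - 1 / 2) / 2)) * Yf j P + (-1 / 2) := ⟨_, rfl⟩
  have hXi' : ∀ j P, Xi j P = Yf (j + 4) P + (-((g - 1 / 2) / 2)) * Yf j P + (-1 / 2) := by
    intro j P; rw [hXi]
  have aX : ∀ j, Aff (Xi j) := by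
    intro j
    rw [hXi]
    exact ((aff_Yf (j + 4)).add ((aff_Yf j).smul _)).add (aff_const _)
  choose p hp hp1 hp2 using fun j => side_pt hc hK ⟨w 0, hw 0⟩ (aff_Yf j) (aX j)
  obtain ⟨r, hr⟩ : ∃ r : Fin 5 → ℝ, ∀ j, r j = Yf j (p j) := ⟨_, fun j => rfl⟩
  obtain ⟨ξ, hξ⟩ : ∃ ξ : Fin 5 → ℝ, ∀ j, ξ j = Xi j (p j) := ⟨_, fun j => rfl⟩
  have hmid : ∀ j, Fr j (1 / 2, 0) ∈ K := by
    intro j
    have h := hK (hw j) (hw (j + 1)) (a := 1 / 2) (b := 1 / 2) (by norm_num) (by norm_num)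
      (by norm_num)
    convert h using 1
    unfold Fr fr
    ext
    · simp only [Prod.fst_add, Prod.smul_fst, smul_eq_mul]; ring
    · simp only [Prod.snd_add, Prod.smul_snd, smul_eq_mul]; ring
  have hr0 : ∀ j, -δ ^ 2 ≤ r j := fun j => by rw [hr]; exact hη j _ (hp j)
  have hrx : ∀ j, r j + ξ j ^ 2 ≤ 0 := by
    intro j
    have h := hp2 j _ (hmid j)
    rw [← hr, ← hξ, hXi', Fr_Y, Fr_X] at h
    simp only at h
    linarith
  have hr1 : ∀ j, r j ≤ 0 := fun j => by have := hrx j; have := sq_nonneg (ξ j); linarith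
  have hξ1 : ∀ j, |ξ j| ≤ δ := by
    intro j
    apply abs_le_of_sq_le_sq _ hδ0.le
    have := hrx j; have := hr0 j; linarith
  obtain ⟨G, hG⟩ : ∃ G : Fin 5 → ℝ × ℝ → ℝ, G = fun j P =>
    Yf j P + (2 * ξ j) * Xi j P + (-r j - 2 * ξ j ^ 2) := ⟨_, rfl⟩
  have hG' : ∀ j P, G j P = Yf j P + (2 * ξ j) * Xi j P + (-r j - 2 * ξ j ^ 2) := by
    intro j P; rw [hG]
  have aG : ∀ j, Aff (G j) := by
    intro j
    rw [hG]
    exact ((aff_Yf j).add ((aX j).smul _)).add (aff_const _)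
  have G0 : ∀ j, ∀ P ∈ K, 0 ≤ G j P := by
    intro j P hP
    have h := hp1 j P hP
    rw [← hr, ← hξ] at h
    rw [hG']; linarith
  have Gp : ∀ j, G j (p j) = 0 := by
    intro j; rw [hG', ← hr, ← hξ]; ring
  -- corners
  choose X Y hX hY c1 c2 using fun j => corner (δ := δ) (r := r j) (r' := r (j + 4)) (ξ := ξ j)
    (ξ' := ξ (j + 4)) hδ0.le (by linarith) ⟨hr0 j, hr1 j⟩ ⟨hr0 (j + 4), hr1 (j + 4)⟩ (hξ1 j)
    (hξ1 (j + 4))
  obtain ⟨v, hv⟩ : ∃ v : Fin 5 → ℝ × ℝ, ∀ j, v j = Fr j (X j, Y j) := ⟨_, fun j => rfl⟩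
  have nv : ∀ j, Near (8 * δ) (v j) (w j) := by
    intro j
    have h := Fr_near j (e := 2 * δ) (X := X j) (Y := Y j) (X0 := 0) (Y0 := 0) (by linarith)
      (by rw [sub_zero]; exact hX j) (by rw [sub_zero]; exact hY j)
    rw [Fr_w, ← hv] at h
    have e : 4 * (2 * δ) = 8 * δ := by ring
    rw [e] at h; exact h
  have Gv : ∀ j, G j (v j) = 0 := by
    intro j
    rw [hG', hXi', hv, Fr_X, Fr_Y]
    simp only
    linarith [c1 j]
  have Gv4 : ∀ j, G (j + 4) (v j) = 0 := by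
    intro j
    rw [hG', hXi', i44, Yf_three, hv, Fr_X, Fr_Y]
    simp only
    linarith [c2 j]
  have Gv1 : ∀ j, G j (v (j + 1)) = 0 := by
    intro j
    have h := Gv4 (j + 1)
    rw [i14] at h; exact h
  have m0 : (0 : ℝ) ≤ 8 * δ := by linarith
  have m1 : 8 * δ ≤ 1 / 100 := by linarith
  have nself : ∀ P, Near (8 * δ) P P := fun P => by
    constructor <;> simp <;> linarith
  -- the far vertex
  have Yfar : ∀ j, Yf j (w (j + 3)) = g + 1 / 2 := by
    intro j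
    have := (Yf_w (j + 3)).2.2.2.2
    rw [i32] at this; exact this
  have Yfar4 : ∀ j, Yf (j + 4) (w (j + 3)) = 1 := by
    intro j
    have := (Yf_w (j + 3)).2.2.1
    rw [i31] at this; exact this
  have DQ : ∀ j, 1 ≤ D (v j) (v (j + 1)) (w (j + 3)) := by
    intro j
    have h := D_near m0 m1 (nv j) (nv (j + 1)) (nself (w (j + 3))) (box_w _) (box_w _) (box_w _)
    have e : D (w j) (w (j + 1)) (w (j + 3)) = g + 1 / 2 := Yfar j
    rw [e, abs_le] at h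
    linarith
  have GQ : ∀ j, 1 ≤ G j (w (j + 3)) := by
    intro j
    have e : Xi j (w (j + 3)) = 0 := by
      rw [hXi', Yfar, Yfar4]; linear_combination (-1 / 2) * hg
    rw [hG', e, Yfar]
    have h1 := hr1 j
    have h2 := hrx j
    have h3 := hr0 j
    linarith
  have prop : ∀ j P, G j P * D (v j) (v (j + 1)) (w (j + 3)) =
      G j (w (j + 3)) * D (v j) (v (j + 1)) P := fun j P =>
    (aG j).prop (Gv j) (Gv1 j) P _
  have side : ∀ j, ∀ P ∈ K, 0 ≤ D (v j) (v (j + 1)) P := by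
    intro j P hP
    have h := prop j P
    have h1 := DQ j
    have h2 := GQ j
    have h3 : 0 ≤ G j P * D (v j) (v (j + 1)) (w (j + 3)) :=
      mul_nonneg (G0 j P hP) (by linarith)
    rw [h] at h3
    exact nonneg_of_mul_nonneg_right h3 (by linarith)
  have mono : ∀ j P Q, G j P ≤ G j Q → D (v j) (v (j + 1)) P ≤ D (v j) (v (j + 1)) Q := by
    intro j P Q hPQ
    have h := prop j P
    have h' := prop j Q
    have h1 := DQ j
    have h2 := GQ j
    have h3 : G j P * D (v j) (v (j + 1)) (w (j + 3)) ≤ G j Q * D (v j) (v (j + 1)) (w (j + 3)) :=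
      mul_le_mul_of_nonneg_right hPQ (by linarith)
    rw [h, h'] at h3
    exact le_of_mul_le_mul_left h3 (by linarith)
  have Dp : ∀ j, D (v j) (v (j + 1)) (p j) = 0 := by
    intro j
    have h := prop j (p j)
    rw [Gp, zero_mul] at h
    have h2 := GQ j
    rcases mul_eq_zero.1 h.symm with h3 | h3
    · linarith
    · exact h3
  -- tips
  have hmax : ∀ j : Fin 5, ∃ A ∈ K, ∀ P ∈ K, G (j + 2) P ≤ G (j + 2) A := by
    intro j
    obtain ⟨A, hA, hmx⟩ := hc.exists_isMaxOn ⟨w 0, hw 0⟩ ((aG (j + 2)).cont.continuousOn (s := K))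
    exact ⟨A, hA, fun P hP => hmx hP⟩
  choose A hA hA1 using hmax
  have nA : ∀ j, Near (8 * δ) (A j) (w j) := by
    intro j
    have h := hA1 j _ (hw j)
    have y1 : Yf (j + 2) (A j) = (g + 1 / 2) - (g - 1 / 2) * (Yf (j + 4) (A j) + Yf j (A j)) :=
      Yf_two j _
    have y2 : Yf (j + 1) (A j) = 1 + (g - 1 / 2) * Yf j (A j) - Yf (j + 4) (A j) := Yf_succ j _
    obtain ⟨-, -, w3, -, w5⟩ := Yf_w j
    rw [hG', hG', hXi', hXi', i24, w3, w5, y1, y2] at h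
    have ht := tip_near (δ := δ) (ξ := ξ (j + 2)) (A1 := Yf (j + 4) (A j)) (A2 := Yf j (A j))
      hδ0.le (by linarith) (hξ1 _) (hη _ _ (hA j)) (hη _ _ (hA j)) (by linarith)
    have h' := Fr_near j (e := 2 * δ) (X := Yf (j + 4) (A j)) (Y := Yf j (A j)) (X0 := 0)
      (Y0 := 0) (by linarith) (by rw [sub_zero]; exact ht.1) (by rw [sub_zero]; exact ht.2)
    rw [Fr_w, Fr_inv] at h'
    have e : 4 * (2 * δ) = 8 * δ := by ring
    rw [e] at h'; exact h'
  have np : ∀ j, Near (8 * δ) (p j) (Fr j (1 / 2, 0)) := by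
    intro j
    have hx := hξ j
    rw [hXi', ← hr] at hx
    have h1 := hr1 j
    have h2 := hr0 j
    have h3 := abs_le.1 (hξ1 j)
    have h4 : |(g - 1 / 2) / 2 * r j| ≤ 1 * δ := by
      rw [abs_mul]
      apply mul_le_mul _ _ (abs_nonneg _) (by norm_num)
      · rw [abs_le]; constructor <;> linarith
      · rw [abs_le]; constructor <;> linarith
    rw [abs_le] at h4
    have h' := Fr_near j (e := 2 * δ) (X := Yf (j + 4) (p j)) (Y := Yf j (p j)) (X0 := 1 / 2)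
      (Y0 := 0) (by linarith) (by rw [abs_le]; constructor <;> linarith)
      (by rw [sub_zero, ← hr, abs_le]; constructor <;> linarith)
    rw [Fr_inv] at h'
    have e : 4 * (2 * δ) = 8 * δ := by ring
    rw [e] at h'; exact h'
  -- areas
  have ar : ∀ j, |D (v (j + 4)) (v j) (v (j + 1)) - 1| ≤ 128 * δ := by
    intro j
    have h := D_near m0 m1 (nv (j + 4)) (nv j) (nv (j + 1)) (box_w _) (box_w _) (box_w _)
    have e : D (w (j + 4)) (w j) (w (j + 1)) = 1 := by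
      rw [← w_area j]; unfold D; ring
    rw [e] at h
    linarith
  have hO : ∀ j, D (v j) (v (j + 1)) (v (j + 4)) = D (v (j + 4)) (v j) (v (j + 1)) := by
    intro j; unfold D; ring
  obtain ⟨a, ha⟩ : ∃ a : Fin 5 → ℝ, ∀ j, a j = D (v (j + 4)) (v j) (v (j + 1)) :=
    ⟨_, fun j => rfl⟩
  have a1 : ∀ j, |a j - 1| ≤ 128 * δ := fun j => by rw [ha]; exact ar j
  have apos : ∀ j, 0.99 ≤ a j := fun j => by have := abs_le.1 (a1 j); linarith
  have back : ∀ j P, fr (v j) (v (j + 1)) (v (j + 4))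
      (D (v j) P (v (j + 4)) / a j, D (v j) (v (j + 1)) P / a j) = P := by
    intro j P
    have h0 : D (v j) (v (j + 1)) (v (j + 4)) ≠ 0 := by
      rw [hO, ← ha]; have := apos j; apply ne_of_gt; linarith
    have h := fr_surj h0 P
    rw [hO, ← ha] at h
    exact h
  have side4 : ∀ j, ∀ P ∈ K, 0 ≤ D (v j) P (v (j + 4)) := by
    intro j P hP
    have h := side (j + 4) P hP
    rw [i41] at h
    have e : D (v j) P (v (j + 4)) = D (v (j + 4)) (v j) P := by unfold D; ring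
    rw [e]; exact h
  refine ⟨v, fun j => D (v j) (A j) (v (j + 4)) / a j, fun j => D (v j) (v (j + 1)) (A j) / a j,
    fun j => D (v j) (p j) (v (j + 4)) / a j, ?_⟩
  constructor
  · intro j
    have := ar j
    linarith
  · have h1 := D_near m0 m1 (nv 0) (nv 1) (nv 2) (box_w _) (box_w _) (box_w _)
    have h2 := D_near m0 m1 (nv 3) (nv 4) (nv 0) (box_w _) (box_w _) (box_w _)
    have h3 := D_near m0 m1 (nv 0) (nv 2) (nv 3) (box_w _) (box_w _) (box_w _)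
    have e : D (w 0) (w 1) (w 2) + D (w 3) (w 4) (w 0) + D (w 0) (w 2) (w 3) = 5 / 2 + g := by
      simp [w, D]; linear_combination hg
    rw [abs_le] at h1 h2 h3 ⊢
    constructor <;> linarith
  · intro j
    have h := D_near m0 m1 (nv j) (np j) (nv (j + 4)) (box_w _) (box_mid _) (box_w _)
    have e : D (w j) (Fr j (1 / 2, 0)) (w (j + 4)) = 1 / 2 := by
      have e1 : D (w j) (Fr j (1 / 2, 0)) (w (j + 4)) = Yf (j + 4) (Fr j (1 / 2, 0)) := by
        unfold Yf; rw [i41]; unfold D; ring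
      rw [e1, Fr_X]
    rw [e, abs_le] at h
    have h1 := abs_le.1 (a1 j)
    have h2 := apos j
    rw [abs_le]
    constructor
    · rw [le_sub_iff_add_le, le_div_iff₀ (by linarith)]; linarith
    · rw [sub_le_iff_le_add, div_le_iff₀ (by linarith)]; linarith
  · intro j
    have h2 := apos j
    constructor
    · exact div_nonneg (side4 j _ (hA j)) (by linarith)
    · have h := D_near m0 m1 (nv j) (nA j) (nv (j + 4)) (box_w _) (box_w _) (box_w _)
      have e : D (w j) (w j) (w (j + 4)) = 0 := by unfold D; ring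
      rw [e, abs_le] at h
      rw [div_le_iff₀ (by linarith)]
      linarith
  · intro j
    have h2 := apos j
    constructor
    · exact div_nonneg (side j _ (hA j)) (by linarith)
    · have h := D_near m0 m1 (nv j) (nv (j + 1)) (nA j) (box_w _) (box_w _) (box_w _)
      have e : D (w j) (w (j + 1)) (w j) = 0 := by unfold D; ring
      rw [e, abs_le] at h
      rw [div_le_iff₀ (by linarith)]
      linarith
  · intro j
    have h := back j (p j)
    rw [Dp, zero_div] at h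
    rw [h]; exact hp j
  · intro j
    rw [back]; exact hA j
  · exact side
  · intro j P hP
    rw [back]
    have h := mono (j + 2) P (A j) (hA1 j P hP)
    rw [i21] at h
    exact h

end Pool.Agent.HBL
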