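import Pool.Agent.HBL.Fin

/-!
# Bodies between two homothetic copies of an affine-regular pentagon, in coordinates
-/

namespace Pool.Agent.HBL

theorem fr_left {O E N : ℝ × ℝ} (h : D O E N ≠ 0) (x : ℝ × ℝ) :
    (D O (fr O E N x) N / D O E N, D O E (fr O E N x) / D O E N) = x := by
  have h1 := D_fr O E N (0, 0) x (0, 1)
  have h2 := D_fr O E N (0, 0) (1, 0) x
  rw [fr_00, fr_01] at h1
  rw [fr_00, fr_10] at h2
  rw [h1, h2]
  have e1 : D (0, 0) x (0, 1) = x.1 := by unfold D; simp only; ring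
  have e2 : D (0, 0) (1, 0) x = x.2 := by unfold D; simp only; ring
  rw [e1, e2, mul_div_cancel_left₀ _ h, mul_div_cancel_left₀ _ h]

theorem fr_inj {O E N : ℝ × ℝ} (h : D O E N ≠ 0) {x y : ℝ × ℝ} (hxy : fr O E N x = fr O E N y) :
    x = y := by
  rw [← fr_left h x, ← fr_left h y, hxy]

theorem preimage_compact {O E N : ℝ × ℝ} (h : D O E N ≠ 0) {C : Set (ℝ × ℝ)} (hC : IsCompact C) :
    IsCompact (fr O E N ⁻¹' C) := by
  have hcont : Continuous fun P : ℝ × ℝ => (D O P N / D O E N, D O E P / D O E N) := by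
    unfold D
    fun_prop
  have e : fr O E N ⁻¹' C = (fun P : ℝ × ℝ => (D O P N / D O E N, D O E P / D O E N)) '' C := by
    ext x
    constructor
    · intro hx
      exact ⟨_, hx, fr_left h x⟩
    · rintro ⟨P, hP, rfl⟩
      simp only [Set.mem_preimage]
      rw [fr_surj h]; exact hP
  rw [e]
  exact hC.image hcont

theorem sum_Yf (P : ℝ × ℝ) : Yf 0 P + Yf 1 P + Yf 2 P + Yf 3 P + Yf 4 P = g + 5 / 2 := by
  have hg := g_sq
  simp [Yf, w, D]
  linear_combination hg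

theorem Aff.lin {f : ℝ × ℝ → ℝ} (hf : Aff f) (l : ℝ) (y τ : ℝ × ℝ) :
    f (l • y + τ) = l * f y + (f τ - l * f 0) := by
  obtain ⟨a, b, c, H⟩ := hf
  rw [H, H, H, H]
  simp only [Prod.fst_add, Prod.smul_fst, Prod.snd_add, Prod.smul_snd, smul_eq_mul, Prod.fst_zero,
    Prod.snd_zero]
  ring

theorem fr_lin {O E N : ℝ × ℝ} (l : ℝ) (y τ s : ℝ × ℝ) (hτ : fr O E N τ = l • O + s) :
    fr O E N (l • y + τ) = l • fr O E N y + s := by
  have h1 := congrArg Prod.fst hτ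
  have h2 := congrArg Prod.snd hτ
  simp only [fr, Prod.fst_add, Prod.smul_fst, Prod.snd_add, Prod.smul_snd, smul_eq_mul] at h1 h2
  ext
  · simp only [fr, Prod.fst_add, Prod.smul_fst, Prod.snd_add, Prod.smul_snd, smul_eq_mul]
    linear_combination h1
  · simp only [fr, Prod.fst_add, Prod.smul_fst, Prod.snd_add, Prod.smul_snd, smul_eq_mul]
    linear_combination h2

/-- Goodness and pentagons, for a body between two copies of a pentagon. -/
theorem sandwich {C : Set (ℝ × ℝ)} (hc : IsCompact C) (hC : Convex ℝ C) {O E N : ℝ × ℝ}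
    (hD : 0 < D O E N) {l1 l2 : ℝ} {t1 t2 : ℝ × ℝ} (h1 : 0 < l1) (h2 : 0 < l2)
    (hin : ∀ c ∈ C, l1 • c + t1 ∈ fr O E N '' Pst)
    (hout : ∀ q ∈ fr O E N '' Pst, ∃ c ∈ C, q = l2 • c + t2)
    (hl : l2 / l1 < 1 + 1 / 10 ^ 15) :
    Good C ∨ ∃ O E N, 0 < D O E N ∧ C = fr O E N '' Pst := by
  have g1 := g_lb
  have g2 := g_ub
  obtain ⟨i, hi⟩ : ∃ i, i = 1 / l2 := ⟨_, rfl⟩
  have hip : 0 < i := by rw [hi]; positivity
  have hil : i * l2 = 1 := by rw [hi]; field_simp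
  -- the map `F x = (fr x - t2) / l2`
  obtain ⟨O4, hO4⟩ : ∃ O4, O4 = i • (O - t2) := ⟨_, rfl⟩
  obtain ⟨E4, hE4⟩ : ∃ E4, E4 = i • (E - t2) := ⟨_, rfl⟩
  obtain ⟨N4, hN4⟩ : ∃ N4, N4 = i • (N - t2) := ⟨_, rfl⟩
  have hF : ∀ x, fr O4 E4 N4 x = i • (fr O E N x - t2) := by
    intro x
    rw [hO4, hE4, hN4]
    ext
    · simp only [fr, Prod.fst_sub, Prod.smul_fst, smul_eq_mul]; ring
    · simp only [fr, Prod.snd_sub, Prod.smul_snd, smul_eq_mul]; ring
  have hD4 : D O4 E4 N4 = i ^ 2 * D O E N := by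
    rw [hO4, hE4, hN4]
    simp only [D, Prod.fst_sub, Prod.smul_fst, Prod.snd_sub, Prod.smul_snd, smul_eq_mul]; ring
  have hD4p : 0 < D O4 E4 N4 := by rw [hD4]; positivity
  have hFc : ∀ x, fr O E N x = l2 • fr O4 E4 N4 x + t2 := by
    intro x
    rw [hF, smul_smul, mul_comm l2 i, hil, one_smul, sub_add_cancel]
  obtain ⟨K, hK⟩ : ∃ K, K = fr O4 E4 N4 ⁻¹' C := ⟨_, rfl⟩
  have hKc : IsCompact K := by rw [hK]; exact preimage_compact hD4p.ne' hc
  have hKv : Convex ℝ K := by rw [hK]; exact convex_fr hC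
  have hw : ∀ j, w j ∈ K := by
    intro j
    obtain ⟨c, hcC, hq⟩ := hout (fr O E N (w j)) ⟨w j, subset_convexHull ℝ _ ⟨j, rfl⟩, rfl⟩
    rw [hK, Set.mem_preimage, hF, hq, add_sub_cancel_right, smul_smul, hil, one_smul]
    exact hcC
  -- the relation `x = λ y + τ`
  obtain ⟨l, hl'⟩ : ∃ l, l = l2 / l1 := ⟨_, rfl⟩
  rw [← hl'] at hl
  have hll : l * l1 = l2 := by rw [hl']; field_simp
  have hlp : 0 < l := by rw [hl']; positivity
  obtain ⟨s, hs⟩ : ∃ s, s = t2 - l • t1 := ⟨_, rfl⟩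
  obtain ⟨τ, hτ⟩ : ∃ τ, fr O E N τ = l • O + s := ⟨_, fr_surj hD.ne' (l • O + s)⟩
  have rel : ∀ x ∈ K, ∃ y ∈ Pst, x = l • y + τ := by
    intro x hx
    rw [hK, Set.mem_preimage] at hx
    obtain ⟨y, hy, hyc⟩ := hin _ hx
    refine ⟨y, hy, fr_inj hD.ne' ?_⟩
    rw [fr_lin l y τ s hτ, hyc, hFc, hs, smul_add, smul_smul, hll]
    abel
  have hk : ∀ j, Yf j τ - l * Yf j 0 ≤ 0 := by
    intro j
    obtain ⟨y, hy, he⟩ := rel _ (hw j)
    have h := (aff_Yf j).lin l y τ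
    rw [← he, (Yf_w j).1] at h
    have hy0 := Yf_nonneg_Pst hy j
    have : 0 ≤ l * Yf j y := by positivity
    linarith
  have hsum : ∀ j, -((l - 1) * (g + 5 / 2)) ≤ Yf j τ - l * Yf j 0 := by
    intro j
    have s1 := sum_Yf τ
    have s2 := sum_Yf 0
    have k0 := hk 0
    have k1 := hk 1
    have k2 := hk 2
    have k3 := hk 3
    have k4 := hk 4
    have e : (Yf 0 τ - l * Yf 0 0) + (Yf 1 τ - l * Yf 1 0) + (Yf 2 τ - l * Yf 2 0)
      + (Yf 3 τ - l * Yf 3 0) + (Yf 4 τ - l * Yf 4 0) = -((l - 1) * (g + 5 / 2)) := by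
      linear_combination s1 - l * s2
    fin_cases j
    · simp only [Fin.zero_eta, Fin.isValue]; linarith
    · simp only [Fin.mk_one, Fin.isValue]; linarith
    · simp only [Fin.reduceFinMk, Fin.isValue]; linarith
    · simp only [Fin.reduceFinMk, Fin.isValue]; linarith
    · simp only [Fin.reduceFinMk, Fin.isValue]; linarith
  have hη : ∀ j, ∀ P ∈ K, -(1 / 10 ^ 14) ≤ Yf j P := by
    intro j P hP
    obtain ⟨y, hy, rfl⟩ := rel _ hP
    rw [(aff_Yf j).lin]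
    have h3 := hsum j
    have hy0 := Yf_nonneg_Pst hy j
    have h4 : 0 ≤ l * Yf j y := by positivity
    have h5 : (l - 1) * (g + 5 / 2) ≤ 1 / 10 ^ 15 * 4 := by
      rcases le_total 0 (l - 1) with h6 | h6
      · exact mul_le_mul (by linarith) (by linarith) (by linarith) (by norm_num)
      · have : (l - 1) * (g + 5 / 2) ≤ 0 := mul_nonpos_of_nonpos_of_nonneg h6 (by linarith)
        refine this.trans (by norm_num)
    norm_num at h5 ⊢
    linarith
  rcases main_std hKc hKv hw hη with h | ⟨O', E', N', hD', he⟩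
  · left
    rw [hK] at h
    exact Good.of_fr hD4p h
  · right
    refine ⟨fr O4 E4 N4 O', fr O4 E4 N4 E', fr O4 E4 N4 N', ?_, ?_⟩
    · rw [D_fr]; positivity
    · have e1 : C = fr O4 E4 N4 '' K := by
        rw [hK, Set.image_preimage_eq]
        intro P
        exact ⟨_, fr_surj hD4p.ne' P⟩
      rw [e1, he, Set.image_image]
      apply Set.image_congr
      intro x _
      rw [fr_fr]

end Pool.Agent.HBL
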