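import Pool.Agent.HBL.Comb

/-!
# The standard affine-regular pentagon and touching points
-/

namespace Pool.Agent.HBL

/-- The vertices of the standard affine-regular pentagon. -/
noncomputable def w : Fin 5 → ℝ × ℝ :=
  ![(0, 0), (1, 0), (g + 1 / 2, 1), (1, g + 1 / 2), (0, 1)]

/-- The functional of the side `j`. -/
noncomputable def Yf (j : Fin 5) (P : ℝ × ℝ) : ℝ := D (w j) (w (j + 1)) P

theorem Yf_succ (j : Fin 5) (P : ℝ × ℝ) :
    Yf (j + 1) P = 1 + (g - 1 / 2) * Yf j P - Yf (j + 4) P := by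
  have hg := g_sq
  fin_cases j
  · simp [Yf, w, D]; ring
  · simp [Yf, w, D]; linear_combination (1 - P.2) * hg
  · simp [Yf, w, D]; linear_combination (P.1 + P.2 - g - 1 / 2) * hg
  · simp [Yf, w, D]; linear_combination (1 - P.1) * hg
  · simp [Yf, w, D]; ring

theorem i11 (j : Fin 5) : j + 1 + 1 = j + 2 := by revert j; decide
theorem i14 (j : Fin 5) : j + 1 + 4 = j := by revert j; decide
theorem i41 (j : Fin 5) : j + 4 + 1 = j := by revert j; decide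
theorem i44 (j : Fin 5) : j + 4 + 4 = j + 3 := by revert j; decide
theorem i21 (j : Fin 5) : j + 2 + 1 = j + 3 := by revert j; decide
theorem i24 (j : Fin 5) : j + 2 + 4 = j + 1 := by revert j; decide

theorem Yf_two (j : Fin 5) (P : ℝ × ℝ) :
    Yf (j + 2) P = (g + 1 / 2) - (g - 1 / 2) * (Yf (j + 4) P + Yf j P) := by
  have hg := g_sq
  have h1 := Yf_succ (j + 1) P
  have h2 := Yf_succ j P
  rw [i11, i14, h2] at h1
  rw [h1]
  linear_combination (Yf j P) * hg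

theorem Yf_three (j : Fin 5) (P : ℝ × ℝ) :
    Yf (j + 3) P = 1 + (g - 1 / 2) * Yf (j + 4) P - Yf j P := by
  have h1 := Yf_succ (j + 4) P
  rw [i41, i44] at h1
  linarith

theorem w_area (j : Fin 5) : D (w j) (w (j + 1)) (w (j + 4)) = 1 := by
  have hg := g_sq
  fin_cases j
  · simp [w, D]
  · simp [w, D]
  · simp [w, D]; linear_combination hg
  · simp [w, D]; linear_combination hg
  · simp [w, D]

theorem w_coord (j : Fin 5) : (0 ≤ (w j).1 ∧ (w j).1 ≤ 1.62) ∧ (0 ≤ (w j).2 ∧ (w j).2 ≤ 1.62) := by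
  have g1 := g_lb
  have g2 := g_ub
  fin_cases j <;> simp [w] <;> norm_num <;> (try constructor) <;> linarith

/-- The frame of the corner `j`. -/
noncomputable def Fr (j : Fin 5) (P : ℝ × ℝ) : ℝ × ℝ := fr (w j) (w (j + 1)) (w (j + 4)) P

theorem Fr_Y (j : Fin 5) (P : ℝ × ℝ) : Yf j (Fr j P) = P.2 := by
  have h := D_fr (w j) (w (j + 1)) (w (j + 4)) (0, 0) (1, 0) P
  rw [fr_00, fr_10, w_area] at h
  unfold Yf Fr
  rw [h]
  unfold D; simp only; ring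

theorem Fr_X (j : Fin 5) (P : ℝ × ℝ) : Yf (j + 4) (Fr j P) = P.1 := by
  have h := D_fr (w j) (w (j + 1)) (w (j + 4)) (0, 1) (0, 0) P
  rw [fr_00, fr_01, w_area] at h
  unfold Yf Fr
  rw [i41, h]
  unfold D; simp only; ring

theorem Fr_inv (j : Fin 5) (P : ℝ × ℝ) : Fr j (Yf (j + 4) P, Yf j P) = P := by
  have h0 : D (w j) (w (j + 1)) (w (j + 4)) ≠ 0 := by rw [w_area]; norm_num
  have h := fr_surj h0 P
  rw [w_area, div_one, div_one] at h
  have e : Yf (j + 4) P = D (w j) P (w (j + 4)) := by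
    unfold Yf; rw [i41]; unfold D; ring
  unfold Fr
  rw [e]
  exact h

theorem Fr_w (j : Fin 5) : Fr j (0, 0) = w j := fr_00 _ _ _

/-- Affine functionals. -/
def Aff (f : ℝ × ℝ → ℝ) : Prop := ∃ α β γ : ℝ, ∀ P, f P = α + β * P.1 + γ * P.2

theorem aff_D (A B : ℝ × ℝ) : Aff (fun P => D A B P) :=
  ⟨-(B.1 - A.1) * A.2 + (B.2 - A.2) * A.1, -(B.2 - A.2), B.1 - A.1,
    fun P => by simp only [D]; ring⟩

theorem aff_Yf (j : Fin 5) : Aff (Yf j) := aff_D _ _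

theorem Aff.add {f h : ℝ × ℝ → ℝ} (hf : Aff f) (hh : Aff h) : Aff (fun P => f P + h P) := by
  obtain ⟨a, b, c, H⟩ := hf
  obtain ⟨a', b', c', H'⟩ := hh
  exact ⟨a + a', b + b', c + c', fun P => by simp only [H, H']; ring⟩

theorem Aff.smul {f : ℝ × ℝ → ℝ} (hf : Aff f) (r : ℝ) : Aff (fun P => r * f P) := by
  obtain ⟨a, b, c, H⟩ := hf
  exact ⟨r * a, r * b, r * c, fun P => by simp only [H]; ring⟩

theorem aff_const (r : ℝ) : Aff (fun _ => r) := ⟨r, 0, 0, fun P => by ring⟩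

theorem Aff.cont {f : ℝ × ℝ → ℝ} (hf : Aff f) : Continuous f := by
  obtain ⟨a, b, c, H⟩ := hf
  have : f = fun P => a + b * P.1 + c * P.2 := funext H
  rw [this]
  fun_prop

theorem Aff.comb {f : ℝ × ℝ → ℝ} (hf : Aff f) (P Q : ℝ × ℝ) (s : ℝ) :
    f ((1 - s) • P + s • Q) = (1 - s) * f P + s * f Q := by
  obtain ⟨a, b, c, H⟩ := hf
  rw [H, H, H]
  simp only [Prod.fst_add, Prod.smul_fst, Prod.snd_add, Prod.smul_snd, smul_eq_mul]
  ring

/-- Two affine functionals that vanish at the same two points are proportional. -/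
theorem Aff.prop {f : ℝ × ℝ → ℝ} (hf : Aff f) {A B : ℝ × ℝ} (hA : f A = 0) (hB : f B = 0)
    (P Q : ℝ × ℝ) : f P * D A B Q = f Q * D A B P := by
  obtain ⟨a, b, c, H⟩ := hf
  rw [H] at hA hB
  rw [H, H]
  unfold D
  linear_combination ((P.1 - Q.1) * (B.2 - A.2) - (P.2 - Q.2) * (B.1 - A.1)
    + ((P.1 - A.1) * (Q.2 - A.2) - (P.2 - A.2) * (Q.1 - A.1)) * 0) * hA
    + ((P.1 - A.1) * (Q.2 - A.2) - (P.2 - A.2) * (Q.1 - A.1)) * (hB - hA)

/-- A touching point near the middle of a side. -/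
theorem side_pt {K : Set (ℝ × ℝ)} (hc : IsCompact K) (hK : Convex ℝ K) (hne : K.Nonempty)
    {Y X : ℝ × ℝ → ℝ} (hY : Aff Y) (hX : Aff X) :
    ∃ p ∈ K, (∀ q ∈ K, 0 ≤ Y q - Y p + 2 * X p * (X q - X p)) ∧
      ∀ q ∈ K, Y p + X p ^ 2 ≤ Y q + X q ^ 2 := by
  obtain ⟨p, hp, hmin⟩ := hc.exists_isMinOn hne
    ((hY.cont.add (hX.cont.pow 2)).continuousOn (s := K))
  have hm : ∀ q ∈ K, Y p + X p ^ 2 ≤ Y q + X q ^ 2 := fun q hq => by
    have := hmin hq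
    simpa using this
  refine ⟨p, hp, ?_, hm⟩
  intro q hq
  by_contra hcon
  have hL := not_le.1 hcon
  obtain ⟨L, hLd⟩ : ∃ L, L = Y q - Y p + 2 * X p * (X q - X p) := ⟨_, rfl⟩
  obtain ⟨M, hMd⟩ : ∃ M, M = (X q - X p) ^ 2 := ⟨_, rfl⟩
  rw [← hLd] at hL
  have hM : 0 ≤ M := by rw [hMd]; positivity
  have key : ∀ s : ℝ, 0 ≤ s → s ≤ 1 → 0 ≤ s * L + s ^ 2 * M := by
    intro s h0 h1
    have hmem := hK hp hq (a := 1 - s) (b := s) (by linarith) h0 (by ring)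
    have h := hm _ hmem
    rw [hY.comb, hX.comb] at h
    rw [hLd, hMd]
    nlinarith
  have hden : 0 < M + 1 - L := by linarith
  obtain ⟨s, hs⟩ : ∃ s, s = -L / (M + 1 - L) := ⟨_, rfl⟩
  have hs0 : 0 < s := by rw [hs]; apply div_pos <;> linarith
  have hs1 : s ≤ 1 := by rw [hs, div_le_one hden]; linarith
  have h := key s hs0.le hs1
  have h2 : 0 ≤ L + s * M := by
    have : 0 ≤ s * (L + s * M) := by nlinarith
    exact nonneg_of_mul_nonneg_right this hs0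
  have h3 : s * (M + 1 - L) = -L := by rw [hs]; field_simp
  nlinarith

/-- The intersection of two neighbouring supporting lines. -/
theorem corner {δ r r' ξ ξ' : ℝ} (hδ : 0 ≤ δ) (hδ1 : δ ≤ 1 / 100) (hr : -δ ^ 2 ≤ r ∧ r ≤ 0)
    (hr' : -δ ^ 2 ≤ r' ∧ r' ≤ 0) (hξ : |ξ| ≤ δ) (hξ' : |ξ'| ≤ δ) :
    ∃ X Y : ℝ, |X| ≤ 2 * δ ∧ |Y| ≤ 2 * δ ∧
      Y - r + 2 * ξ * (X - (g - 1 / 2) / 2 * Y - 1 / 2 - ξ) = 0 ∧
      X - r' + 2 * ξ' * (1 - Y + (g - 1 / 2) / 2 * X - 1 / 2 - ξ') = 0 := by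
  have g1 := g_lb
  have g2 := g_ub
  rw [abs_le] at hξ hξ'
  obtain ⟨c, hc⟩ : ∃ c, c = (g - 1 / 2) / 2 := ⟨_, rfl⟩
  have c1 : 0.309 ≤ c := by rw [hc]; linarith
  have c2 : c ≤ 0.3091 := by rw [hc]; linarith
  rw [← hc]
  obtain ⟨R, hR⟩ : ∃ R, R = r + ξ + 2 * ξ ^ 2 := ⟨_, rfl⟩
  obtain ⟨R', hR'⟩ : ∃ R', R' = r' - ξ' + 2 * ξ' ^ 2 := ⟨_, rfl⟩
  obtain ⟨d, hd⟩ : ∃ d, d = (1 + c * (2 * ξ')) * (1 - c * (2 * ξ)) + 2 * ξ' * (2 * ξ) := ⟨_, rfl⟩
  have sq1 : ξ ^ 2 ≤ δ ^ 2 := by nlinarith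
  have sq2 : ξ' ^ 2 ≤ δ ^ 2 := by nlinarith
  have dd : δ ^ 2 ≤ δ / 100 := by nlinarith
  have R1 : |R| ≤ 1.03 * δ := by
    rw [abs_le, hR]; constructor <;> nlinarith [sq_nonneg ξ]
  have R1' : |R'| ≤ 1.03 * δ := by
    rw [abs_le, hR']; constructor <;> nlinarith [sq_nonneg ξ']
  have cx : |c * (2 * ξ)| ≤ 0.01 := by
    rw [abs_le]; constructor <;> nlinarith
  have cx' : |c * (2 * ξ')| ≤ 0.01 := by
    rw [abs_le]; constructor <;> nlinarith
  have xx : |2 * ξ' * (2 * ξ)| ≤ 0.001 := by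
    rw [abs_mul]
    have h1 : |2 * ξ'| ≤ 0.02 := by rw [abs_le]; constructor <;> linarith
    have h2 : |2 * ξ| ≤ 0.02 := by rw [abs_le]; constructor <;> linarith
    have := mul_le_mul h1 h2 (abs_nonneg _) (by norm_num)
    linarith
  rw [abs_le] at cx cx' xx
  have hd1 : 0.9 ≤ d := by
    rw [hd]
    have : 0.98 ≤ (1 + c * (2 * ξ')) * (1 - c * (2 * ξ)) :=
      ml _ (by linarith : 0.99 ≤ 1 + c * (2 * ξ')) (by linarith : 0.99 ≤ 1 - c * (2 * ξ))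
        (by norm_num) (by norm_num) (by norm_num)
    linarith
  have hd0 : d ≠ 0 := by
    apply ne_of_gt; linarith
  have bX : |R' * (1 - c * (2 * ξ)) + 2 * ξ' * R| ≤ 1.8 * δ := by
    have h1 : |R' * (1 - c * (2 * ξ))| ≤ 1.03 * δ * 1.01 := by
      rw [abs_mul]
      apply mul_le_mul R1' _ (abs_nonneg _) (by positivity)
      rw [abs_le]; constructor <;> linarith
    have h2 : |2 * ξ' * R| ≤ 0.02 * (1.03 * δ) := by
      rw [abs_mul]
      apply mul_le_mul _ R1 (abs_nonneg _) (by norm_num)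
      rw [abs_le]; constructor <;> linarith
    exact (abs_add_le _ _).trans (by linarith)
  have bY : |(1 + c * (2 * ξ')) * R - 2 * ξ * R'| ≤ 1.8 * δ := by
    have h1 : |(1 + c * (2 * ξ')) * R| ≤ 1.01 * (1.03 * δ) := by
      rw [abs_mul]
      apply mul_le_mul _ R1 (abs_nonneg _) (by norm_num)
      rw [abs_le]; constructor <;> linarith
    have h2 : |2 * ξ * R'| ≤ 0.02 * (1.03 * δ) := by
      rw [abs_mul]
      apply mul_le_mul _ R1' (abs_nonneg _) (by norm_num)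
      rw [abs_le]; constructor <;> linarith
    exact (abs_sub _ _).trans (by linarith)
  refine ⟨(R' * (1 - c * (2 * ξ)) + 2 * ξ' * R) / d, ((1 + c * (2 * ξ')) * R - 2 * ξ * R') / d,
    ?_, ?_, ?_, ?_⟩
  · rw [abs_div, abs_of_pos (by linarith : 0 < d), div_le_iff₀ (by linarith)]
    nlinarith
  · rw [abs_div, abs_of_pos (by linarith : 0 < d), div_le_iff₀ (by linarith)]
    nlinarith
  · field_simp
    rw [hd, hR, hR']; ring
  · field_simp
    rw [hd, hR, hR']; ring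

end Pool.Agent.HBL
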