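import Pool.Agent.HBL.Basic

/-!
# The triangle with one vertex at the top, in the frame of the opposite side
-/

namespace Pool.Agent.HBL

/-- Lower bound of a product. -/
theorem ml {a b a1 b1 : ℝ} (c : ℝ) (h1 : a1 ≤ a) (h2 : b1 ≤ b) (h3 : 0 ≤ a1) (h4 : 0 ≤ b1)
    (h : c ≤ a1 * b1) : c ≤ a * b :=
  h.trans (mul_le_mul h1 h2 h4 (h3.trans h1))

/-- Upper bound of a product. -/
theorem mu {a b a2 b2 : ℝ} (c : ℝ) (h1 : a ≤ a2) (h2 : b ≤ b2) (h3 : 0 ≤ a) (h4 : 0 ≤ b)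
    (h : a2 * b2 ≤ c) : a * b ≤ c :=
  (mul_le_mul h1 h2 h4 (h3.trans h1)).trans h

/-- The excess functional of the triangle with base at height `s`. -/
noncomputable def Gf (a t k b s : ℝ) : ℝ :=
  (1 + k * s) * (s - g * (t - s)) + a * (1 - s) + (b - s) * (1 - a + k * t)

set_option maxHeartbeats 4000000 in
theorem T1_frame {K : Set (ℝ × ℝ)} (hK : Convex ℝ K)
    {a t k b s x0 y0 x1 y1 x2 y2 x3 y3 x4 y4 h z : ℝ}
    (ha : 0.999 ≤ a ∧ a ≤ 1.001) (hb : 0.999 ≤ b ∧ b ≤ 1.001) (ht : 1.617 ≤ t ∧ t ≤ 1.619)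
    (hk : 0.617 ≤ k ∧ k ≤ 0.619) (hs : 0.381 ≤ s ∧ s ≤ 0.383)
    (hh : 0.499 ≤ h ∧ h ≤ 0.501) (hz : 0.499 ≤ z ∧ z ≤ 0.501)
    (hx0 : 0 ≤ x0 ∧ x0 ≤ 0.001) (hy0 : 0 ≤ y0 ∧ y0 ≤ 0.001)
    (hx1 : 0 ≤ x1 ∧ x1 ≤ 0.001) (hy1 : 0 ≤ y1 ∧ y1 ≤ 0.001)
    (hx2 : 0 ≤ x2 ∧ x2 ≤ 0.001) (hy2 : 0 ≤ y2 ∧ y2 ≤ 0.001)
    (hx3 : 0 ≤ x3 ∧ x3 ≤ 0.001) (hy3 : 0 ≤ y3 ∧ y3 ≤ 0.001)
    (hx4 : 0 ≤ x4 ∧ x4 ≤ 0.001) (hy4 : 0 ≤ y4 ∧ y4 ≤ 0.001)
    (B1 : ((0, h) : ℝ × ℝ) ∈ K) (B2 : ((x2, y2) : ℝ × ℝ) ∈ K)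
    (C1 : ((1 + z * (k * b), z * b) : ℝ × ℝ) ∈ K)
    (C2 : ((1 + x3 * (k * b) - y3, x3 * b) : ℝ × ℝ) ∈ K)
    (A1 : ((a * (1 - x0) + y0 * (1 + k * b - a), t - x0 * (t - 1) - y0 * (t - b)) : ℝ × ℝ) ∈ K)
    (S2 : ∀ P ∈ K, 0 ≤ P.2)
    (S0 : ∀ P ∈ K, 0 ≤ (t - 1) * P.1 - a * P.2 + a)
    (S4 : ∀ P ∈ K, 0 ≤ (a - (1 + k * b)) * (P.2 - b) - (t - b) * (P.1 - (1 + k * b)))
    (S3 : ∀ P ∈ K, k * P.2 - P.1 ≤ k - (k * x1 + y1 * (a - k * (t - 1))))
    (S1 : ∀ P ∈ K, P.1 ≤ (1 + k * b) - (x4 * (1 + k * b - a) + y4 * (k * b))) :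
    Good K ∨ 0 ≤ Gf a t k b s + 0.63 * (x0 + y0) + 0.4 * (x2 + y3)
      - 0.6 * (x1 + y1) - 0.6 * (x4 + y4) := by
  obtain ⟨ha1, ha2⟩ := ha
  obtain ⟨hb1, hb2⟩ := hb
  obtain ⟨ht1, ht2⟩ := ht
  obtain ⟨hk1, hk2⟩ := hk
  obtain ⟨hs1, hs2⟩ := hs
  obtain ⟨hh1, hh2⟩ := hh
  obtain ⟨hz1, hz2⟩ := hz
  obtain ⟨hx01, hx02⟩ := hx0
  obtain ⟨hy01, hy02⟩ := hy0
  obtain ⟨hx11, hx12⟩ := hx1
  obtain ⟨hy11, hy12⟩ := hy1
  obtain ⟨hx21, hx22⟩ := hx2
  obtain ⟨hy21, hy22⟩ := hy2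
  obtain ⟨hx31, hx32⟩ := hx3
  obtain ⟨hy31, hy32⟩ := hy3
  obtain ⟨hx41, hx42⟩ := hx4
  obtain ⟨hy41, hy42⟩ := hy4
  have g1 := g_lb
  have g2 := g_ub
  -- the points on the base
  obtain ⟨β, hβ⟩ : ∃ β, β = x2 * ((h - s) / (h - y2)) := ⟨_, rfl⟩
  obtain ⟨β', hβ'⟩ : ∃ β', β' = y3 * ((z * b - s) / (z * b - x3 * b)) := ⟨_, rfl⟩
  have zb1 : 0.4985 ≤ z * b := ml _ hz1 hb1 (by norm_num) (by norm_num) (by norm_num)
  have zb2 : z * b ≤ 0.5016 := mu _ hz2 hb2 (by linarith only [hz1, g1, g2]) (by linarith only [hb1, g1, g2]) (by norm_num)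
  have xb1 : 0 ≤ x3 * b := mul_nonneg hx31 (by linarith only [hb1, g1, g2])
  have xb2 : x3 * b ≤ 0.0011 := mu _ hx32 hb2 hx31 (by linarith only [hb1, g1, g2]) (by norm_num)
  have r1 : 0 ≤ (h - s) / (h - y2) := by apply div_nonneg <;> linarith only [hs2, hh1, g1, g2, hy22]
  have r2 : (h - s) / (h - y2) ≤ 0.242 := by
    rw [div_le_iff₀ (by linarith only [hh1, hy22, g1, g2])]; linarith only [hs1, hh2, hy22, g1, g2]
  have r1' : 0 ≤ (z * b - s) / (z * b - x3 * b) := by apply div_nonneg <;> linarith only [hs2, g1, g2, zb1, xb2]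
  have r2' : (z * b - s) / (z * b - x3 * b) ≤ 0.2435 := by
    rw [div_le_iff₀ (by linarith only [g1, g2, zb1, xb2])]; linarith only [hs1, g1, g2, zb2, xb2]
  have hβ0 : 0 ≤ β := by rw [hβ]; positivity
  have hβ1 : β ≤ 0.242 * x2 := by
    rw [hβ]; have := mul_le_mul_of_nonneg_left r2 hx21; linarith only [this]
  have hβ0' : 0 ≤ β' := by rw [hβ']; positivity
  have hβ1' : β' ≤ 0.2435 * y3 := by
    rw [hβ']; have := mul_le_mul_of_nonneg_left r2' hy31; linarith only [this]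
  have hB : ((β, s) : ℝ × ℝ) ∈ K := by
    have hn : h - y2 ≠ 0 := by
      apply ne_of_gt; linarith only [hh1, hy22, g1, g2]
    have := hK B1 B2 (a := 1 - (h - s) / (h - y2)) (b := (h - s) / (h - y2))
      (by linarith only [g1, g2, r2]) r1 (by ring)
    convert this using 1
    ext
    · simp only [Prod.fst_add, Prod.smul_fst, smul_eq_mul]
      rw [hβ]; ring
    · simp only [Prod.snd_add, Prod.smul_snd, smul_eq_mul]
      field_simp
      ring
  have hC : ((1 + k * s - β', s) : ℝ × ℝ) ∈ K := by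
    have hn : z * b - x3 * b ≠ 0 := by
      apply ne_of_gt; linarith only [g1, g2, zb1, xb2]
    obtain ⟨r, hr⟩ : ∃ r, r = (z * b - s) / (z * b - x3 * b) := ⟨_, rfl⟩
    have hrr : r * (z * b - x3 * b) = z * b - s := by rw [hr]; exact div_mul_cancel₀ _ hn
    rw [← hr] at r1' r2'
    have := hK C1 C2 (a := 1 - r) (b := r) (by linarith only [g1, g2, r2']) r1' (by ring)
    convert this using 1
    rw [← hr] at hβ'
    ext
    · simp only [Prod.fst_add, Prod.smul_fst, smul_eq_mul]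
      rw [hβ']; linear_combination k * hrr
    · simp only [Prod.snd_add, Prod.smul_snd, smul_eq_mul]
      linear_combination hrr
  obtain ⟨X, hX⟩ : ∃ X, X = a * (1 - x0) + y0 * (1 + k * b - a) := ⟨_, rfl⟩
  obtain ⟨H, hH⟩ : ∃ H, H = t - x0 * (t - 1) - y0 * (t - b) := ⟨_, rfl⟩
  obtain ⟨c, hc⟩ : ∃ c, c = 1 + k * s - β' := ⟨_, rfl⟩
  rw [← hX, ← hH] at A1
  rw [← hc] at hC
  -- bounds
  have kb1 : 0.6163 ≤ k * b := ml _ hk1 hb1 (by norm_num) (by norm_num) (by norm_num)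
  have kb2 : k * b ≤ 0.6197 := mu _ hk2 hb2 (by linarith only [hk1, g1, g2]) (by linarith only [hb1, g1, g2]) (by norm_num)
  have ks1 : 0.235 ≤ k * s := ml _ hk1 hs1 (by norm_num) (by norm_num) (by norm_num)
  have ks2 : k * s ≤ 0.2371 := mu _ hk2 hs2 (by linarith only [hk1, g1, g2]) (by linarith only [hs1, g1, g2]) (by norm_num)
  have kt1 : 0.997 ≤ k * t := ml _ hk1 ht1 (by norm_num) (by norm_num) (by norm_num)
  have kt2 : k * t ≤ 1.0022 := mu _ hk2 ht2 (by linarith only [hk1, g1, g2]) (by linarith only [ht1, g1, g2]) (by norm_num)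
  have ax1 : 0.998 ≤ a * (1 - x0) :=
    ml _ ha1 (by linarith only [hx02] : (0.999 : ℝ) ≤ 1 - x0) (by norm_num) (by norm_num) (by norm_num)
  have yk1 : 0 ≤ y0 * (1 + k * b - a) := mul_nonneg hy01 (by linarith only [ha2, g1, g2, kb1])
  have yk2 : y0 * (1 + k * b - a) ≤ 0.0007 :=
    mu _ hy02 (by linarith only [ha1, g1, g2, kb2] : 1 + k * b - a ≤ 0.63) hy01 (by linarith only [ha2, g1, g2, kb1]) (by norm_num)
  have X1 : 0.998 ≤ X := by rw [hX]; linarith only [ax1, yk1]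
  have X2 : X ≤ 1.0017 := by
    rw [hX]
    have : a * (1 - x0) ≤ 1.001 :=
      mu _ ha2 (by linarith only [hx01] : 1 - x0 ≤ 1) (by linarith only [ha1, g1, g2]) (by linarith only [hx02, g1, g2]) (by norm_num)
    linarith only [yk2, this]
  have xt1 : 0 ≤ x0 * (t - 1) := mul_nonneg hx01 (by linarith only [ht1, g1, g2])
  have xt2 : x0 * (t - 1) ≤ 0.00062 :=
    mu _ hx02 (by linarith only [ht2] : t - 1 ≤ 0.619) hx01 (by linarith only [ht1, g1, g2]) (by norm_num)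
  have yt1 : 0 ≤ y0 * (t - b) := mul_nonneg hy01 (by linarith only [hb2, ht1, g1, g2])
  have yt2 : y0 * (t - b) ≤ 0.00062 :=
    mu _ hy02 (by linarith only [hb1, ht2] : t - b ≤ 0.62) hy01 (by linarith only [hb2, ht1, g1, g2]) (by norm_num)
  have H1 : 1.6157 ≤ H := by rw [hH]; linarith only [ht1, g1, g2, xt2, yt2]
  have H2 : H ≤ 1.619 := by rw [hH]; linarith only [ht2, xt1, yt1]
  have c1 : 1.2347 ≤ c := by rw [hc]; linarith only [hy32, g1, g2, hβ1', ks1]
  have c2 : c ≤ 1.2371 := by rw [hc]; linarith only [hβ0', ks2]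
  have Dl : a - k * (t - 1) = a - (k * t - k) := by ring
  have Dl1 : 0.6138 ≤ a - k * (t - 1) := by rw [Dl]; linarith only [ha1, hk1, kt2]
  have Dl2 : a - k * (t - 1) ≤ 0.623 := by rw [Dl]; linarith only [ha2, hk2, kt1]
  obtain ⟨q, hq⟩ : ∃ q, q = ((H - s) * a - (X - β) * (t - 1)) / (a - k * (t - 1)) := ⟨_, rfl⟩
  obtain ⟨p, hp⟩ : ∃ p, p = ((X - β) - k * (H - s)) / (a - k * (t - 1)) := ⟨_, rfl⟩
  have hqm : q * (a - k * (t - 1)) = (H - s) * a - (X - β) * (t - 1) := by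
    rw [hq]; exact div_mul_cancel₀ _ (by linarith only [ha1, hk1, g1, g2, kt2])
  have hpm : p * (a - k * (t - 1)) = (X - β) - k * (H - s) := by
    rw [hp]; exact div_mul_cancel₀ _ (by linarith only [ha1, hk1, g1, g2, kt2])
  have hp0 : 0 ≤ p := by
    rw [hp]
    apply div_nonneg _ (by linarith only [ha1, hk1, g1, g2, kt2])
    have : k * (H - s) ≤ 0.767 :=
      mu _ hk2 (by linarith only [ht2, hs1, hH, xt1, yt1] : H - s ≤ 1.238) (by linarith only [hk1, g1, g2]) (by linarith only [ht1, hs2, g1, g2, hH, xt2, yt2]) (by norm_num)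
    linarith only [hx22, g1, g2, hβ1, hX, ax1, yk1, this]
  have hq1 : 0.98 ≤ q := by
    rw [hq, le_div_iff₀ (by linarith only [ha1, hk1, g1, g2, kt2])]
    have h1 : 1.231 ≤ (H - s) * a :=
      ml _ (by linarith only [ht1, hs2, g1, g2, hH, xt2, yt2] : (1.2327 : ℝ) ≤ H - s) ha1 (by norm_num) (by norm_num) (by norm_num)
    have h2 : (X - β) * (t - 1) ≤ 0.62006 :=
      mu _ (by linarith only [hβ0, X2] : X - β ≤ 1.0017) (by linarith only [ht2] : t - 1 ≤ 0.619) (by linarith only [hx22, g1, g2, hβ1, hX, ax1, yk1])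
        (by linarith only [ht1, g1, g2]) (by norm_num)
    linarith only [ha2, hk2, g1, g2, kt1, h1, h2]
  obtain ⟨p', hp'⟩ : ∃ p', p' = (c - X) / (1 + k * b - a) := ⟨_, rfl⟩
  obtain ⟨q', hq'⟩ : ∃ q', q' = (H - s) - p' * (t - b) := ⟨_, rfl⟩
  have hpm' : p' * (1 + k * b - a) = c - X := by
    rw [hp']
    have : 1 + k * b - a ≠ 0 := by
      apply ne_of_gt; linarith only [ha2, g1, g2, kb1]
    exact div_mul_cancel₀ _ this
  have hp0' : 0 ≤ p' := by
    rw [hp']
    apply div_nonneg <;> linarith only [hy32, g1, g2, hβ1', hc, ks1, X2, ha2, kb1]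
  have hp2' : p' ≤ 0.39 := by
    rw [hp', div_le_iff₀ (by linarith only [ha2, g1, g2, kb1])]
    linarith only [ha2, g1, g2, hβ0', hX, hc, kb1, ks2, ax1, yk1]
  have hq1' : 0.98 ≤ q' := by
    rw [hq']
    have : p' * (t - b) ≤ 0.2419 :=
      mu _ hp2' (by linarith only [hb1, ht2] : t - b ≤ 0.62) hp0' (by linarith only [hb2, ht1, g1, g2]) (by norm_num)
    linarith only [ht1, hs2, g1, g2, hH, xt2, yt2, this]
  -- identities for p, q
  have i1 : q + p * (t - 1) = H - s := by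
    have hD : a - k * (t - 1) ≠ 0 := by
      apply ne_of_gt; linarith only [ha1, hk1, g1, g2, kt2]
    have : (q + p * (t - 1)) * (a - k * (t - 1)) = (H - s) * (a - k * (t - 1)) := by
      linear_combination hqm + (t - 1) * hpm
    exact mul_right_cancel₀ hD this
  have i2 : q * k + p * a = X - β := by
    have hD : a - k * (t - 1) ≠ 0 := by
      apply ne_of_gt; linarith only [ha1, hk1, g1, g2, kt2]
    have : (q * k + p * a) * (a - k * (t - 1)) = (X - β) * (a - k * (t - 1)) := by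
      linear_combination k * hqm + a * hpm
    exact mul_right_cancel₀ hD this
  have i3 : q' + p' * (t - b) = H - s := by rw [hq']; ring
  obtain ⟨d1, hd1⟩ : ∃ d1, d1 = k * x1 + y1 * (a - k * (t - 1)) := ⟨_, rfl⟩
  obtain ⟨d4, hd4⟩ : ∃ d4, d4 = x4 * (1 + k * b - a) + y4 * (k * b) := ⟨_, rfl⟩
  rw [← hd1] at S3
  rw [← hd4] at S1
  -- excesses
  have hdet : D (X, H) (β, s) (c, s) = (c - β) * (H - s) := by unfold D; simp only; ring
  have E1 : ∀ P ∈ K, -((c - β) * s) ≤ D P (β, s) (c, s) := by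
    intro P hP
    have h2 := S2 P hP
    have : D P (β, s) (c, s) = (c - β) * P.2 - (c - β) * s := by unfold D; simp only; ring
    rw [this]
    have : 0 ≤ (c - β) * P.2 := mul_nonneg (by linarith only [hx22, hy32, g1, g2, hβ1, hβ1', hc, ks1]) h2
    linarith only [this]
  have E3 : ∀ P ∈ K, -((X * (1 - s) + (H - 1) * β) - q * d1) ≤ D (X, H) (β, s) P := by
    intro P hP
    have h0 := S0 P hP
    have h3 := S3 P hP
    have e : D (X, H) (β, s) P = -(q * (k * P.2 - P.1)) - p * (a * P.2 - (t - 1) * P.1)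
        - ((X - β) * (-H) + (H - s) * X) := by
      unfold D; simp only
      linear_combination P.2 * i2 - P.1 * i1
    rw [e]
    have m1 : q * (k * P.2 - P.1) ≤ q * (k - d1) := mul_le_mul_of_nonneg_left h3 (by linarith only [g1, g2, hq1])
    have m2 : p * (a * P.2 - (t - 1) * P.1) ≤ p * a :=
      mul_le_mul_of_nonneg_left (by linarith only [h0]) hp0
    have m3 : q * k + p * a = X - β := i2
    linarith only [i2, m1, m2, mul_sub q k d1, mul_comm q k]
  have E2 : ∀ P ∈ K, -(((c - X) * (b - H) + (H - s) * (1 + k * b - X)) - q' * d4)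
      ≤ D (X, H) P (c, s) := by
    intro P hP
    have h1 := S1 P hP
    have h4 := S4 P hP
    have e : D (X, H) P (c, s) = -(q' * P.1) - p' * ((t - b) * P.1 + (1 + k * b - a) * P.2)
        + ((c - X) * H + (H - s) * X) := by
      unfold D; simp only
      linear_combination P.1 * i3 + P.2 * hpm'
    rw [e]
    have m1 : q' * P.1 ≤ q' * ((1 + k * b) - d4) := mul_le_mul_of_nonneg_left h1 (by linarith only [g1, g2, hq1'])
    have m2 : p' * ((t - b) * P.1 + (1 + k * b - a) * P.2)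
        ≤ p' * ((t - b) * (1 + k * b) + (1 + k * b - a) * b) :=
      mul_le_mul_of_nonneg_left (by linarith only [h4]) hp0'
    have m3 : p' * ((t - b) * (1 + k * b) + (1 + k * b - a) * b)
        = (H - s - q') * (1 + k * b) + (c - X) * b := by
      linear_combination (1 + k * b) * i3 + b * hpm'
    linarith only [m1, m2, m3]
  by_cases hgood : (c - β) * s + (((c - X) * (b - H) + (H - s) * (1 + k * b - X)) - q' * d4)
      + ((X * (1 - s) + (H - 1) * β) - q * d1) < g * ((c - β) * (H - s))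
  · left
    refine good_of_excess A1 hB hC ?_ E1 E2 E3 ?_
    · rw [hdet]; apply mul_pos <;> linarith only [hx22, hy32, g1, g2, hβ1, hβ1', hc, ks1, ht1, hs2, hH, xt2, yt2]
    · rw [hdet]; exact hgood
  · right
    have hge := not_lt.1 hgood
    have b1 : 0.6 * (x1 + y1) ≤ q * d1 := by
      have : 0.613 * (x1 + y1) ≤ d1 := by
        have m1 : 0.613 * x1 ≤ k * x1 := mul_le_mul_of_nonneg_right (by linarith only [hk1, g1, g2]) hx11
        have m2 : y1 * 0.613 ≤ y1 * (a - k * (t - 1)) :=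
          mul_le_mul_of_nonneg_left (by linarith only [ha1, hk1, g1, g2, kt2]) hy11
        rw [hd1]; linarith only [m1, m2]
      have h2 : 0.98 * (0.613 * (x1 + y1)) ≤ q * d1 :=
        mul_le_mul hq1 this (by positivity) (by linarith only [g1, g2, hq1])
      linarith only [hx11, hy11, h2]
    have b4 : 0.6 * (x4 + y4) ≤ q' * d4 := by
      have : 0.613 * (x4 + y4) ≤ d4 := by
        have m1 : x4 * 0.613 ≤ x4 * (1 + k * b - a) :=
          mul_le_mul_of_nonneg_left (by linarith only [ha2, g1, g2, kb1]) hx41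
        have m2 : y4 * 0.613 ≤ y4 * (k * b) := mul_le_mul_of_nonneg_left (by linarith only [g1, g2, kb1]) hy41
        rw [hd4]; linarith only [m1, m2]
      have h2 : 0.98 * (0.613 * (x4 + y4)) ≤ q' * d4 :=
        mul_le_mul hq1' this (by positivity) (by linarith only [g1, g2, hq1'])
      linarith only [hx41, hy41, h2]
    have e : (c - β) * s + (((c - X) * (b - H) + (H - s) * (1 + k * b - X)) - q' * d4)
      + ((X * (1 - s) + (H - 1) * β) - q * d1) - g * ((c - β) * (H - s)) =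
      Gf a t k b s + x0 * ((t - 1) * (g * (1 + k * s) - k * (b - s)) - a * (1 - b))
       + y0 * ((t - b) * (g * (1 + k * s) - k * (b - s)) + (1 + k * b - a) * (1 - b))
       + β * ((1 + g) * (t - s) - 1) + β' * ((1 + g) * (t - s) - b)
       - (1 + g) * (β + β') * (x0 * (t - 1) + y0 * (t - b)) - q * d1 - q' * d4 := by
      rw [hc, hX, hH]; unfold Gf; ring
    have gc1 : g * (1 + k * s) ≤ 1.3833 :=
      mu _ g2.le (by linarith only [ks2] : 1 + k * s ≤ 1.2371) (by linarith only [g1, g2]) (by linarith only [g1, g2, ks1]) (by norm_num)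
    have gc0 : 1.38 ≤ g * (1 + k * s) :=
      ml _ g1.le (by linarith only [ks1] : 1.235 ≤ 1 + k * s) (by norm_num) (by norm_num) (by norm_num)
    have bs : 0.3793 ≤ k * (b - s) :=
      ml _ hk1 (by linarith only [hb1, hs2] : 0.616 ≤ b - s) (by norm_num) (by norm_num) (by norm_num)
    have bs' : k * (b - s) ≤ 0.384 :=
      mu _ hk2 (by linarith only [hb2, hs1] : b - s ≤ 0.62) (by linarith only [hk1, g1, g2]) (by linarith only [hb1, hs2, g1, g2]) (by norm_num)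
    have gk1 : g * (1 + k * s) - k * (b - s) ≤ 1.0041 := by linarith only [kb1, ks2, gc1]
    have gk0 : 0 ≤ g * (1 + k * s) - k * (b - s) := by linarith only [g1, g2, kb2, ks1, gc0]
    have ab1 : -0.0011 ≤ a * (1 - b) := by
      have : a * (b - 1) ≤ 1.001 * 0.001 := by
        rcases le_total 0 (b - 1) with h0 | h0
        · exact mul_le_mul ha2 (by linarith only [hb2]) h0 (by norm_num)
        · have : a * (b - 1) ≤ 0 := mul_nonpos_of_nonneg_of_nonpos (by linarith only [ha1, g1, g2]) h0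
          linarith only [g1, g2, this]
      linarith only [g1, g2, this]
    have cx : (t - 1) * (g * (1 + k * s) - k * (b - s)) - a * (1 - b) ≤ 0.63 := by
      have : (t - 1) * (g * (1 + k * s) - k * (b - s)) ≤ 0.622 :=
        mu _ (by linarith only [ht2] : t - 1 ≤ 0.619) gk1 (by linarith only [ht1, g1, g2]) gk0 (by norm_num)
      linarith only [g1, g2, ab1, this]
    have cy : (t - b) * (g * (1 + k * s) - k * (b - s)) + (1 + k * b - a) * (1 - b) ≤ 0.63 := by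
      have h1 : (t - b) * (g * (1 + k * s) - k * (b - s)) ≤ 0.623 :=
        mu _ (by linarith only [hb1, ht2] : t - b ≤ 0.62) gk1 (by linarith only [hb2, ht1, g1, g2]) gk0 (by norm_num)
      have h2 : (1 + k * b - a) * (1 - b) ≤ 0.63 * 0.001 := by
        rcases le_total 0 (1 - b) with h0 | h0
        · exact mul_le_mul (by linarith only [ha1, g1, g2, kb2]) (by linarith only [hb1]) h0 (by norm_num)
        · have : (1 + k * b - a) * (1 - b) ≤ 0 :=
            mul_nonpos_of_nonneg_of_nonpos (by linarith only [ha2, g1, g2, kb1]) h0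
          linarith only [g1, g2, this]
      linarith only [g1, g2, h1, h2]
    have gt : (1 + g) * (t - s) ≤ 2.624 :=
      mu _ (by linarith only [g2] : 1 + g ≤ 2.1181) (by linarith only [ht2, hs1] : t - s ≤ 1.238) (by linarith only [g1, g2])
        (by linarith only [ht1, hs2, g1, g2]) (by norm_num)
    have gt0 : 2.6 ≤ (1 + g) * (t - s) :=
      ml _ (by linarith only [g1] : 2.118 ≤ 1 + g) (by linarith only [ht1, hs2] : 1.234 ≤ t - s) (by norm_num)
        (by norm_num) (by norm_num)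
    have cb : β * ((1 + g) * (t - s) - 1) ≤ 0.4 * x2 := by
      have : β * ((1 + g) * (t - s) - 1) ≤ (0.242 * x2) * 1.624 :=
        mul_le_mul hβ1 (by linarith only [gt]) (by linarith only [g1, g2, gt0]) (by positivity)
      linarith only [hx21, this]
    have cb' : β' * ((1 + g) * (t - s) - b) ≤ 0.4 * y3 := by
      have : β' * ((1 + g) * (t - s) - b) ≤ (0.2435 * y3) * 1.625 :=
        mul_le_mul hβ1' (by linarith only [hb1, gt]) (by linarith only [hb2, g1, g2, gt0]) (by positivity)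
      linarith only [hy31, this]
    have cc : 0 ≤ (1 + g) * (β + β') * (x0 * (t - 1) + y0 * (t - b)) := by
      have : 0 ≤ t - 1 := by linarith only [ht1, g1, g2]
      have : 0 ≤ t - b := by linarith only [hb2, ht1, g1, g2]
      have : 0 ≤ 1 + g := by linarith only [g1, g2]
      positivity
    have cx' := mul_le_mul_of_nonneg_left cx hx01
    have cy' := mul_le_mul_of_nonneg_left cy hy01
    linarith only [hgood, b1, b4, e, cb, cb', cc, cx', cy']

end Pool.Agent.HBL
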