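import Pool.Agent.HBL.T1

/-!
# The triangle with one vertex at the top: invariant form
-/

namespace Pool.Agent.HBL

theorem fr_fr (O E N o e n P : ℝ × ℝ) :
    fr (fr O E N o) (fr O E N e) (fr O E N n) P = fr O E N (fr o e n P) := by
  unfold fr
  ext
  · simp only; ring
  · simp only; ring

theorem fr_00 (O E N : ℝ × ℝ) : fr O E N (0, 0) = O := by
  unfold fr; ext <;> simp

theorem fr_10 (O E N : ℝ × ℝ) : fr O E N (1, 0) = E := by
  unfold fr; ext <;> simp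

theorem fr_01 (O E N : ℝ × ℝ) : fr O E N (0, 1) = N := by
  unfold fr; ext <;> simp

theorem comp {O E N v0 v1 v2 : ℝ × ℝ} (p0 p1 p2 P : ℝ × ℝ) (h0 : fr O E N p0 = v0)
    (h1 : fr O E N p1 = v1) (h2 : fr O E N p2 = v2) :
    fr v0 v1 v2 P = fr O E N (fr p0 p1 p2 P) := by
  rw [← h0, ← h1, ← h2, fr_fr]

/-- `1/φ² = (3-√5)/2`. -/
noncomputable def kap : ℝ := 3 / 2 - g

/-- The weighted excess functional. -/
noncomputable def W (a0 a1 a2 a3 a4 S : ℝ) : ℝ :=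
  a2 * a3 * (S - kap * a0)
    - (1 + g) * (S - a1 - a4 - kap * a0) * (a2 * a3 + (S - a0 - a2 - a3) * (kap * a0))

theorem Gf_eq {a0 a1 a2 a3 a4 S : ℝ} (h2 : 0 < a2) (h3 : 0 < a3)
    (hG : a2 * a4 = a2 * a3 - a1 * a3 + (S - a0 - a3 - a2) * (S - a1 - a4)) :
    a2 * a2 * a3 * Gf (a1 / a2) ((S - a1 - a4) / a2) ((S - a0 - a3 - a2) / a3) (a3 / a2)
      (kap * a0 / a2) = W a0 a1 a2 a3 a4 S := by
  unfold Gf W
  have e : a2 * a2 * a3 * ((1 + (S - a0 - a3 - a2) / a3 * (kap * a0 / a2)) *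
      (kap * a0 / a2 - g * ((S - a1 - a4) / a2 - kap * a0 / a2)) +
      a1 / a2 * (1 - kap * a0 / a2) + (a3 / a2 - kap * a0 / a2) *
      (1 - a1 / a2 + (S - a0 - a3 - a2) / a3 * ((S - a1 - a4) / a2))) =
      (a2 * a3 + (S - a0 - a3 - a2) * (kap * a0)) * (kap * a0 - g * ((S - a1 - a4) - kap * a0))
      + a1 * a3 * (a2 - kap * a0)
      + (a3 - kap * a0) * (a2 * a3 - a1 * a3 + (S - a0 - a3 - a2) * (S - a1 - a4)) := by
    field_simp
  rw [e, ← hG]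
  linear_combination (-(kap * a0)) * hG

set_option maxHeartbeats 4000000 in
theorem T1 {K : Set (ℝ × ℝ)} (hK : Convex ℝ K) {v0 v1 v2 v3 v4 : ℝ × ℝ}
    {a0 a1 a2 a3 a4 S x0 y0 x1 y1 x2 y2 x3 y3 x4 y4 z1 z3 : ℝ}
    (e0 : D v4 v0 v1 = a0) (e1 : D v0 v1 v2 = a1) (e2 : D v1 v2 v3 = a2)
    (e3 : D v2 v3 v4 = a3) (e4 : D v3 v4 v0 = a4) (eS : D v0 v2 v3 = S - a1 - a4)
    (ha0 : |a0 - 1| ≤ 1 / 10000) (ha1 : |a1 - 1| ≤ 1 / 10000) (ha2 : |a2 - 1| ≤ 1 / 10000)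
    (ha3 : |a3 - 1| ≤ 1 / 10000) (ha4 : |a4 - 1| ≤ 1 / 10000)
    (hS : |S - (5 / 2 + g)| ≤ 1 / 10000)
    (hz1 : |z1 - 1 / 2| ≤ 1 / 10000) (hz3 : |z3 - 1 / 2| ≤ 1 / 10000)
    (hx0 : 0 ≤ x0 ∧ x0 ≤ 0.001) (hy0 : 0 ≤ y0 ∧ y0 ≤ 0.001)
    (hx1 : 0 ≤ x1 ∧ x1 ≤ 0.001) (hy1 : 0 ≤ y1 ∧ y1 ≤ 0.001)
    (hx2 : 0 ≤ x2 ∧ x2 ≤ 0.001) (hy2 : 0 ≤ y2 ∧ y2 ≤ 0.001)
    (hx3 : 0 ≤ x3 ∧ x3 ≤ 0.001) (hy3 : 0 ≤ y3 ∧ y3 ≤ 0.001)
    (hx4 : 0 ≤ x4 ∧ x4 ≤ 0.001) (hy4 : 0 ≤ y4 ∧ y4 ≤ 0.001)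
    (m1 : fr v1 v2 v0 (z1, 0) ∈ K) (m3 : fr v3 v4 v2 (z3, 0) ∈ K)
    (A0 : fr v0 v1 v4 (x0, y0) ∈ K) (A2 : fr v2 v3 v1 (x2, y2) ∈ K)
    (A3 : fr v3 v4 v2 (x3, y3) ∈ K)
    (s2 : ∀ P ∈ K, 0 ≤ D v2 v3 P) (s0 : ∀ P ∈ K, 0 ≤ D v0 v1 P)
    (s4 : ∀ P ∈ K, 0 ≤ D v4 v0 P)
    (t3 : ∀ P ∈ K, D v3 v4 P ≤ D v3 v4 (fr v1 v2 v0 (x1, y1)))
    (t1 : ∀ P ∈ K, D v1 v2 P ≤ D v1 v2 (fr v4 v0 v3 (x4, y4))) :
    Good K ∨ 0 ≤ W a0 a1 a2 a3 a4 S + 0.64 * (x0 + y0) + 0.41 * (x2 + y3)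
      - 0.59 * (x1 + y1) - 0.59 * (x4 + y4) := by
  rw [abs_le] at ha0 ha1 ha2 ha3 ha4 hS hz1 hz3
  have g1 := g_lb
  have g2 := g_ub
  have hk : kap = 3 / 2 - g := rfl
  have h2 : 0 < a2 := by linarith
  have h3 : 0 < a3 := by linarith
  have hO : D v2 v3 v1 = a2 := by rw [← e2]; unfold D; ring
  have hO' : 0 < D v2 v3 v1 := by rw [hO]; exact h2
  have hO0 : D v2 v3 v1 ≠ 0 := hO'.ne'
  -- coordinates of `v0`, `v4`
  obtain ⟨a, ha⟩ : ∃ a, a = a1 / a2 := ⟨_, rfl⟩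
  obtain ⟨t, ht⟩ : ∃ t, t = (S - a1 - a4) / a2 := ⟨_, rfl⟩
  obtain ⟨k, hk'⟩ : ∃ k, k = (S - a0 - a3 - a2) / a3 := ⟨_, rfl⟩
  obtain ⟨b, hb⟩ : ∃ b, b = a3 / a2 := ⟨_, rfl⟩
  obtain ⟨s, hs⟩ : ∃ s, s = kap * a0 / a2 := ⟨_, rfl⟩
  have hb0 : 0 < b := by rw [hb]; positivity
  have f0 : fr v2 v3 v1 (a, t) = v0 := by
    have := fr_surj hO0 v0
    rw [hO] at this
    have i1 : D v2 v0 v1 = a1 := by rw [← e1]; unfold D; ring
    have i2 : D v2 v3 v0 = S - a1 - a4 := by rw [← eS]; unfold D; ring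
    rw [i1, i2, ← ha, ← ht] at this
    exact this
  have f4 : fr v2 v3 v1 (1 + k * b, b) = v4 := by
    have := fr_surj hO0 v4
    rw [hO] at this
    have i1 : D v2 v4 v1 = S - a0 - a3 := by
      have : D v2 v4 v1 + D v4 v0 v1 + D v2 v3 v4 = D v0 v2 v3 + D v0 v1 v2 + D v3 v4 v0 := by
        unfold D; ring
      rw [e0, e1, e3, e4, eS] at this; linarith
    have i3 : (S - a0 - a3) / a2 = 1 + k * b := by
      rw [hk', hb]; field_simp; ring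
    rw [i1, e3, i3, ← hb] at this
    exact this
  have f1 : fr v2 v3 v1 (0, 1) = v1 := fr_01 _ _ _
  have f2 : fr v2 v3 v1 (0, 0) = v2 := fr_00 _ _ _
  have f3 : fr v2 v3 v1 (1, 0) = v3 := fr_10 _ _ _
  have hfg : ∀ A B P : ℝ × ℝ, D (fr v2 v3 v1 A) (fr v2 v3 v1 B) (fr v2 v3 v1 P) = a2 * D A B P := by
    intro A B P; rw [D_fr, hO]
  -- the Gauss relation
  have hG : a2 * a4 = a2 * a3 - a1 * a3 + (S - a0 - a3 - a2) * (S - a1 - a4) := by
    have h := hfg (1, 0) (1 + k * b, b) (a, t)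
    rw [f3, f4, f0, e4] at h
    have : D ((1, 0) : ℝ × ℝ) (1 + k * b, b) (a, t) = k * b * t - b * (a - 1) := by
      unfold D; simp only; ring
    rw [this] at h
    have h' : a2 * (a2 * (k * b * t - b * (a - 1))) =
        a2 * a3 - a1 * a3 + (S - a0 - a3 - a2) * (S - a1 - a4) := by
      rw [hk', hb, ht, ha]
      field_simp
      ring
    linear_combination a2 * h + h'
  have bnd : (0.999 ≤ a ∧ a ≤ 1.001) ∧ (0.999 ≤ b ∧ b ≤ 1.001) ∧ (1.617 ≤ t ∧ t ≤ 1.619) ∧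
      (0.617 ≤ k ∧ k ≤ 0.619) ∧ (0.381 ≤ s ∧ s ≤ 0.383) := by
    rw [ha, hb, ht, hk', hs, hk]
    refine ⟨⟨?_, ?_⟩, ⟨?_, ?_⟩, ⟨?_, ?_⟩, ⟨?_, ?_⟩, ⟨?_, ?_⟩⟩
    · rw [le_div_iff₀ h2]; linarith
    · rw [div_le_iff₀ h2]; linarith
    · rw [le_div_iff₀ h2]; linarith
    · rw [div_le_iff₀ h2]; linarith
    · rw [le_div_iff₀ h2]; linarith
    · rw [div_le_iff₀ h2]; linarith
    · rw [le_div_iff₀ h3]; linarith
    · rw [div_le_iff₀ h3]; linarith
    · rw [le_div_iff₀ h2]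
      have : 0.3818 ≤ (3 / 2 - g) * a0 :=
        ml _ (by linarith : 0.3819 ≤ 3 / 2 - g) (by linarith : 0.9999 ≤ a0) (by norm_num)
          (by norm_num) (by norm_num)
      linarith
    · rw [div_le_iff₀ h2]
      have : (3 / 2 - g) * a0 ≤ 0.3821 :=
        mu _ (by linarith : 3 / 2 - g ≤ 0.382) (by linarith : a0 ≤ 1.0001) (by linarith)
          (by linarith) (by norm_num)
      linarith
  obtain ⟨ba, bb, bt, bk, bs⟩ := bnd
  have main := T1_frame (K := fr v2 v3 v1 ⁻¹' K) (a := a) (t := t) (k := k) (b := b) (s := s)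
    (x0 := x0) (y0 := y0) (x1 := x1) (y1 := y1) (x2 := x2) (y2 := y2) (x3 := x3) (y3 := y3)
    (x4 := x4) (y4 := y4) (h := 1 - z1) (z := z3) ?_ ba bb bt bk bs
    ⟨by linarith, by linarith⟩ ⟨by linarith, by linarith⟩
    hx0 hy0 hx1 hy1 hx2 hy2 hx3 hy3 hx4 hy4 ?_ ?_ ?_ ?_ ?_ ?_ ?_ ?_ ?_ ?_
  · rcases main with h | h
    · exact Or.inl (Good.of_fr hO' h)
    · right
      have hW := Gf_eq h2 h3 hG
      rw [← ha, ← ht, ← hk', ← hb, ← hs] at hW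
      have w1 : 0.999 ≤ a2 * a2 * a3 := by
        have : 0.9997 ≤ a2 * a2 := ml _ (by linarith : 0.9999 ≤ a2) (by linarith : 0.9999 ≤ a2)
          (by norm_num) (by norm_num) (by norm_num)
        exact ml _ this (by linarith : 0.9999 ≤ a3) (by norm_num) (by norm_num) (by norm_num)
      have w2 : a2 * a2 * a3 ≤ 1.001 := by
        have : a2 * a2 ≤ 1.0003 := mu _ (by linarith : a2 ≤ 1.0001) (by linarith : a2 ≤ 1.0001)
          (by linarith) (by linarith) (by norm_num)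
        exact mu _ this (by linarith : a3 ≤ 1.0001) (by positivity) (by linarith) (by norm_num)
      have hm : 0 ≤ a2 * a2 * a3 * (Gf a t k b s + 0.63 * (x0 + y0) + 0.4 * (x2 + y3)
        - 0.6 * (x1 + y1) - 0.6 * (x4 + y4)) := mul_nonneg (by linarith) h
      have r1 : a2 * a2 * a3 * (x0 + y0) ≤ 1.001 * (x0 + y0) :=
        mul_le_mul_of_nonneg_right w2 (by linarith)
      have r2 : a2 * a2 * a3 * (x2 + y3) ≤ 1.001 * (x2 + y3) :=
        mul_le_mul_of_nonneg_right w2 (by linarith)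
      have r3 : 0.999 * (x1 + y1) ≤ a2 * a2 * a3 * (x1 + y1) :=
        mul_le_mul_of_nonneg_right w1 (by linarith)
      have r4 : 0.999 * (x4 + y4) ≤ a2 * a2 * a3 * (x4 + y4) :=
        mul_le_mul_of_nonneg_right w1 (by linarith)
      linarith
  · -- convexity
    intro P hP Q hQ p q hp hq hpq
    have h := hK hP hQ hp hq hpq
    simp only [Set.mem_preimage]
    convert h using 1
    have hq' : q = 1 - p := by linarith
    subst hq'
    ext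
    · simp only [fr, Prod.fst_add, Prod.smul_fst, Prod.snd_add, Prod.smul_snd, smul_eq_mul]; ring
    · simp only [fr, Prod.fst_add, Prod.smul_fst, Prod.snd_add, Prod.smul_snd, smul_eq_mul]; ring
  · -- p1
    have e : fr v1 v2 v0 (z1, 0) = fr v2 v3 v1 (0, 1 - z1) := by
      rw [comp _ _ _ (z1, 0) f1 f2 f0]
      congr 1; unfold fr; ext <;> (simp only; ring)
    simp only [Set.mem_preimage]
    rw [← e]; exact m1
  · exact A2
  · have e : fr v3 v4 v2 (z3, 0) = fr v2 v3 v1 (1 + z3 * (k * b), z3 * b) := by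
      rw [comp _ _ _ (z3, 0) f3 f4 f2]
      congr 1; unfold fr; ext <;> (simp only; ring)
    simp only [Set.mem_preimage]
    rw [← e]; exact m3
  · have e : fr v3 v4 v2 (x3, y3) = fr v2 v3 v1 (1 + x3 * (k * b) - y3, x3 * b) := by
      rw [comp _ _ _ (x3, y3) f3 f4 f2]
      congr 1; unfold fr; ext <;> (simp only; ring)
    simp only [Set.mem_preimage]
    rw [← e]; exact A3
  · have e : fr v0 v1 v4 (x0, y0) = fr v2 v3 v1
        (a * (1 - x0) + y0 * (1 + k * b - a), t - x0 * (t - 1) - y0 * (t - b)) := by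
      rw [comp _ _ _ (x0, y0) f0 f1 f4]
      congr 1; unfold fr; ext <;> (simp only; ring)
    simp only [Set.mem_preimage]
    rw [← e]; exact A0
  · intro P hP
    have h := s2 _ hP
    have h' := hfg (0, 0) (1, 0) P
    rw [f2, f3] at h'
    rw [h'] at h
    have e : D (0, 0) (1, 0) P = P.2 := by unfold D; simp only; ring
    rw [e] at h
    exact nonneg_of_mul_nonneg_right h h2
  · intro P hP
    have h := s0 _ hP
    have h' := hfg (a, t) (0, 1) P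
    rw [f0, f1] at h'
    rw [h'] at h
    have e : D (a, t) (0, 1) P = (t - 1) * P.1 - a * P.2 + a := by unfold D; simp only; ring
    rw [e] at h
    exact nonneg_of_mul_nonneg_right h h2
  · intro P hP
    have h := s4 _ hP
    have h' := hfg (1 + k * b, b) (a, t) P
    rw [f4, f0] at h'
    rw [h'] at h
    have e : D (1 + k * b, b) (a, t) P =
      (a - (1 + k * b)) * (P.2 - b) - (t - b) * (P.1 - (1 + k * b)) := by unfold D; simp only
    rw [e] at h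
    exact nonneg_of_mul_nonneg_right h h2
  · intro P hP
    have h := t3 _ hP
    have e' : fr v1 v2 v0 (x1, y1) = fr v2 v3 v1 (y1 * a, 1 - x1 + y1 * (t - 1)) := by
      rw [comp _ _ _ (x1, y1) f1 f2 f0]
      congr 1; unfold fr; ext <;> (simp only; ring)
    have h' := hfg (1, 0) (1 + k * b, b) P
    have h'' := hfg (1, 0) (1 + k * b, b) (y1 * a, 1 - x1 + y1 * (t - 1))
    rw [f3, f4] at h' h''
    rw [e', h', h''] at h
    have h5 := le_of_mul_le_mul_left h h2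
    have e : D (1, 0) (1 + k * b, b) P = b * (k * P.2 - P.1 + 1) := by
      unfold D; simp only; ring
    have e'' : D (1, 0) (1 + k * b, b) (y1 * a, 1 - x1 + y1 * (t - 1)) =
      b * (k * (1 - x1 + y1 * (t - 1)) - y1 * a + 1) := by
      unfold D; simp only; ring
    rw [e, e''] at h5
    have h6 := le_of_mul_le_mul_left h5 hb0
    linarith
  · intro P hP
    have h := t1 _ hP
    have e' : fr v4 v0 v3 (x4, y4) = fr v2 v3 v1
        ((1 + k * b) + x4 * (a - (1 + k * b)) + y4 * (1 - (1 + k * b)),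
          b + x4 * (t - b) + y4 * (0 - b)) := by
      rw [comp _ _ _ (x4, y4) f4 f0 f3]
      rfl
    have h' := hfg (0, 1) (0, 0) P
    have h'' := hfg (0, 1) (0, 0) ((1 + k * b) + x4 * (a - (1 + k * b)) + y4 * (1 - (1 + k * b)),
          b + x4 * (t - b) + y4 * (0 - b))
    rw [f1, f2] at h' h''
    rw [e', h', h''] at h
    have h5 := le_of_mul_le_mul_left h h2
    have e : D (0, 1) (0, 0) P = P.1 := by
      unfold D; simp only; ring
    rw [e] at h5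
    unfold D at h5
    simp only at h5
    linarith

end Pool.Agent.HBL
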